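import Mathlib

set_option autoImplicit false

namespace Pool.Agent.Helper835.BL

open ArithmeticFunction
open scoped ArithmeticFunction.Omega

theorem Omega_mono {a b : ℕ} (hb : b ≠ 0) (h : a ∣ b) : Ω a ≤ Ω b := by
  obtain ⟨c, rfl⟩ := h
  have ha : a ≠ 0 := left_ne_zero_of_mul hb
  have hc : c ≠ 0 := right_ne_zero_of_mul hb
  rw [cardFactors_mul ha hc]
  exact Nat.le_add_right _ _

section Comm

variable {A : Type} [CommGroup A] [Finite A]

/-- In a finite abelian group, elements killed by a squarefree number lie in every subgroup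
containing all elements of prime order. -/
theorem mem_of_pow {Z : Subgroup A} (hZ : ∀ a : A, (orderOf a).Prime → a ∈ Z) {e : ℕ}
    (he : Squarefree e) {a : A} (ha : a ^ e = 1) : a ∈ Z := by
  have hm : orderOf a ∣ e := orderOf_dvd_of_pow_eq_one ha
  have hsq : Squarefree (orderOf a) := he.squarefree_of_dvd hm
  set d := orderOf (QuotientGroup.mk a : A ⧸ Z) with hd
  have hdm : d ∣ orderOf a := orderOf_map_dvd (QuotientGroup.mk' Z) a
  have hpos : orderOf a ≠ 0 := (orderOf_pos a).ne'
  by_cases h1 : d = 1
  · rw [hd, orderOf_eq_one_iff, QuotientGroup.eq_one_iff] at h1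
    exact h1
  · exfalso
    obtain ⟨p, hp, hpd⟩ := Nat.exists_prime_and_dvd h1
    have hpm : p ∣ orderOf a := hpd.trans hdm
    have h2 : orderOf (a ^ (orderOf a / p)) = p := orderOf_pow_orderOf_div hpos hpm
    have h3 : a ^ (orderOf a / p) ∈ Z := hZ _ (by rw [h2]; exact hp)
    have h4 : (QuotientGroup.mk a : A ⧸ Z) ^ (orderOf a / p) = 1 := by
      rw [← QuotientGroup.mk_pow, QuotientGroup.eq_one_iff]
      exact h3
    have h5 : d ∣ orderOf a / p := orderOf_dvd_of_pow_eq_one h4
    have h6 : p * p ∣ orderOf a := by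
      have := Nat.mul_dvd_mul_left p (hpd.trans h5)
      rwa [Nat.mul_div_cancel' hpm] at this
    exact hp.one_lt.ne' (Nat.isUnit_iff.1 (hsq p h6))

theorem not_mem_sup {X : Finset A} (hgen : Subgroup.closure (X : Set A) = ⊤) {x : A}
    (hx : x ∈ X) (hirr : x ∉ Subgroup.closure ((X : Set A) \ {x}))
    (hpp : ∃ p k : ℕ, p.Prime ∧ orderOf x = p ^ k) {e : ℕ}
    (he : ∀ p : ℕ, p.Prime → p ∣ Nat.card A → p ∣ e) :
    x ∉ Subgroup.closure ((X : Set A) \ {x}) ⊔ (powMonoidHom e : A →* A).range := by
  set M := Subgroup.closure ((X : Set A) \ {x}) with hM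
  intro hmem
  obtain ⟨m, hm, n, ⟨a, rfl⟩, hmn⟩ := Subgroup.mem_sup.1 hmem
  have ha : a ∈ M ⊔ Subgroup.zpowers x := by
    have : M ⊔ Subgroup.zpowers x = ⊤ := by
      rw [← top_le_iff, ← hgen, Subgroup.closure_le]
      intro y hy
      by_cases hyx : y = x
      · rw [hyx]
        exact (le_sup_right : _ ≤ M ⊔ Subgroup.zpowers x) (Subgroup.mem_zpowers x)
      · exact (le_sup_left : _ ≤ M ⊔ Subgroup.zpowers x) (Subgroup.subset_closure ⟨hy, hyx⟩)
    rw [this]
    trivial
  obtain ⟨m', hm', y, hy, rfl⟩ := Subgroup.mem_sup.1 ha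
  obtain ⟨j, rfl⟩ := Subgroup.mem_zpowers_iff.1 hy
  obtain ⟨p, k, hp, hk⟩ := hpp
  apply hirr
  rcases Nat.eq_zero_or_pos k with rfl | hk0
  · rw [pow_zero, orderOf_eq_one_iff] at hk
    rw [hk]
    exact M.one_mem
  · have hpe : p ∣ e := he p hp ((dvd_pow_self p hk0.ne').trans (hk ▸ orderOf_dvd_natCard x))
    have h1 : x ^ (1 - j * (e : ℤ)) ∈ M := by
      have h2 : x ^ (1 - j * (e : ℤ)) = m * m' ^ e := by
        rw [zpow_sub, zpow_one]
        have h3 : (powMonoidHom e : A →* A) (m' * x ^ j) = m' ^ e * x ^ (j * (e : ℤ)) := by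
          rw [powMonoidHom_apply, mul_pow, zpow_mul, zpow_natCast]
        rw [h3] at hmn
        rw [mul_inv_eq_iff_eq_mul, mul_assoc]
        exact hmn.symm
      rw [h2]
      exact M.mul_mem hm (M.pow_mem hm' e)
    have hcop : IsCoprime (1 - j * (e : ℤ)) ((p : ℤ) ^ k) := by
      apply IsCoprime.pow_right
      obtain ⟨q, hq⟩ := hpe
      refine ⟨1, j * q, ?_⟩
      rw [hq]
      push_cast
      ring
    obtain ⟨u, v, huv⟩ := hcop
    have h4 : x = (x ^ (1 - j * (e : ℤ))) ^ u := by
      have h5 : x ^ ((p : ℤ) ^ k) = 1 := by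
        have := pow_orderOf_eq_one x
        rw [hk] at this
        rw [← this, ← zpow_natCast]
        push_cast
        rfl
      rw [← zpow_mul]
      have h6 : (1 - j * (e : ℤ)) * u = 1 - (p : ℤ) ^ k * v := by
        linear_combination huv
      rw [h6, zpow_sub, zpow_one, zpow_mul, h5, one_zpow, inv_one, mul_one]
    rw [h4]
    exact M.zpow_mem h1 u

theorem card_le_Omega (X : Finset A) (hgen : Subgroup.closure (X : Set A) = ⊤)
    (hirr : ∀ x ∈ X, x ∉ Subgroup.closure ((X : Set A) \ {x}))
    (hpp : ∀ x ∈ X, ∃ p k : ℕ, p.Prime ∧ orderOf x = p ^ k) (Z : Subgroup A)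
    (hZ : ∀ a : A, (orderOf a).Prime → a ∈ Z) : X.card ≤ Ω (Nat.card Z) := by
  classical
  let e := primorial (Nat.card A)
  have hsq : Squarefree e := squarefree_primorial _
  have he : ∀ p : ℕ, p.Prime → p ∣ Nat.card A → p ∣ e := by
    intro p hp h
    exact hp.dvd_primorial_iff.2 (Nat.le_of_dvd Nat.card_pos h)
  let f : A →* A := powMonoidHom e
  have hker : f.ker ≤ Z := fun a ha => mem_of_pow hZ hsq ha
  have hidx : f.range.index = Nat.card f.ker := by
    have h1 := f.ker.card_mul_index
    have h2 := f.range.card_mul_index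
    rw [Subgroup.index_ker] at h1
    have h3 : 0 < Nat.card f.range := Nat.card_pos
    have h4 : Nat.card f.range * f.range.index = Nat.card f.range * Nat.card f.ker := by
      rw [h2, ← h1, mul_comm]
    exact Nat.eq_of_mul_eq_mul_left h3 h4
  have hchain : ∀ Y : Finset A, Y ⊆ X →
      Ω (Subgroup.closure (Y : Set A) ⊔ f.range).index + Y.card ≤ Ω f.range.index := by
    intro Y
    induction Y using Finset.induction_on with
    | empty =>
      intro _
      rw [Finset.coe_empty, Subgroup.closure_empty, bot_sup_eq, Finset.card_empty, add_zero]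
    | insert x Y hx ih =>
      intro hsub
      have hxX : x ∈ X := hsub (Finset.mem_insert_self _ _)
      have hYX : Y ⊆ X := fun y hy => hsub (Finset.mem_insert_of_mem hy)
      have h1 := ih hYX
      have hle : Subgroup.closure (Y : Set A) ⊔ f.range ≤
          Subgroup.closure ((insert x Y : Finset A) : Set A) ⊔ f.range := by
        apply sup_le_sup_right
        apply Subgroup.closure_mono
        rw [Finset.coe_insert]
        exact Set.subset_insert _ _
      have hnot : x ∉ Subgroup.closure (Y : Set A) ⊔ f.range := by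
        intro hmem
        apply not_mem_sup hgen hxX (hirr x hxX) (hpp x hxX) he
        have hle2 : Subgroup.closure (Y : Set A) ⊔ f.range ≤
            Subgroup.closure ((X : Set A) \ {x}) ⊔ f.range := by
          apply sup_le_sup_right
          apply Subgroup.closure_mono
          intro y hy
          refine ⟨hYX hy, ?_⟩
          rintro rfl
          exact hx hy
        exact hle2 hmem
      have hmul := Subgroup.relIndex_mul_index hle
      have hne1 : (Subgroup.closure (Y : Set A) ⊔ f.range).relIndex
          (Subgroup.closure ((insert x Y : Finset A) : Set A) ⊔ f.range) ≠ 1 := by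
        rw [Ne, Subgroup.relIndex_eq_one]
        intro h
        apply hnot
        apply h
        apply (le_sup_left : Subgroup.closure ((insert x Y : Finset A) : Set A) ≤ _)
        apply Subgroup.subset_closure
        rw [Finset.coe_insert]
        exact Set.mem_insert _ _
      have hne0 : (Subgroup.closure (Y : Set A) ⊔ f.range).relIndex
          (Subgroup.closure ((insert x Y : Finset A) : Set A) ⊔ f.range) ≠ 0 :=
        Subgroup.index_ne_zero_of_finite (H := (Subgroup.closure (Y : Set A) ⊔ f.range).subgroupOf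
          (Subgroup.closure ((insert x Y : Finset A) : Set A) ⊔ f.range))
      have hne2 : (Subgroup.closure ((insert x Y : Finset A) : Set A) ⊔ f.range).index ≠ 0 :=
        Subgroup.index_ne_zero_of_finite
      rw [← hmul, cardFactors_mul hne0 hne2] at h1
      have h2 : 0 < Ω ((Subgroup.closure (Y : Set A) ⊔ f.range).relIndex
          (Subgroup.closure ((insert x Y : Finset A) : Set A) ⊔ f.range)) := by
        rw [cardFactors_pos_iff_one_lt]
        omega
      rw [Finset.card_insert_of_notMem hx]
      omega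
  have h1 := hchain X (Finset.Subset.refl _)
  have h2 : Ω f.range.index ≤ Ω (Nat.card Z) := by
    rw [hidx]
    exact Omega_mono Nat.card_pos.ne' (Subgroup.card_dvd_of_le hker)
  omega

end Comm

/-- Irredundant commuting sets of elements of prime power order are not longer than the number of
prime factors of a subgroup containing all elements of prime order generated by them. -/
theorem card_le_of_irr {G : Type} [Group G] [Finite G] (X : Finset G)
    (hcomm : ∀ x ∈ X, ∀ y ∈ X, x * y = y * x)
    (hirr : ∀ x ∈ X, x ∉ Subgroup.closure ((X : Set G) \ {x}))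
    (hpp : ∀ x ∈ X, ∃ p k : ℕ, p.Prime ∧ orderOf x = p ^ k) (Z : Subgroup G)
    (hZ : ∀ a ∈ Subgroup.closure (X : Set G), (orderOf a).Prime → a ∈ Z) :
    X.card ≤ Ω (Nat.card Z) := by
  classical
  let _ : CommGroup (Subgroup.closure (X : Set G)) :=
    Subgroup.closureCommGroupOfComm (fun x hx y hy => hcomm x hx y hy)
  let X' : Finset (Subgroup.closure (X : Set G)) :=
    X.subtype (fun x => x ∈ Subgroup.closure (X : Set G))
  have hX' : (X' : Set (Subgroup.closure (X : Set G))) =
      (Subtype.val : (Subgroup.closure (X : Set G)) → G) ⁻¹' (X : Set G) := by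
    ext x
    simp [X']
  have hgen : Subgroup.closure (X' : Set (Subgroup.closure (X : Set G))) = ⊤ := by
    rw [hX']
    exact Subgroup.closure_closure_coe_preimage
  have hcard : X'.card = X.card := by
    rw [← Finset.card_map (Function.Embedding.subtype _)]
    congr 1
    ext x
    simp only [X', Finset.mem_map, Finset.mem_subtype, Function.Embedding.coe_subtype]
    constructor
    · rintro ⟨y, hy, rfl⟩
      exact hy
    · intro hx
      exact ⟨⟨x, Subgroup.subset_closure hx⟩, hx, rfl⟩
  have h1 := card_le_Omega X' hgen (by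
    intro x hx hmem
    have hx' : (x : G) ∈ X := by simpa [X'] using hx
    apply hirr x hx'
    have h2 : (Subgroup.closure (X : Set G)).subtype x ∈
        (Subgroup.closure ((X' : Set (Subgroup.closure (X : Set G))) \ {x})).map
          (Subgroup.closure (X : Set G)).subtype := Subgroup.mem_map_of_mem _ hmem
    rw [MonoidHom.map_closure] at h2
    refine Subgroup.closure_mono ?_ h2
    rintro _ ⟨y, ⟨hy, hyx⟩, rfl⟩
    refine ⟨?_, ?_⟩
    · have : (y : G) ∈ X := by simpa [X'] using hy
      exact this
    · intro h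
      exact hyx (Subtype.ext h)) (by
    intro x hx
    have hx' : (x : G) ∈ X := by simpa [X'] using hx
    obtain ⟨p, k, hp, hk⟩ := hpp x hx'
    exact ⟨p, k, hp, by rw [← hk]; exact (Subgroup.orderOf_coe x).symm⟩)
    (Z.subgroupOf (Subgroup.closure (X : Set G))) (by
    intro a ha
    rw [Subgroup.mem_subgroupOf]
    apply hZ _ a.2
    rw [Subgroup.orderOf_coe]
    exact ha)
  rw [hcard] at h1
  refine h1.trans (Omega_mono Nat.card_pos.ne' ?_)
  exact Subgroup.card_comap_dvd_of_injective Z (Subgroup.closure (X : Set G)).subtype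
    (Subgroup.subtype_injective _)

end Pool.Agent.Helper835.BL
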