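import Mathlib

set_option autoImplicit false

namespace Pool.Agent.Helper835.Small

open Cardinal

variable {θ : Cardinal.{0}} {α β : Type}

theorem small_iUnion (hθ : ℵ₀ ≤ θ) {ι : Type} (hι : #ι ≤ θ) (s : ι → Set α)
    (h : ∀ i, #(s i) ≤ θ) : #(⋃ i, s i) ≤ θ := by
  refine mk_iUnion_le_sum_mk.trans ?_
  refine (sum_le_sum _ (fun _ => θ) h).trans ?_
  rw [sum_const', mul_comm]
  exact (mul_le_mul_right hι θ).trans (mul_eq_self hθ).le

theorem small_mono {s t : Set α} (h : s ⊆ t) (ht : #t ≤ θ) : #s ≤ θ :=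
  (mk_le_mk_of_subset h).trans ht

theorem small_union (hθ : ℵ₀ ≤ θ) {s t : Set α} (hs : #s ≤ θ) (ht : #t ≤ θ) :
    #(s ∪ t : Set α) ≤ θ :=
  (mk_union_le s t).trans (add_le_of_le hθ hs ht)

theorem pigeon (hθ : ℵ₀ ≤ θ) (hβ : #β ≤ θ) (f : α → β) (L : Set α) (hL : ¬ #L ≤ θ) :
    ∃ b, ¬ #{x | x ∈ L ∧ f x = b} ≤ θ := by
  by_contra hcon
  push Not at hcon
  apply hL
  refine small_mono ?_ (small_iUnion hθ hβ (fun b => {x | x ∈ L ∧ f x = b}) hcon)
  intro x hx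
  rw [Set.mem_iUnion]
  exact ⟨f x, hx, rfl⟩

theorem exists_not_mem {s t : Set α} (hs : ¬ #s ≤ θ) (ht : #t ≤ θ) :
    ∃ x ∈ s, x ∉ t := by
  by_contra hcon
  push Not at hcon
  exact hs (small_mono hcon ht)

theorem diff_not_small (hθ : ℵ₀ ≤ θ) {s t : Set α} (hs : ¬ #s ≤ θ) (ht : #t ≤ θ) :
    ¬ #(s \ t : Set α) ≤ θ := by
  intro h
  apply hs
  refine small_mono ?_ (small_union hθ h ht)
  intro x hx
  by_cases hxt : x ∈ t
  · exact Or.inr hxt
  · exact Or.inl ⟨hx, hxt⟩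

theorem exists_orders (hθ : ℵ₀ ≤ θ) :
    ∃ (I A : Type) (_ : LinearOrder I) (_ : LinearOrder A) (_ : WellFoundedLT A)
      (emb : I → A → Bool), Function.Injective emb ∧ ¬ #(Set.univ : Set I) ≤ θ ∧
      (∀ x : I, #(Set.Iic x) ≤ θ) ∧ #A ≤ θ ∧ (∀ a : A, #(Set.Iic a → Bool) ≤ θ) ∧ Nonempty A := by
  let μ := sInf {ν : Cardinal.{0} | θ < 2 ^ ν}
  have hne : {ν : Cardinal.{0} | θ < 2 ^ ν}.Nonempty := ⟨θ, cantor θ⟩
  have hμ : θ < 2 ^ μ := csInf_mem hne
  have hμθ : μ ≤ θ := csInf_le' (cantor θ)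
  have hmin : ∀ ν, ν < μ → 2 ^ ν ≤ θ := by
    intro ν hν
    by_contra hcon
    push Not at hcon
    exact absurd (csInf_le' hcon : μ ≤ ν) (not_le.2 hν)
  have hμinf : ℵ₀ ≤ μ := by
    by_contra hcon
    push Not at hcon
    have : (2 : Cardinal.{0}) ^ μ < ℵ₀ := power_lt_aleph0 (natCast_lt_aleph0 (n := 2)) hcon
    exact absurd (hμ.trans this) (not_lt.2 hθ)
  let I := (Order.succ θ).ord.ToType
  let A := μ.ord.ToType
  have hI : #I = Order.succ θ := mk_ord_toType _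
  have hA : #A = μ := mk_ord_toType _
  have hemb : #I ≤ #(A → Bool) := by
    rw [hI, ← power_def, hA, mk_bool]
    exact Order.succ_le_of_lt hμ
  obtain ⟨emb⟩ := (Cardinal.le_def I (A → Bool)).1 hemb
  refine ⟨I, A, inferInstance, inferInstance, inferInstance, emb, emb.injective, ?_, ?_, ?_, ?_, ?_⟩
  · rw [mk_univ, hI, not_le]
    exact Order.lt_succ θ
  · intro x
    have : #(Set.Iic x) < #I := mk_Iic_lt x (by simp [I]) (by
      rw [hI]; exact hθ.trans (Order.le_succ θ))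
    rw [hI] at this
    exact Order.lt_succ_iff.1 this
  · rw [hA]; exact hμθ
  · intro a
    have : #(Set.Iic a) < #A := mk_Iic_lt a (by simp [A]) (by rw [hA]; exact hμinf)
    rw [hA] at this
    rw [← power_def, mk_bool]
    exact hmin _ this
  · rw [← mk_ne_zero_iff, hA]
    exact (aleph0_pos.trans_le hμinf).ne'

end Pool.Agent.Helper835.Small
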