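import Mathlib
import Pool.Agent.Helper835.Small

set_option autoImplicit false

namespace Pool.Agent.Helper835.Comb

open Cardinal Finset
open Pool.Agent.Helper835.Small

section Lex

variable {A : Type} [LinearOrder A] [WellFoundedLT A]

/-- the lexicographic order on functions to `Bool` -/
def lex (u v : A → Bool) : Prop := ∃ d, (∀ c, c < d → u c = v c) ∧ u d = false ∧ v d = true

theorem lex_total {u v : A → Bool} (h : u ≠ v) : lex u v ∨ lex v u := by
  have hne : {d | u d ≠ v d}.Nonempty := by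
    by_contra hcon
    rw [Set.not_nonempty_iff_eq_empty] at hcon
    apply h
    funext d
    by_contra hd
    have : d ∈ {d | u d ≠ v d} := hd
    rw [hcon] at this
    exact this
  let d := WellFounded.min (wellFounded_lt (α := A)) {d | u d ≠ v d} hne
  have hd : u d ≠ v d := WellFounded.min_mem (wellFounded_lt (α := A)) {d | u d ≠ v d} hne
  have hlt : ∀ c, c < d → u c = v c := by
    intro c hc
    by_contra hcon
    exact WellFounded.not_lt_min (wellFounded_lt (α := A)) {d | u d ≠ v d} hcon hc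
  cases hu : u d
  · left
    refine ⟨d, hlt, hu, ?_⟩
    cases hv : v d
    · exact absurd (hu.trans hv.symm) hd
    · rfl
  · right
    refine ⟨d, fun c hc => (hlt c hc).symm, ?_, hu⟩
    cases hv : v d
    · rfl
    · exact absurd (hu.trans hv.symm) hd

omit [WellFoundedLT A] in
theorem lex_asymm {u v : A → Bool} (h : lex u v) (h' : lex v u) : False := by
  obtain ⟨d, h1, h2, h3⟩ := h
  obtain ⟨d', h1', h2', h3'⟩ := h'
  rcases lt_trichotomy d d' with h | h | h
  · have := h1' d h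
    rw [h2, h3] at this
    exact absurd this (by simp)
  · subst h
    rw [h2] at h3'
    exact absurd h3' (by simp)
  · have := h1 d' h
    rw [h2', h3'] at this
    exact absurd this (by simp)

omit [WellFoundedLT A] in
theorem lex_congr {δ : A} {u v u' v' : A → Bool} (hu : ∀ c ≤ δ, u c = u' c)
    (hv : ∀ c ≤ δ, v c = v' c) (hne : ∃ c ≤ δ, u c ≠ v c) (h : lex u v) : lex u' v' := by
  obtain ⟨d, h1, h2, h3⟩ := h
  have hd : d ≤ δ := by
    by_contra hcon
    push Not at hcon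
    obtain ⟨c, hc, hc'⟩ := hne
    exact hc' (h1 c (lt_of_le_of_lt hc hcon))
  refine ⟨d, ?_, ?_, ?_⟩
  · intro c hc
    rw [← hu c (hc.le.trans hd), ← hv c (hc.le.trans hd)]
    exact h1 c hc
  · rw [← hu d hd]; exact h2
  · rw [← hv d hd]; exact h3

end Lex

section Main

variable {I A J : Type} [LinearOrder I] [LinearOrder A]

/-- restriction of the code of `x` to the initial segment up to `δ` -/
def r (emb : I → A → Bool) (δ : A) (x : I) : (Σ a : A, (Set.Iic a → Bool)) :=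
  ⟨δ, fun c => emb x c⟩

omit [LinearOrder I] in
theorem r_eq_iff (emb : I → A → Bool) (δ : A) (x y : I) :
    r emb δ x = r emb δ y ↔ ∀ c ≤ δ, emb x c = emb y c := by
  unfold r
  constructor
  · intro h c hc
    have h2 := eq_of_heq (Sigma.mk.inj_iff.1 h).2
    exact congrFun h2 ⟨c, hc⟩
  · intro h
    congr 1
    funext c
    exact h c.1 c.2

open Classical in
/-- the coloring: two elements have colour `1` iff both orders agree on them -/
noncomputable def χ (emb : I → A → Bool) (a b : I) : ZMod 2 :=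
  if a < b ∧ lex (emb a) (emb b) then 1 else 0

theorem χ_congr (emb : I → A → Bool) {a b a' b' : I} (h1 : a < b ↔ a' < b')
    (h2 : lex (emb a) (emb b) ↔ lex (emb a') (emb b')) : χ emb a b = χ emb a' b' := by
  have h := and_congr h1 h2
  unfold χ
  by_cases hc : a < b ∧ lex (emb a) (emb b)
  · rw [if_pos hc, if_pos (h.1 hc)]
  · rw [if_neg hc, if_neg (fun h' => hc (h.2 h'))]

/-- restrictions which separate a finite set -/
theorem exists_sep [Nonempty A] (emb : I → A → Bool) (hemb : Function.Injective emb)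
    (S : Finset I) : ∃ δ : A, ∀ a ∈ S, ∀ b ∈ S, r emb δ a = r emb δ b → a = b := by
  classical
  have h1 : ∀ p : I × I, ∃ d : A, p.1 ≠ p.2 → emb p.1 d ≠ emb p.2 d := by
    intro p
    by_cases hp : p.1 = p.2
    · exact ⟨Classical.arbitrary A, fun h => absurd hp h⟩
    · have : emb p.1 ≠ emb p.2 := fun h => hp (hemb h)
      obtain ⟨d, hd⟩ := Function.ne_iff.1 this
      exact ⟨d, fun _ => hd⟩
  choose d hd using h1
  obtain ⟨δ, hδ⟩ := Finset.exists_le ((S ×ˢ S).image d)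
  refine ⟨δ, fun a ha b hb hab => ?_⟩
  by_contra hne
  have h2 := hd (a, b) hne
  have h3 : d (a, b) ≤ δ := hδ _ (Finset.mem_image_of_mem _ (Finset.mk_mem_product ha hb))
  exact h2 ((r_eq_iff emb δ a b).1 hab _ h3)

variable {θ : Cardinal.{0}}

theorem mk_data_le (hθ : ℵ₀ ≤ θ) (hA : #A ≤ θ) (hA2 : ∀ a : A, #(Set.Iic a → Bool) ≤ θ)
    (hJ : #J ≤ θ) :
    #(A × (Σ a : A, (Set.Iic a → Bool)) × Finset (J × (Σ a : A, (Set.Iic a → Bool)))) ≤ θ := by
  have hQ : #(Σ a : A, (Set.Iic a → Bool)) ≤ θ := by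
    rw [mk_sigma]
    refine (sum_le_sum _ (fun _ => θ) hA2).trans ?_
    rw [sum_const', mul_comm]
    exact (mul_le_mul_right hA θ).trans (mul_eq_self hθ).le
  have hmul : ∀ {a b : Cardinal.{0}}, a ≤ θ → b ≤ θ → a * b ≤ θ := by
    intro a b ha hb
    exact (mul_le_mul' ha hb).trans (mul_eq_self hθ).le
  have hJQ : #(J × (Σ a : A, (Set.Iic a → Bool))) ≤ θ := by
    rw [mk_prod, lift_id, lift_id]
    exact hmul hJ hQ
  have hF : #(Finset (J × (Σ a : A, (Set.Iic a → Bool)))) ≤ θ := by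
    classical
    have h1 : #(Finset (J × (Σ a : A, (Set.Iic a → Bool)))) ≤
        #(List (J × (Σ a : A, (Set.Iic a → Bool)))) := by
      apply mk_le_of_surjective (f := List.toFinset)
      exact List.toFinset_surjective
    refine h1.trans ((mk_list_le_max _).trans (max_le hθ hJQ))
  rw [mk_prod, lift_id, lift_id]
  refine hmul hA ?_
  rw [mk_prod, lift_id, lift_id]
  exact hmul hQ hF

omit [LinearOrder I] in
/-- thinning out -/
theorem thin {Q : Type} (pt : I → Q → I) (L : Set I) (hL : ¬ #L ≤ θ) (W : Finset Q) :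
    ∃ L' : Set I, L' ⊆ L ∧ ¬ #L' ≤ θ ∧
      ∀ q ∈ W, (∃ a, ∀ x ∈ L', pt x q = a) ∨ (∀ a, #{x | x ∈ L' ∧ pt x q = a} ≤ θ) := by
  classical
  induction W using Finset.induction_on with
  | empty => exact ⟨L, subset_rfl, hL, fun q hq => absurd hq (Finset.notMem_empty q)⟩
  | insert q W _ ih =>
    obtain ⟨L', h1, h2, h3⟩ := ih
    by_cases h : ∀ a, #{x | x ∈ L' ∧ pt x q = a} ≤ θ
    · refine ⟨L', h1, h2, fun q' hq' => ?_⟩
      rcases Finset.mem_insert.1 hq' with rfl | hq'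
      · exact Or.inr h
      · exact h3 q' hq'
    · push Not at h
      obtain ⟨a, ha⟩ := h
      refine ⟨{x | x ∈ L' ∧ pt x q = a}, fun x hx => h1 hx.1, not_le.2 ha, fun q' hq' => ?_⟩
      rcases Finset.mem_insert.1 hq' with rfl | hq'
      · exact Or.inl ⟨a, fun x hx => hx.2⟩
      · rcases h3 q' hq' with ⟨b, hb⟩ | hb
        · exact Or.inl ⟨b, fun x hx => hb x hx.1⟩
        · refine Or.inr fun b => ?_
          have hsub : {x | x ∈ {x | x ∈ L' ∧ pt x q = a} ∧ pt x q' = b} ⊆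
              {x | x ∈ L' ∧ pt x q' = b} := fun x hx => ⟨hx.1.1, hx.2⟩
          exact small_mono hsub (hb b)

/-- The combinatorial heart: no family of finite sets `E x` of pairs with the two summation
properties exists. -/
theorem comb_main [Nonempty A] (hθ : ℵ₀ ≤ θ) (emb : I → A → Bool)
    (hemb : Function.Injective emb) [WellFoundedLT A]
    (hI : ¬ #(Set.univ : Set I) ≤ θ) (hIic : ∀ x : I, #(Set.Iic x) ≤ θ)
    (hA : #A ≤ θ) (hA2 : ∀ a : A, #(Set.Iic a → Bool) ≤ θ) (hJ : #J ≤ θ)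
    [DecidableEq J] (E : I → Finset (J × I))
    (E1 : ∀ (x : I) (h : I → ZMod 2), ∑ p ∈ E x, h p.2 = h x)
    (E2 : ∀ x y : I, ∑ p ∈ E x, ∑ p' ∈ E y,
      (if p.1 = p'.1 then χ emb p.2 p'.2 + χ emb p'.2 p.2 else 0) = 0) : False := by
  classical
  let Q := Σ a : A, (Set.Iic a → Bool)
  let S : I → Finset I := fun x => insert x ((E x).image Prod.snd)
  have hsep := fun x => exists_sep emb hemb (S x)
  choose δ hδ using hsep
  let data : I → A × Q × Finset (J × Q) :=
    fun x => (δ x, r emb (δ x) x, (E x).image fun p => (p.1, r emb (δ x) p.2))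
  obtain ⟨⟨d, q₀, w⟩, hL⟩ := pigeon hθ (mk_data_le hθ hA hA2 hJ) data Set.univ hI
  set L : Set I := {x | x ∈ Set.univ ∧ data x = (d, q₀, w)} with hLdef
  have hL1 : ∀ x ∈ L, δ x = d := fun x hx => congrArg Prod.fst hx.2
  have hL2 : ∀ x ∈ L, r emb d x = q₀ := by
    intro x hx
    have := congrArg (fun t => t.2.1) hx.2
    simp only [data] at this
    rw [hL1 x hx] at this
    exact this
  have hL3 : ∀ x ∈ L, (E x).image (fun p => (p.1, r emb d p.2)) = w := by
    intro x hx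
    have := congrArg (fun t => t.2.2) hx.2
    simp only [data] at this
    rw [hL1 x hx] at this
    exact this
  have hL4 : ∀ x ∈ L, ∀ a ∈ S x, ∀ b ∈ S x, r emb d a = r emb d b → a = b := by
    intro x hx
    have := hδ x
    rw [hL1 x hx] at this
    exact this
  let W : Finset Q := insert q₀ (w.image Prod.snd)
  let pt : I → Q → I := fun x q => if h : ∃ a ∈ S x, r emb d a = q then h.choose else x
  have hex : ∀ x ∈ L, ∀ q ∈ W, ∃ a ∈ S x, r emb d a = q := by
    intro x hx q hq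
    rcases Finset.mem_insert.1 hq with rfl | hq
    · exact ⟨x, Finset.mem_insert_self _ _, hL2 x hx⟩
    · rw [← hL3 x hx, Finset.image_image] at hq
      obtain ⟨p, hp, rfl⟩ := Finset.mem_image.1 hq
      exact ⟨p.2, Finset.mem_insert_of_mem (Finset.mem_image_of_mem _ hp), rfl⟩
  have hptr : ∀ x ∈ L, ∀ q ∈ W, r emb d (pt x q) = q := by
    intro x hx q hq
    have h := hex x hx q hq
    have : pt x q = h.choose := dif_pos h
    rw [this]
    exact h.choose_spec.2
  have hpt : ∀ x ∈ L, ∀ a ∈ S x, pt x (r emb d a) = a := by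
    intro x hx a ha
    have h : ∃ b ∈ S x, r emb d b = r emb d a := ⟨a, ha, rfl⟩
    have h' : pt x (r emb d a) = h.choose := dif_pos h
    rw [h']
    exact hL4 x hx _ h.choose_spec.1 a ha h.choose_spec.2
  have hpt0 : ∀ x ∈ L, pt x q₀ = x := by
    intro x hx
    have := hpt x hx x (Finset.mem_insert_self _ _)
    rwa [hL2 x hx] at this
  have hEinj : ∀ x ∈ L, Set.InjOn (fun p : J × I => (p.1, r emb d p.2)) (E x : Set (J × I)) := by
    intro x hx p hp p' hp' hpp
    simp only [Prod.mk.injEq] at hpp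
    refine Prod.ext hpp.1 ?_
    exact hL4 x hx _ (Finset.mem_insert_of_mem (Finset.mem_image_of_mem _ hp)) _
      (Finset.mem_insert_of_mem (Finset.mem_image_of_mem _ hp')) hpp.2
  have htrans : ∀ x ∈ L, ∀ g : J × I → ZMod 2,
      ∑ p ∈ E x, g p = ∑ p ∈ w, g (p.1, pt x p.2) := by
    intro x hx g
    rw [← hL3 x hx, Finset.sum_image (hEinj x hx)]
    apply Finset.sum_congr rfl
    intro p hp
    rw [hpt x hx p.2 (Finset.mem_insert_of_mem (Finset.mem_image_of_mem _ hp))]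
  have E1' : ∀ g : Q → ZMod 2, L.Nonempty → ∑ p ∈ w, g p.2 = g q₀ := by
    rintro g ⟨x, hx⟩
    have h1 := E1 x (fun a => g (r emb d a))
    rw [hL2 x hx] at h1
    refine Eq.trans ?_ h1
    rw [← hL3 x hx, Finset.sum_image (hEinj x hx)]
  have E2' : ∀ x ∈ L, ∀ y ∈ L, ∑ p ∈ w, ∑ p' ∈ w,
      (if p.1 = p'.1 then χ emb (pt x p.2) (pt y p'.2) + χ emb (pt y p'.2) (pt x p.2) else 0)
        = 0 := by
    intro x hx y hy
    refine Eq.trans ?_ (E2 x y)
    rw [htrans x hx]
    apply Finset.sum_congr rfl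
    intro p _
    rw [htrans y hy]
  obtain ⟨L', hL'L, hL', hW⟩ := thin pt L hL W
  let K1 : Q → Prop := fun q => ∀ a, #{x | x ∈ L' ∧ pt x q = a} ≤ θ
  have hK0 : ∀ q ∈ W, ¬ K1 q → ∃ a, ∀ x ∈ L', pt x q = a := by
    intro q hq hk
    rcases hW q hq with h | h
    · exact h
    · exact absurd h hk
  have hq₀W : q₀ ∈ W := Finset.mem_insert_self _ _
  have hq₀ : K1 q₀ := by
    intro a
    have hsub : {x | x ∈ L' ∧ pt x q₀ = a} ⊆ {a} := by
      rintro x ⟨hx, hx'⟩
      rw [hpt0 x (hL'L hx)] at hx'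
      exact hx'
    refine small_mono hsub ?_
    rw [mk_singleton]
    exact one_le_aleph0.trans hθ
  let bad : I → Set I := fun x => {y | y ∈ L' ∧ ∃ q ∈ W, ∃ q' ∈ W, K1 q' ∧ pt y q' ≤ pt x q}
  have hfinle : ∀ (T : Finset Q), Cardinal.mk T ≤ θ := by
    intro T
    exact (lt_aleph0_of_finite T).le.trans hθ
  have hbad : ∀ x, #(bad x) ≤ θ := by
    intro x
    have hsub : bad x ⊆ ⋃ q : W, ⋃ q' : W, ⋃ a : Set.Iic (pt x q),
        {y | y ∈ L' ∧ K1 q' ∧ pt y q' = a} := by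
      rintro y ⟨hy, q, hq, q', hq', hk, hle⟩
      simp only [Set.mem_iUnion]
      exact ⟨⟨q, hq⟩, ⟨q', hq'⟩, ⟨pt y q', hle⟩, hy, hk, rfl⟩
    refine small_mono hsub (small_iUnion hθ (hfinle W) _ fun q => small_iUnion hθ (hfinle W) _
      fun q' => small_iUnion hθ (hIic _) _ fun a => ?_)
    by_cases hk : K1 q'
    · refine small_mono ?_ (hk a)
      rintro y ⟨hy, _, hya⟩
      exact ⟨hy, hya⟩
    · have : {y | y ∈ L' ∧ K1 q' ∧ pt y q' = a} = ∅ := by
        ext y
        simp [hk]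
      rw [this]
      simp
  obtain ⟨x₀, hx₀, -⟩ := exists_not_mem (t := (∅ : Set I)) hL' (by simp)
  let L'' : Set I := L' \ bad x₀
  have hL'' : ¬ #L'' ≤ θ := diff_not_small hθ hL' (hbad x₀)
  let Good : I → I → Prop := fun x y => x ∈ L'' ∧ y ∈ L'' ∧ y ∉ bad x
  have hgood : ∀ x y, Good x y → ∀ q ∈ W, ∀ q' ∈ W, K1 q' → pt x q < pt y q' := by
    intro x y ⟨_, hy, hb⟩ q hq q' hq' hk
    by_contra hcon
    push Not at hcon
    exact hb ⟨hy.1, q, hq, q', hq', hk, hcon⟩
  have hroot : ∀ x ∈ L'', ∀ q ∈ W, ∀ q' ∈ W, K1 q → pt x₀ q' < pt x q := by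
    intro x hx q hq q' hq' hk
    by_contra hcon
    push Not at hcon
    exact hx.2 ⟨hx.1, q', hq', q, hq, hk, hcon⟩
  have hLL : ∀ x ∈ L'', x ∈ L := fun x hx => hL'L hx.1
  -- constancy of the colours off the diagonal
  have hχ : ∀ x y x₁ y₁, Good x y → Good x₁ y₁ → ∀ q ∈ W, ∀ q' ∈ W, q ≠ q' →
      χ emb (pt x q) (pt y q') + χ emb (pt y q') (pt x q) =
      χ emb (pt x₁ q) (pt y₁ q') + χ emb (pt y₁ q') (pt x₁ q) := by
    intro x y x₁ y₁ hg hg₁ q hq q' hq' hne
    have ex := hptr x (hLL x hg.1) q hq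
    have ex₁ := hptr x₁ (hLL x₁ hg₁.1) q hq
    have ey := hptr y (hLL y hg.2.1) q' hq'
    have ey₁ := hptr y₁ (hLL y₁ hg₁.2.1) q' hq'
    have hx := (r_eq_iff emb d _ _).1 (ex.trans ex₁.symm)
    have hy := (r_eq_iff emb d _ _).1 (ey.trans ey₁.symm)
    have hdiff : ∃ c ≤ d, emb (pt x q) c ≠ emb (pt y q') c := by
      by_contra hcon
      push Not at hcon
      apply hne
      rw [← ex, ← ey]
      exact (r_eq_iff emb d _ _).2 hcon
    have hdiff₁ : ∃ c ≤ d, emb (pt x₁ q) c ≠ emb (pt y₁ q') c := by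
      obtain ⟨c, hc, h⟩ := hdiff
      refine ⟨c, hc, ?_⟩
      rw [← hx c hc, ← hy c hc]
      exact h
    have l1 : lex (emb (pt x q)) (emb (pt y q')) ↔ lex (emb (pt x₁ q)) (emb (pt y₁ q')) :=
      ⟨lex_congr hx hy hdiff, lex_congr (fun c hc => (hx c hc).symm)
        (fun c hc => (hy c hc).symm) hdiff₁⟩
    have l2 : lex (emb (pt y q')) (emb (pt x q)) ↔ lex (emb (pt y₁ q')) (emb (pt x₁ q)) :=
      ⟨lex_congr hy hx (by obtain ⟨c, hc, h⟩ := hdiff; exact ⟨c, hc, h.symm⟩),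
        lex_congr (fun c hc => (hy c hc).symm) (fun c hc => (hx c hc).symm)
          (by obtain ⟨c, hc, h⟩ := hdiff₁; exact ⟨c, hc, h.symm⟩)⟩
    by_cases hk' : K1 q'
    · have o1 := hgood x y hg q hq q' hq' hk'
      have o2 := hgood x₁ y₁ hg₁ q hq q' hq' hk'
      rw [χ_congr emb (iff_of_true o1 o2) l1, χ_congr emb (iff_of_false o1.asymm o2.asymm) l2]
    · obtain ⟨b, hb⟩ := hK0 q' hq' hk'
      by_cases hk : K1 q
      · have o1 := hroot x hg.1 q hq q' hq' hk
        have o2 := hroot x₁ hg₁.1 q hq q' hq' hk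
        rw [hb x₀ hx₀, ← hb y hg.2.1.1] at o1
        rw [hb x₀ hx₀, ← hb y₁ hg₁.2.1.1] at o2
        rw [χ_congr emb (iff_of_true o1 o2) l2, χ_congr emb (iff_of_false o1.asymm o2.asymm) l1]
      · obtain ⟨a, ha⟩ := hK0 q hq hk
        rw [ha x hg.1.1, ha x₁ hg₁.1.1, hb y hg.2.1.1, hb y₁ hg₁.2.1.1]
  have hwW : ∀ p ∈ w, p.2 ∈ W := fun p hp =>
    Finset.mem_insert_of_mem (Finset.mem_image_of_mem _ hp)
  have hconst : ∀ x y x₁ y₁, Good x y → Good x₁ y₁ →
      χ emb x y + χ emb y x = χ emb x₁ y₁ + χ emb y₁ x₁ := by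
    intro x y x₁ y₁ hg hg₁
    let D : Q → ZMod 2 := fun q => (χ emb (pt x q) (pt y q) + χ emb (pt y q) (pt x q)) -
      (χ emb (pt x₁ q) (pt y₁ q) + χ emb (pt y₁ q) (pt x₁ q))
    have h1 := E2' x (hLL x hg.1) y (hLL y hg.2.1)
    have h2 := E2' x₁ (hLL x₁ hg₁.1) y₁ (hLL y₁ hg₁.2.1)
    have h3 : ∑ p ∈ w, D p.2 = 0 := by
      rw [← sub_eq_zero.2 (h1.trans h2.symm), ← Finset.sum_sub_distrib]
      apply Finset.sum_congr rfl
      intro p hp
      rw [← Finset.sum_sub_distrib, Finset.sum_eq_single p]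
      · rw [if_pos rfl, if_pos rfl]
      · intro p' hp' hne
        by_cases hj : p.1 = p'.1
        · rw [if_pos hj, if_pos hj, sub_eq_zero]
          apply hχ x y x₁ y₁ hg hg₁ _ (hwW p hp) _ (hwW p' hp')
          intro h
          exact hne (Prod.ext hj.symm h.symm)
        · rw [if_neg hj, if_neg hj, sub_zero]
      · intro h
        exact absurd hp h
    have h4 := E1' D ⟨x, hLL x hg.1⟩
    rw [h3] at h4
    have h5 : D q₀ = (χ emb x y + χ emb y x) - (χ emb x₁ y₁ + χ emb y₁ x₁) := by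
      simp only [D]
      rw [hpt0 x (hLL x hg.1), hpt0 y (hLL y hg.2.1), hpt0 x₁ (hLL x₁ hg₁.1),
        hpt0 y₁ (hLL y₁ hg₁.2.1)]
    rw [h5] at h4
    exact sub_eq_zero.1 h4.symm
  have hlex : ∀ x y x₁ y₁, Good x y → Good x₁ y₁ → lex (emb x) (emb y) →
      lex (emb x₁) (emb y₁) := by
    intro x y x₁ y₁ hg hg₁ hl
    have o1 : x < y := by
      have := hgood x y hg q₀ hq₀W q₀ hq₀W hq₀
      rwa [hpt0 x (hLL x hg.1), hpt0 y (hLL y hg.2.1)] at this
    have o2 : x₁ < y₁ := by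
      have := hgood x₁ y₁ hg₁ q₀ hq₀W q₀ hq₀W hq₀
      rwa [hpt0 x₁ (hLL x₁ hg₁.1), hpt0 y₁ (hLL y₁ hg₁.2.1)] at this
    have h := hconst x y x₁ y₁ hg hg₁
    have e1 : χ emb x y = 1 := if_pos ⟨o1, hl⟩
    have e2 : χ emb y x = 0 := if_neg (fun h => o1.asymm h.1)
    have e3 : χ emb y₁ x₁ = 0 := if_neg (fun h => o2.asymm h.1)
    rw [e1, e2, e3, add_zero, add_zero] at h
    by_contra hcon
    have e4 : χ emb x₁ y₁ = 0 := if_neg (fun h => hcon h.2)
    rw [e4] at h
    exact one_ne_zero h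
  -- remove small cones
  let cone : Q → Set I := fun s => {x | x ∈ L'' ∧ r emb s.1 x = s}
  have hQ : #Q ≤ θ := by
    rw [mk_sigma]
    refine (sum_le_sum _ (fun _ => θ) hA2).trans ?_
    rw [sum_const', mul_comm]
    exact (mul_le_mul_right hA θ).trans (mul_eq_self hθ).le
  let R : Set I := ⋃ s : Q, {x | x ∈ cone s ∧ #(cone s) ≤ θ}
  have hR : #R ≤ θ := by
    refine small_iUnion hθ hQ _ fun s => ?_
    by_cases hs : #(cone s) ≤ θ
    · exact small_mono (fun x hx => hx.1) hs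
    · have : {x | x ∈ cone s ∧ #(cone s) ≤ θ} = ∅ := by
        ext x
        simp [hs]
      rw [this]
      simp
  have hRn : ¬ #(L'' \ R : Set I) ≤ θ := diff_not_small hθ hL'' hR
  obtain ⟨x, hx, -⟩ := exists_not_mem (t := (∅ : Set I)) hRn (by simp)
  obtain ⟨y, hy, hyx⟩ := exists_not_mem (t := ({x} : Set I)) hRn (by
    rw [mk_singleton]; exact one_le_aleph0.trans hθ)
  have hnotin : ∀ x ∈ L'' \ R, ∀ c : A, ¬ #(cone (r emb c x)) ≤ θ := by
    intro x hx c hc
    apply hx.2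
    rw [Set.mem_iUnion]
    exact ⟨r emb c x, ⟨hx.1, rfl⟩, hc⟩
  have hfinal : ∀ x ∈ L'' \ R, ∀ y ∈ L'' \ R, lex (emb x) (emb y) → False := by
    intro x hx y hy hl
    obtain ⟨c, h1, h2, h3⟩ := hl
    have hall : ∀ x' ∈ cone (r emb c x), ∀ y' ∈ cone (r emb c y), lex (emb x') (emb y') := by
      intro x' hx' y' hy'
      have ex : ∀ e ≤ c, emb x' e = emb x e := (r_eq_iff emb c x' x).1 hx'.2
      have ey : ∀ e ≤ c, emb y' e = emb y e := (r_eq_iff emb c y' y).1 hy'.2
      refine ⟨c, ?_, ?_, ?_⟩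
      · intro e he
        rw [ex e he.le, ey e he.le]
        exact h1 e he
      · rw [ex c le_rfl]; exact h2
      · rw [ey c le_rfl]; exact h3
    have hcx := hnotin x hx c
    have hcy := hnotin y hy c
    obtain ⟨x', hx', -⟩ := exists_not_mem (t := (∅ : Set I)) hcx (by simp)
    obtain ⟨y', hy', hy'b⟩ := exists_not_mem hcy (hbad x')
    obtain ⟨y'', hy'', -⟩ := exists_not_mem (t := (∅ : Set I)) hcy (by simp)
    obtain ⟨x'', hx'', hx''b⟩ := exists_not_mem hcx (hbad y'')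
    have g1 : Good x' y' := ⟨hx'.1, hy'.1, hy'b⟩
    have g2 : Good y'' x'' := ⟨hy''.1, hx''.1, hx''b⟩
    exact lex_asymm (hlex x' y' y'' x'' g1 g2 (hall x' hx' y' hy')) (hall x'' hx'' y'' hy'')
  rcases lex_total (fun h => hyx (hemb h) : emb y ≠ emb x) with h | h
  · exact hfinal y hy x hx h
  · exact hfinal x hx y hy h

end Main

end Pool.Agent.Helper835.Comb
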