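import Mathlib
import Pool.Agent.Helper835.Cls
import Pool.Agent.Helper835.BL

set_option autoImplicit false

namespace Pool.Agent.Helper835.Cfg

open Pool.Agent.Helper835.Cls Pool.Agent.Helper835.BL ArithmeticFunction
open scoped ArithmeticFunction.Omega

variable {G : Type} [Group G]

theorem mem_sup_comm {H K : Subgroup G} (hc : ∀ h ∈ H, ∀ k ∈ K, h * k = k * h) {x : G}
    (hx : x ∈ H ⊔ K) : ∃ h ∈ H, ∃ k ∈ K, x = h * k := by
  let P : Subgroup G :=
    { carrier := {x | ∃ h ∈ H, ∃ k ∈ K, x = h * k}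
      mul_mem' := by
        rintro _ _ ⟨h, hh, k, hk, rfl⟩ ⟨h', hh', k', hk', rfl⟩
        refine ⟨h * h', H.mul_mem hh hh', k * k', K.mul_mem hk hk', ?_⟩
        rw [mul_assoc, ← mul_assoc k, ← hc h' hh' k hk]
        simp only [mul_assoc]
      one_mem' := ⟨1, H.one_mem, 1, K.one_mem, (one_mul 1).symm⟩
      inv_mem' := by
        rintro _ ⟨h, hh, k, hk, rfl⟩
        refine ⟨h⁻¹, H.inv_mem hh, k⁻¹, K.inv_mem hk, ?_⟩
        rw [mul_inv_rev, hc _ (H.inv_mem hh) _ (K.inv_mem hk)] }
  have hle : H ⊔ K ≤ P := sup_le (fun h hh => ⟨h, hh, 1, K.one_mem, (mul_one h).symm⟩)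
    (fun k hk => ⟨1, H.one_mem, k, hk, (one_mul k).symm⟩)
  exact hle hx

theorem card_sup_comm {H K : Subgroup G} (hc : ∀ h ∈ H, ∀ k ∈ K, h * k = k * h)
    (hd : H ⊓ K = ⊥) : Nat.card (H ⊔ K : Subgroup G) = Nat.card H * Nat.card K := by
  let f : H × K → (H ⊔ K : Subgroup G) := fun p =>
    ⟨p.1 * p.2, (H ⊔ K).mul_mem ((le_sup_left : H ≤ H ⊔ K) p.1.2)
      ((le_sup_right : K ≤ H ⊔ K) p.2.2)⟩
  have hf : Function.Bijective f := by
    constructor
    · rintro ⟨h, k⟩ ⟨h', k'⟩ heq
      have h1 : (h : G) * k = h' * k' := congrArg Subtype.val heq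
      have h2 : (h' : G)⁻¹ * h = k' * (k : G)⁻¹ := by
        rw [eq_mul_inv_iff_mul_eq, mul_assoc, h1, inv_mul_cancel_left]
      have h3 : (h' : G)⁻¹ * h ∈ H ⊓ K := ⟨H.mul_mem (H.inv_mem h'.2) h.2, by
        rw [h2]; exact K.mul_mem k'.2 (K.inv_mem k.2)⟩
      rw [hd, Subgroup.mem_bot] at h3
      have h4 : (h' : G) = h := inv_mul_eq_one.1 h3
      rw [h3] at h2
      have h5 : (k' : G) = k := mul_inv_eq_one.1 h2.symm
      exact Prod.ext (Subtype.ext h4.symm) (Subtype.ext h5.symm)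
    · rintro ⟨x, hx⟩
      obtain ⟨h, hh, k, hk, rfl⟩ := mem_sup_comm hc hx
      exact ⟨(⟨h, hh⟩, ⟨k, hk⟩), rfl⟩
  rw [← Nat.card_congr (Equiv.ofBijective f hf), Nat.card_prod]

/-- configurations -/
structure Conf (lam i : ℕ) (A B C : Subgroup G) : Prop where
  disj : A ⊓ B = ⊥
  leA : A ≤ C
  leB : B ≤ C
  cA : ∀ c ∈ C, ∀ h ∈ A, c * h = h * c
  cB : ∀ c ∈ C, ∀ h ∈ B, c * h = h * c
  idx : C.index ≤ 2 ^ (lam * i ^ 2)
  szA : 2 ^ (i / 2) ≤ Nat.card A
  szB : 2 ^ ((i + 1) / 2) ≤ Nat.card B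
  om : Ω (Nat.card (A ⊔ B : Subgroup G)) ≤ i

theorem Conf.zero (lam : ℕ) : Conf lam 0 (⊥ : Subgroup G) ⊥ ⊤ := by
  refine ⟨by simp, bot_le, bot_le, ?_, ?_, ?_, ?_, ?_, ?_⟩
  · intro c _ h hh
    rw [Subgroup.mem_bot] at hh
    rw [hh, mul_one, one_mul]
  · intro c _ h hh
    rw [Subgroup.mem_bot] at hh
    rw [hh, mul_one, one_mul]
  · simp
  · simp
  · simp
  · simp

variable [Finite G]

theorem Conf.extend {lam i : ℕ} {A B C : Subgroup G} (h : Conf lam i A B C) {u : G}
    (huC : u ∈ C) (hp : (orderOf u).Prime) (hu : u ∉ A ⊔ B) (hcs : u ∈ cs G (lam * (i + 1))) :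
    Conf lam (i + 1) B (A ⊔ Subgroup.zpowers u) (C ⊓ Subgroup.centralizer {u}) := by
  have hD : (A ⊔ B) ⊓ Subgroup.zpowers u = ⊥ := by
    have h1 := Subgroup.card_dvd_of_le
      (inf_le_right : (A ⊔ B) ⊓ Subgroup.zpowers u ≤ Subgroup.zpowers u)
    rw [Nat.card_zpowers] at h1
    rcases (Nat.dvd_prime hp).1 h1 with h2 | h2
    · exact Subgroup.card_eq_one.1 h2
    · exfalso
      have h3 : (A ⊔ B) ⊓ Subgroup.zpowers u = Subgroup.zpowers u := by
        apply Subgroup.eq_of_le_of_card_ge inf_le_right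
        rw [h2, Nat.card_zpowers]
      apply hu
      have h4 : u ∈ (A ⊔ B) ⊓ Subgroup.zpowers u := by
        rw [h3]; exact Subgroup.mem_zpowers u
      exact h4.1
  have hcomm1 : ∀ a ∈ A, ∀ y ∈ Subgroup.zpowers u, a * y = y * a := by
    intro a ha y hy
    exact (h.cA y ((Subgroup.zpowers_le.2 huC) hy) a ha).symm
  have hle : A ⊔ B ≤ C := sup_le h.leA h.leB
  have hcomm2 : ∀ a ∈ A ⊔ B, ∀ y ∈ Subgroup.zpowers u, a * y = y * a := by
    intro a ha y hy
    have hyC : y ∈ C := (Subgroup.zpowers_le.2 huC) hy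
    have : A ⊔ B ≤ Subgroup.centralizer {y} := by
      apply sup_le
      · intro x hx
        rw [Subgroup.mem_centralizer_singleton_iff]
        exact (h.cA y hyC x hx).symm
      · intro x hx
        rw [Subgroup.mem_centralizer_singleton_iff]
        exact (h.cB y hyC x hx).symm
    exact Subgroup.mem_centralizer_singleton_iff.1 (this ha)
  have hA' : A ⊔ Subgroup.zpowers u ≤ C ⊓ Subgroup.centralizer {u} := by
    apply sup_le
    · intro x hx
      exact ⟨h.leA hx, Subgroup.mem_centralizer_singleton_iff.2 (h.cA u huC x hx).symm⟩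
    · rw [Subgroup.zpowers_le]
      exact ⟨huC, Subgroup.mem_centralizer_singleton_iff.2 rfl⟩
  refine ⟨?_, ?_, hA', ?_, ?_, ?_, h.szB, ?_, ?_⟩
  · rw [eq_bot_iff]
    rintro x ⟨hxB, hx⟩
    obtain ⟨a, ha, y, hy, rfl⟩ := mem_sup_comm hcomm1 hx
    have h1 : y ∈ (A ⊔ B) ⊓ Subgroup.zpowers u := by
      refine ⟨?_, hy⟩
      have h2 : y = a⁻¹ * (a * y) := by group
      rw [h2]
      exact (A ⊔ B).mul_mem ((le_sup_left : A ≤ A ⊔ B) (A.inv_mem ha))
        ((le_sup_right : B ≤ A ⊔ B) hxB)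
    rw [hD, Subgroup.mem_bot] at h1
    rw [h1, mul_one] at hxB ⊢
    rw [← h.disj]
    exact ⟨ha, hxB⟩
  · intro x hx
    exact ⟨h.leB hx, Subgroup.mem_centralizer_singleton_iff.2 (h.cB u huC x hx).symm⟩
  · intro c hc y hy
    exact h.cB c hc.1 y hy
  · intro c hc y hy
    have : A ⊔ Subgroup.zpowers u ≤ Subgroup.centralizer {c} := by
      apply sup_le
      · intro x hx
        rw [Subgroup.mem_centralizer_singleton_iff]
        exact (h.cA c hc.1 x hx).symm
      · rw [Subgroup.zpowers_le, Subgroup.mem_centralizer_singleton_iff]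
        exact (Subgroup.mem_centralizer_singleton_iff.1 hc.2).symm
    exact (Subgroup.mem_centralizer_singleton_iff.1 (this hy)).symm
  · refine Subgroup.index_inf_le.trans ?_
    calc C.index * (Subgroup.centralizer {u}).index
        ≤ 2 ^ (lam * i ^ 2) * 2 ^ (lam * (i + 1)) := Nat.mul_le_mul h.idx hcs
      _ = 2 ^ (lam * i ^ 2 + lam * (i + 1)) := (pow_add _ _ _).symm
      _ ≤ 2 ^ (lam * (i + 1) ^ 2) := by
        apply Nat.pow_le_pow_right (by norm_num)
        nlinarith [Nat.zero_le (lam * i)]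
  · have h1 : (i + 1 + 1) / 2 = i / 2 + 1 := by omega
    rw [h1, pow_succ]
    have h2 : A ≤ A ⊔ Subgroup.zpowers u := le_sup_left
    obtain ⟨c, hc⟩ := Subgroup.card_dvd_of_le h2
    have hne : Nat.card A ≠ Nat.card (A ⊔ Subgroup.zpowers u : Subgroup G) := by
      intro he
      have h3 := Subgroup.eq_of_le_of_card_ge h2 he.ge
      apply hu
      apply (le_sup_left : A ≤ A ⊔ B)
      rw [h3]
      exact (le_sup_right : _ ≤ A ⊔ Subgroup.zpowers u) (Subgroup.mem_zpowers u)
    have hpos : 0 < Nat.card (A ⊔ Subgroup.zpowers u : Subgroup G) := Nat.card_pos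
    have hc2 : 2 ≤ c := by
      rcases c with _ | _ | c
      · rw [hc, mul_zero] at hpos
        exact absurd hpos (lt_irrefl 0)
      · rw [zero_add, mul_one] at hc
        exact absurd hc.symm hne
      · omega
    rw [hc]
    exact Nat.mul_le_mul h.szA hc2
  · have h1 : B ⊔ (A ⊔ Subgroup.zpowers u) = (A ⊔ B) ⊔ Subgroup.zpowers u := by
      rw [← sup_assoc, sup_comm B A]
    rw [h1, card_sup_comm hcomm2 hD, Nat.card_zpowers,
      cardFactors_mul Nat.card_pos.ne' hp.ne_zero, cardFactors_apply_prime hp]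
    exact Nat.add_le_add_right h.om 1

/-- nice sets of elements -/
structure Nice (lam : ℕ) (C : Subgroup G) (X : Finset G) : Prop where
  inC : ∀ x ∈ X, x ∈ C
  small : ∀ x ∈ X, x ∈ cs G lam
  comm : ∀ x ∈ X, ∀ y ∈ X, x * y = y * x
  irr : ∀ x ∈ X, x ∉ Subgroup.closure ((X : Set G) \ {x})
  pp : ∀ x ∈ X, ∃ p k : ℕ, p.Prime ∧ orderOf x = p ^ k

omit [Finite G] in
theorem Nice.subset {lam : ℕ} {C : Subgroup G} {X Y : Finset G} (h : Nice lam C X)
    (hY : Y ⊆ X) : Nice lam C Y := by
  refine ⟨fun x hx => h.inC x (hY hx), fun x hx => h.small x (hY hx),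
    fun x hx y hy => h.comm x (hY hx) y (hY hy), ?_, fun x hx => h.pp x (hY hx)⟩
  intro x hx hmem
  apply h.irr x (hY hx)
  refine Subgroup.closure_mono ?_ hmem
  rintro y ⟨hy, hyx⟩
  exact ⟨hY hy, hyx⟩

theorem Conf.stuck {lam i : ℕ} {A B C : Subgroup G} (h : Conf lam i A B C)
    (hst : ∀ u ∈ C, (orderOf u).Prime → u ∈ cs G (lam * (i + 1)) → u ∈ A ⊔ B) {X : Finset G}
    (hX : Nice lam C X) : X.card ≤ i := by
  by_contra hcon
  push Not at hcon
  obtain ⟨Y, hYX, hYc⟩ := Finset.exists_subset_card_eq (show i + 1 ≤ X.card from hcon)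
  have hY := hX.subset hYX
  have h1 := card_le_of_irr Y hY.comm hY.irr hY.pp (A ⊔ B) (by
    intro a ha hpa
    apply hst a _ hpa
    · refine (index_le_of_le ?_).trans
        ((index_centralizer_finset Y hY.small).trans (by rw [hYc]))
      rw [← Subgroup.centralizer_closure]
      exact Subgroup.centralizer_le (Set.singleton_subset_iff.2 ha)
    · have : Subgroup.closure (Y : Set G) ≤ C := by
        rw [Subgroup.closure_le]
        exact hY.inC
      exact this ha)
  have h2 := h.om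
  omega

omit [Finite G] in
theorem exists_dvd_iff (A : Subgroup G) (g : G) : ∃ d : ℕ, ∀ k : ℕ, g ^ k ∈ A ↔ d ∣ k := by
  let g' : Subgroup.zpowers g := ⟨g, Subgroup.mem_zpowers g⟩
  have hn : (A.subgroupOf (Subgroup.zpowers g)).Normal := inferInstance
  refine ⟨orderOf (QuotientGroup.mk g' : Subgroup.zpowers g ⧸ A.subgroupOf (Subgroup.zpowers g)),
    fun k => ?_⟩
  rw [orderOf_dvd_iff_pow_eq_one, ← QuotientGroup.mk_pow, QuotientGroup.eq_one_iff,
    Subgroup.mem_subgroupOf]
  rfl

theorem exists_primePow_part {A : Subgroup G} {g : G} (hg : g ∉ A) :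
    ∃ m : ℕ, (∃ p k : ℕ, p.Prime ∧ orderOf (g ^ m) = p ^ k) ∧ g ^ m ∉ A := by
  obtain ⟨d, hd⟩ := exists_dvd_iff A g
  have hd1 : d ≠ 1 := by
    rintro rfl
    apply hg
    have := (hd 1).2 (dvd_refl 1)
    rwa [pow_one] at this
  obtain ⟨p, hp, hpd⟩ := Nat.exists_prime_and_dvd hd1
  have hN : orderOf g ≠ 0 := (orderOf_pos g).ne'
  have hdN : d ∣ orderOf g := (hd _).1 (by rw [pow_orderOf_eq_one]; exact A.one_mem)
  obtain ⟨v, M, hM, hNM⟩ := Nat.exists_eq_pow_mul_and_not_dvd hN p hp.ne_one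
  have hM0 : M ≠ 0 := by
    rintro rfl
    exact hM (dvd_zero p)
  refine ⟨M, ⟨p, v, hp, ?_⟩, ?_⟩
  · rw [orderOf_pow_of_dvd hM0 (hNM ▸ Dvd.intro_left _ rfl), hNM,
      Nat.mul_div_cancel _ (Nat.pos_of_ne_zero hM0)]
  · intro h
    exact hM (hpd.trans ((hd M).1 h))

theorem exists_max_nice (lam : ℕ) (C : Subgroup G) :
    ∃ X : Finset G, Nice lam C X ∧
      ∀ g ∈ C, g ∈ cs G lam → g ∈ Subgroup.centralizer (X : Set G) →
        g ∈ Subgroup.closure (X : Set G) := by
  classical
  have : Fintype G := Fintype.ofFinite G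
  let S : Finset (Finset G) := Finset.univ.filter fun X => Nice lam C X
  have hS : S.Nonempty := by
    refine ⟨∅, ?_⟩
    simp only [S, Finset.mem_filter, Finset.mem_univ, true_and]
    refine ⟨?_, ?_, ?_, ?_, ?_⟩ <;> intro x hx <;> exact absurd hx (Finset.notMem_empty x)
  obtain ⟨X, hX, hmax⟩ := Finset.exists_max_image S
    (fun X => Nat.card (Subgroup.closure (X : Set G))) hS
  simp only [S, Finset.mem_filter, Finset.mem_univ, true_and] at hX hmax
  refine ⟨X, hX, ?_⟩
  intro g hgC hgs hgX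
  by_contra hg
  obtain ⟨m, hpp, hgm⟩ := exists_primePow_part hg
  set y := g ^ m with hy
  have hyC : y ∈ C := C.pow_mem hgC m
  have hys : y ∈ cs G lam := pow_mem_cs hgs m
  have hyX : y ∈ Subgroup.centralizer (X : Set G) := Subgroup.pow_mem _ hgX m
  -- a minimal subset generating the same subgroup
  let T : Finset (Finset G) := (insert y X).powerset.filter fun Z =>
    Subgroup.closure (Z : Set G) = Subgroup.closure ((insert y X : Finset G) : Set G)
  have hT : T.Nonempty := by
    refine ⟨insert y X, ?_⟩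
    simp only [T, Finset.mem_filter, Finset.mem_powerset, and_true]
    exact Finset.Subset.refl _
  obtain ⟨Z, hZ, hmin⟩ := Finset.exists_min_image T (fun Z => Z.card) hT
  simp only [T, Finset.mem_filter, Finset.mem_powerset] at hZ hmin
  obtain ⟨hZs, hZc⟩ := hZ
  have hmem : ∀ z ∈ Z, z = y ∨ z ∈ X := fun z hz => Finset.mem_insert.1 (hZs hz)
  have hnice : Nice lam C Z := by
    refine ⟨?_, ?_, ?_, ?_, ?_⟩
    · intro z hz
      rcases hmem z hz with rfl | h
      · exact hyC
      · exact hX.inC z h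
    · intro z hz
      rcases hmem z hz with rfl | h
      · exact hys
      · exact hX.small z h
    · intro z hz z' hz'
      rcases hmem z hz with rfl | h
      · rcases hmem z' hz' with rfl | h'
        · rfl
        · exact (Subgroup.mem_centralizer_iff.1 hyX z' h').symm
      · rcases hmem z' hz' with rfl | h'
        · exact Subgroup.mem_centralizer_iff.1 hyX z h
        · exact hX.comm z h z' h'
    · intro z hz hcl
      have h1 : Subgroup.closure ((Z.erase z : Finset G) : Set G) =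
          Subgroup.closure (Z : Set G) := by
        apply le_antisymm
        · apply Subgroup.closure_mono
          rw [Finset.coe_erase]
          exact Set.sdiff_subset
        · rw [Subgroup.closure_le]
          intro w hw
          by_cases hwz : w = z
          · rw [hwz, Finset.coe_erase]
            exact hcl
          · apply Subgroup.subset_closure
            rw [Finset.coe_erase]
            exact ⟨hw, hwz⟩
      have h2 := hmin (Z.erase z) ⟨(Finset.erase_subset z Z).trans hZs, h1.trans hZc⟩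
      have h3 := Finset.card_erase_lt_of_mem hz
      omega
    · intro z hz
      rcases hmem z hz with rfl | h
      · exact hpp
      · exact hX.pp z h
  have h1 := hmax Z hnice
  rw [hZc] at h1
  have hle : Subgroup.closure (X : Set G) ≤
      Subgroup.closure ((insert y X : Finset G) : Set G) := by
    apply Subgroup.closure_mono
    rw [Finset.coe_insert]
    exact Set.subset_insert _ _
  have h2 := Subgroup.eq_of_le_of_card_ge hle h1
  apply hgm
  rw [h2]
  apply Subgroup.subset_closure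
  rw [Finset.coe_insert]
  exact Set.mem_insert _ _

open Classical in
theorem Conf.step [Fintype G] {k i : ℕ}
    (hmany : Fintype.card G ≤ 2 ^ k * (Finset.univ.filter fun g : G => g ∈ cs G k).card)
    {A B C : Subgroup G} (h : Conf (k + k) i A B C) :
    (∃ A' C' : Subgroup G, A ≤ A' ∧ C' ≤ C ∧ C'.relIndex C ≤ 2 ^ ((k + k) * (i + 1)) ∧
      Conf (k + k) (i + 1) B A' C') ∨
    ∃ X : Finset G, (∀ x ∈ X, x ∈ C) ∧ X.card ≤ i ∧
      (Subgroup.closure (X : Set G)).index ≤ 2 ^ ((k + k) * (i + 1) ^ 2) := by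
  by_cases hst : ∀ u ∈ C, (orderOf u).Prime → u ∈ cs G ((k + k) * (i + 1)) → u ∈ A ⊔ B
  · right
    obtain ⟨X, hX, hmax⟩ := exists_max_nice (k + k) C
    have hcard : X.card ≤ i := h.stuck hst hX
    refine ⟨X, hX.inC, hcard, ?_⟩
    have h1 := subgroup_count k (C ⊓ Subgroup.centralizer (X : Set G))
      (Subgroup.closure (X : Set G)) (fun g hg hgs => hmax g hg.1 hgs hg.2)
    have h2 : (C ⊓ Subgroup.centralizer (X : Set G)).index ≤
        2 ^ ((k + k) * i ^ 2 + (k + k) * i) := by
      refine Subgroup.index_inf_le.trans ?_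
      rw [pow_add]
      refine Nat.mul_le_mul h.idx ((index_centralizer_finset X hX.small).trans ?_)
      exact Nat.pow_le_pow_right (by norm_num) (Nat.mul_le_mul_left _ hcard)
    have hpos : 0 < Nat.card (Subgroup.closure (X : Set G)) := Nat.card_pos
    have h3 : (Subgroup.closure (X : Set G)).index * Nat.card (Subgroup.closure (X : Set G)) ≤
        2 ^ ((k + k) * (i + 1) ^ 2) * Nat.card (Subgroup.closure (X : Set G)) := by
      rw [mul_comm, Subgroup.card_mul_index, Nat.card_eq_fintype_card]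
      calc Fintype.card G ≤ 2 ^ k * (Finset.univ.filter fun g : G => g ∈ cs G k).card := hmany
        _ ≤ 2 ^ k * ((C ⊓ Subgroup.centralizer (X : Set G)).index *
            Nat.card (Subgroup.closure (X : Set G))) := Nat.mul_le_mul_left _ h1
        _ ≤ 2 ^ k * (2 ^ ((k + k) * i ^ 2 + (k + k) * i) *
            Nat.card (Subgroup.closure (X : Set G))) :=
            Nat.mul_le_mul_left _ (Nat.mul_le_mul_right _ h2)
        _ = 2 ^ (k + ((k + k) * i ^ 2 + (k + k) * i)) *
            Nat.card (Subgroup.closure (X : Set G)) := by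
            rw [pow_add 2 k, mul_assoc]
        _ ≤ _ := by
            apply Nat.mul_le_mul_right
            apply Nat.pow_le_pow_right (by norm_num)
            nlinarith [Nat.zero_le (k * i)]
    exact Nat.le_of_mul_le_mul_right h3 hpos
  · left
    push Not at hst
    obtain ⟨u, huC, hp, hcs, hu⟩ := hst
    refine ⟨A ⊔ Subgroup.zpowers u, C ⊓ Subgroup.centralizer {u}, le_sup_left, inf_le_left, ?_,
      h.extend huC hp hu hcs⟩
    rw [inf_comm, Subgroup.inf_relIndex_right]
    refine le_trans ?_ hcs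
    rw [← Subgroup.relIndex_top_right (Subgroup.centralizer {u})]
    apply Subgroup.relIndex_le_of_le_right le_top
    rw [Subgroup.relIndex_top_right]
    exact Subgroup.index_ne_zero_of_finite

end Pool.Agent.Helper835.Cfg
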