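import Mathlib

set_option autoImplicit false

namespace Pool.Agent.Helper835.Counter

/-- the lower bound on the number of vertices -/
theorem lower {G : Type} [Group G] [Fintype G] (P : Subgroup G) [hN : P.Normal] {p : ℕ}
    (hp : p.Prime) (hodd : p ≠ 2) (hP : Nat.card P = p) (u : G) (hu4 : u ^ 4 = 1)
    (hu2 : u ^ 2 ≠ 1) (hcent : ∀ g ∈ P, Commute (u ^ 2) g)
    (h1 : ∀ g : G, (∀ a ∈ P, Commute g a) → g ^ 2 ∈ P)
    (h2 : ∀ S : Subgroup G, S ⊓ P = ⊥ → 2 < Nat.card S → ∃ g ∈ S, g⁻¹ * u ∈ P)
    {k : ℕ} (Γ : SimpleGraph (Fin k)) (e : (Γ ≃g Γ) ≃* G) : Fintype.card G ≤ 2 * k := by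
  classical
  by_contra hlt
  push Not at hlt
  let act : MulAction G (Fin k) :=
    { smul := fun g v => e.symm g v
      one_smul := fun v => by
        change e.symm 1 v = v
        rw [map_one]; rfl
      mul_smul := fun g h v => by
        change e.symm (g * h) v = e.symm g (e.symm h v)
        rw [map_mul]; rfl }
  have hsmul : ∀ (g : G) (v : Fin k), g • v = e.symm g v := fun _ _ => rfl
  have hfaith : ∀ g : G, (∀ v : Fin k, g • v = v) → g = 1 := by
    intro g hg
    have : e.symm g = 1 := by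
      apply RelIso.ext
      intro v
      exact hg v
    rwa [EmbeddingLike.map_eq_one_iff] at this
  have hadj : ∀ (g : G) (v w : Fin k), Γ.Adj (g • v) (g • w) ↔ Γ.Adj v w := fun g v w =>
    (e.symm g).map_rel_iff
  -- stabilizers are large
  have hstab : ∀ w : Fin k, 2 < Nat.card (MulAction.stabilizer G w) := by
    intro w
    by_contra hle
    push Not at hle
    have h3 := MulAction.card_orbit_mul_card_stabilizer_eq_card_group G w
    have h4 : Fintype.card (MulAction.orbit G w) ≤ k := by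
      have := Fintype.card_subtype_le (fun x => x ∈ MulAction.orbit G w)
      rw [Fintype.card_fin] at this
      exact this
    rw [Nat.card_eq_fintype_card] at hle
    have h5 : Fintype.card (MulAction.orbit G w) * Fintype.card (MulAction.stabilizer G w) ≤
      k * 2 := Nat.mul_le_mul h4 hle
    omega
  let V1 : Set (Fin k) := {v | ∀ a ∈ P, a • v = v}
  have hV1 : ∀ (g : G) (v : Fin k), v ∈ V1 → g • v ∈ V1 := by
    intro g v hv a ha
    have h3 : g⁻¹ * a * g ∈ P := by
      have := hN.conj_mem a ha g⁻¹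
      rwa [inv_inv] at this
    have h4 := hv _ h3
    rw [smul_smul]
    have h5 : a * g = g * (g⁻¹ * a * g) := by group
    rw [h5, mul_smul, h4]
  have hV1' : ∀ (g : G) (v : Fin k), g • v ∈ V1 → v ∈ V1 := by
    intro g v hv
    have := hV1 g⁻¹ _ hv
    rwa [inv_smul_smul] at this
  -- stabilizers outside V1 meet P trivially
  have hinf : ∀ w : Fin k, w ∉ V1 → MulAction.stabilizer G w ⊓ P = ⊥ := by
    intro w hw
    rw [Subgroup.eq_bot_iff_forall]
    intro x hx
    by_contra hx1
    apply hw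
    intro a ha
    have hx' : x ∈ P := hx.2
    have : Fact (Nat.card P).Prime := ⟨by rw [hP]; exact hp⟩
    have h3 : (⟨a, ha⟩ : P) ∈ Subgroup.zpowers (⟨x, hx'⟩ : P) :=
      mem_zpowers_of_prime_card rfl (by
        intro h
        exact hx1 (congrArg Subtype.val h))
    obtain ⟨m, hm⟩ := Subgroup.mem_zpowers_iff.1 h3
    have h4 : a = x ^ m := (congrArg Subtype.val hm).symm
    have h5 : x ∈ MulAction.stabilizer G w := hx.1
    have h6 := (MulAction.stabilizer G w).zpow_mem h5 m
    rw [← h4] at h6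
    exact h6
  have hstu : ∀ w : Fin k, w ∉ V1 → ∃ g : G, g • w = w ∧ g⁻¹ * u ∈ P := by
    intro w hw
    obtain ⟨g, hg, hgu⟩ := h2 _ (hinf w hw) (hstab w)
    exact ⟨g, hg, hgu⟩
  -- the extra automorphism
  let σ : Γ ≃g Γ :=
    { toFun := fun v => if v ∈ V1 then u • v else v
      invFun := fun v => if v ∈ V1 then u⁻¹ • v else v
      left_inv := by
        intro v
        by_cases hv : v ∈ V1
        · simp only [hv, if_true, hV1 u v hv, inv_smul_smul]
        · simp only [hv, if_false]
      right_inv := by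
        intro v
        by_cases hv : v ∈ V1
        · simp only [hv, if_true, hV1 u⁻¹ v hv, smul_inv_smul]
        · simp only [hv, if_false]
      map_rel_iff' := by
        have key : ∀ v w : Fin k, v ∈ V1 → w ∉ V1 → (Γ.Adj (u • v) w ↔ Γ.Adj v w) := by
          intro v w hv hw
          obtain ⟨g, hgw, hgu⟩ := hstu w hw
          have h3 : u • v = g • v := by
            have : u = g * (g⁻¹ * u) := by group
            rw [this, mul_smul, hv _ hgu]
          rw [h3]
          conv_lhs => rw [← hgw]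
          exact hadj g v w
        intro v w
        change Γ.Adj (if v ∈ V1 then u • v else v) (if w ∈ V1 then u • w else w) ↔ Γ.Adj v w
        by_cases hv : v ∈ V1
        · by_cases hw : w ∈ V1
          · rw [if_pos hv, if_pos hw]
            exact hadj u v w
          · rw [if_pos hv, if_neg hw]
            exact key v w hv hw
        · by_cases hw : w ∈ V1
          · rw [if_neg hv, if_pos hw, Γ.adj_comm, key w v hw hv, Γ.adj_comm]
          · rw [if_neg hv, if_neg hw] }
  have hσ1 : ∀ v ∈ V1, e σ • v = u • v := by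
    intro v hv
    rw [hsmul, MulEquiv.symm_apply_apply]
    exact if_pos hv
  have hσ2 : ∀ v ∉ V1, e σ • v = v := by
    intro v hv
    rw [hsmul, MulEquiv.symm_apply_apply]
    exact if_neg hv
  set g0 := e σ with hg0
  -- there is a point outside V1
  obtain ⟨w, hw⟩ : ∃ w, w ∉ V1 := by
    by_contra hall
    push Not at hall
    have : Nontrivial P := by
      rw [← Finite.one_lt_card_iff_nontrivial, hP]
      exact hp.one_lt
    obtain ⟨a, ha⟩ := exists_ne (1 : P)
    apply ha
    apply Subtype.ext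
    exact hfaith a (fun v => hall v a a.2)
  have hcomm : ∀ a ∈ P, Commute g0 a := by
    intro a ha
    have h3 : a • w ∉ V1 := fun h => hw (hV1' a w h)
    have h4 : (a⁻¹ * g0 * a) • w = w := by
      rw [mul_smul, mul_smul, hσ2 _ h3, inv_smul_smul]
    have h5 : (g0⁻¹ * (a⁻¹ * g0 * a)) • w = w := by
      rw [mul_smul, h4, inv_smul_eq_iff, hσ2 w hw]
    have h6 : g0⁻¹ * (a⁻¹ * g0 * a) ∈ P := by
      have e1 : g0⁻¹ * (a⁻¹ * g0 * a) = (g0⁻¹ * a⁻¹ * g0⁻¹⁻¹) * a := by group
      rw [e1]
      exact P.mul_mem (hN.conj_mem _ (P.inv_mem ha) _) ha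
    have h7 : g0⁻¹ * (a⁻¹ * g0 * a) ∈ MulAction.stabilizer G w ⊓ P := ⟨h5, h6⟩
    rw [hinf w hw, Subgroup.mem_bot, inv_mul_eq_one] at h7
    -- g0 = a⁻¹ * g0 * a
    change g0 * a = a * g0
    conv_rhs => rw [h7]
    group
  have hg2 : g0 ^ 2 = 1 := by
    have h3 := h1 g0 hcomm
    have h4 : g0 ^ 2 ∈ MulAction.stabilizer G w :=
      (MulAction.stabilizer G w).pow_mem (hσ2 w hw) 2
    have h5 : g0 ^ 2 ∈ MulAction.stabilizer G w ⊓ P := ⟨h4, h3⟩
    rwa [hinf w hw, Subgroup.mem_bot] at h5
  apply hu2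
  apply hfaith
  intro v
  by_cases hv : v ∈ V1
  · have h3 : (g0 ^ 2) • v = v := by rw [hg2, one_smul]
    rw [pow_two, mul_smul, hσ1 v hv, hσ1 _ (hV1 u v hv), ← mul_smul, ← pow_two] at h3
    exact h3
  · obtain ⟨g, hgv, hgu⟩ := hstu v hv
    set b := g⁻¹ * u with hb
    have hu : u = g * b := by rw [hb]; group
    have hgS : g ∈ MulAction.stabilizer G v := hgv
    -- g ^ 4 = 1
    have hq : ∀ n : ℕ, g ^ n * (u ^ n)⁻¹ ∈ P := by
      intro n
      induction n with
      | zero => simp
      | succ n ih =>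
        have e1 : g ^ (n + 1) * (u ^ (n + 1))⁻¹ =
            (g ^ n * (u ^ n)⁻¹) * (u ^ n * (g * u⁻¹) * (u ^ n)⁻¹) := by
          rw [pow_succ, pow_succ]; group
        rw [e1]
        refine P.mul_mem ih (hN.conj_mem _ ?_ _)
        have e2 : g * u⁻¹ = g * (b⁻¹) * g⁻¹ := by rw [hu]; group
        rw [e2]
        exact hN.conj_mem _ (P.inv_mem hgu) _
    have h4 : g ^ 4 = 1 := by
      have h5 := hq 4
      rw [hu4, inv_one, mul_one] at h5
      have h6 : g ^ 4 ∈ MulAction.stabilizer G v ⊓ P :=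
        ⟨(MulAction.stabilizer G v).pow_mem hgS 4, h5⟩
      rwa [hinf v hv, Subgroup.mem_bot] at h6
    have h7 := hq 2
    set a := g ^ 2 * (u ^ 2)⁻¹ with ha
    have h8 : g ^ 2 = a * u ^ 2 := by rw [ha]; group
    have h9 : a ^ 2 = 1 := by
      have h10 : (g ^ 2) ^ 2 = a ^ 2 * (u ^ 2) ^ 2 := by
        rw [h8]
        exact ((hcent a h7).symm).mul_pow 2
      rw [← pow_mul, ← pow_mul] at h10
      norm_num at h10
      rw [h4, hu4, mul_one] at h10
      exact h10.symm
    have h11 : a = 1 := by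
      have h12 : a ^ p = 1 := by
        have := pow_card_eq_one' (x := (⟨a, h7⟩ : P))
        rw [hP] at this
        exact congrArg Subtype.val this
      have h13 := orderOf_dvd_of_pow_eq_one h9
      have h14 := orderOf_dvd_of_pow_eq_one h12
      have h15 : Nat.Coprime 2 p := (Nat.coprime_primes Nat.prime_two hp).2 (Ne.symm hodd)
      have h16 := Nat.dvd_gcd h13 h14
      rw [h15] at h16
      exact orderOf_eq_one_iff.1 (Nat.dvd_one.1 h16)
    rw [h11, one_mul] at h8
    rw [← h8, pow_two, mul_smul, hgv, hgv]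

end Pool.Agent.Helper835.Counter
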