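import Mathlib
import Pool.Agent.Helper835.Counter

set_option autoImplicit false

namespace Pool.Agent.Helper835.Counter

variable (p : ℕ) (C : Subgroup (ZMod p)ˣ)

/-- the group: pairs, with multiplication twisted by the square of the second component -/
@[ext]
structure Gp where
  /-- first component -/
  a : ZMod p
  /-- second component -/
  c : C

variable {p C}

instance : Mul (Gp p C) := ⟨fun x y => ⟨x.a + ((x.c : (ZMod p)ˣ) : ZMod p) ^ 2 * y.a, x.c * y.c⟩⟩
instance : One (Gp p C) := ⟨⟨0, 1⟩⟩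
instance : Inv (Gp p C) := ⟨fun x => ⟨-(((x.c⁻¹ : C) : (ZMod p)ˣ) : ZMod p) ^ 2 * x.a, x.c⁻¹⟩⟩

theorem mul_a (x y : Gp p C) : (x * y).a = x.a + ((x.c : (ZMod p)ˣ) : ZMod p) ^ 2 * y.a := rfl
theorem mul_c (x y : Gp p C) : (x * y).c = x.c * y.c := rfl
theorem one_a : (1 : Gp p C).a = 0 := rfl
theorem one_c : (1 : Gp p C).c = 1 := rfl
theorem inv_a (x : Gp p C) : (x⁻¹).a = -(((x.c⁻¹ : C) : (ZMod p)ˣ) : ZMod p) ^ 2 * x.a := rfl
theorem inv_c (x : Gp p C) : (x⁻¹).c = x.c⁻¹ := rfl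

instance : Group (Gp p C) := Group.ofLeftAxioms
  (by
    intro x y z
    apply Gp.ext
    · simp only [mul_a, mul_c]
      push_cast
      ring
    · simp only [mul_c]
      exact mul_assoc _ _ _)
  (by
    intro x
    apply Gp.ext
    · simp only [mul_a, one_a, one_c]
      simp
    · simp only [mul_c, one_c]
      exact one_mul _)
  (by
    intro x
    apply Gp.ext
    · simp only [mul_a, one_a, inv_a, inv_c]
      ring
    · simp only [mul_c, one_c, inv_c]
      exact inv_mul_cancel _)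

/-- the projection -/
def pr : Gp p C →* C where
  toFun x := x.c
  map_one' := rfl
  map_mul' _ _ := rfl

theorem pr_apply (x : Gp p C) : pr x = x.c := rfl

/-- underlying pairs -/
def eqv : Gp p C ≃ ZMod p × C where
  toFun x := (x.a, x.c)
  invFun y := ⟨y.1, y.2⟩
  left_inv _ := rfl
  right_inv _ := rfl

theorem card_Gp : Nat.card (Gp p C) = p * Nat.card C := by
  rw [Nat.card_congr eqv, Nat.card_prod, Nat.card_zmod]

theorem card_ker : Nat.card (pr (p := p) (C := C)).ker = p := by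
  have e : (pr (p := p) (C := C)).ker ≃ ZMod p :=
    { toFun := fun x => x.1.a
      invFun := fun a => ⟨⟨a, 1⟩, rfl⟩
      left_inv := by
        rintro ⟨x, hx⟩
        apply Subtype.ext
        apply Gp.ext
        · rfl
        · exact (hx : x.c = 1).symm
      right_inv := fun a => rfl }
  rw [Nat.card_congr e, Nat.card_zmod]

theorem lower2 [hp : Fact p.Prime] (hodd : p ≠ 2) {s : ℕ} (hC : Nat.card C = 2 ^ s) (hs : 2 ≤ s)
    [Fintype (Gp p C)] {k : ℕ} (Γ : SimpleGraph (Fin k)) (e : (Γ ≃g Γ) ≃* Gp p C) :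
    Fintype.card (Gp p C) ≤ 2 * k := by
  classical
  have h4C : 4 ∣ Nat.card C := by
    rw [hC]
    exact pow_dvd_pow 2 hs
  -- elements of order four in subgroups
  have key : ∀ S : Subgroup (ZMod p)ˣ, 4 ∣ Nat.card S → ∃ t ∈ S, (t : ZMod p) ^ 2 = -1 := by
    intro S hS
    obtain ⟨g, hg⟩ := IsCyclic.exists_generator (α := S)
    have h1 : orderOf g = Nat.card S := orderOf_eq_card_of_forall_mem_zpowers hg
    obtain ⟨m, hm⟩ := hS
    have hpos : 0 < Nat.card S := Nat.card_pos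
    have hm0 : m ≠ 0 := by
      rintro rfl
      omega
    have h2 : orderOf (g ^ m) = 4 := by
      rw [orderOf_pow_of_dvd hm0 (by rw [h1, hm]; exact Dvd.intro_left 4 rfl), h1, hm]
      exact Nat.mul_div_cancel _ (Nat.pos_of_ne_zero hm0)
    refine ⟨(g ^ m : S), (g ^ m : S).2, ?_⟩
    set t : S := g ^ m
    have h3 : ((t : (ZMod p)ˣ) : ZMod p) ^ 4 = 1 := by
      have : t ^ 4 = 1 := by rw [← h2]; exact pow_orderOf_eq_one t
      have h5 : ((t ^ 4 : S) : (ZMod p)ˣ) = 1 := by rw [this]; rfl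
      have h6 : (((t ^ 4 : S) : (ZMod p)ˣ) : ZMod p) = 1 := by rw [h5]; rfl
      push_cast at h6
      exact h6
    have h4 : ((t : (ZMod p)ˣ) : ZMod p) ^ 2 ≠ 1 := by
      intro h
      have h5 : t ^ 2 = 1 := by
        apply Subtype.ext
        apply Units.ext
        push_cast
        exact h
      have h6 := orderOf_dvd_of_pow_eq_one h5
      rw [h2] at h6
      norm_num at h6
    have h5 : (((t : (ZMod p)ˣ) : ZMod p) ^ 2 - 1) * (((t : (ZMod p)ˣ) : ZMod p) ^ 2 + 1) = 0 := by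
      have : (((t : (ZMod p)ˣ) : ZMod p) ^ 2 - 1) * (((t : (ZMod p)ˣ) : ZMod p) ^ 2 + 1) =
        ((t : (ZMod p)ˣ) : ZMod p) ^ 4 - 1 := by ring
      rw [this, h3, sub_self]
    rcases mul_eq_zero.1 h5 with h6 | h6
    · exact absurd (sub_eq_zero.1 h6) h4
    · exact eq_neg_of_add_eq_zero_left h6
  obtain ⟨i, hiC, hi⟩ := key C h4C
  have hne : (-1 : ZMod p) ≠ 1 := by
    intro h
    have h2 : ((2 : ℕ) : ZMod p) = 0 := by
      have : (2 : ZMod p) = 1 - (-1) := by ring
      push_cast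
      rw [this, h, sub_self]
    rw [ZMod.natCast_eq_zero_iff] at h2
    exact hodd ((Nat.prime_dvd_prime_iff_eq hp.1 Nat.prime_two).1 h2)
  let u : Gp p C := ⟨0, ⟨i, hiC⟩⟩
  have hu2 : u ^ 2 = ⟨0, ⟨i, hiC⟩ ^ 2⟩ := by
    rw [pow_two]
    apply Gp.ext
    · rw [mul_a]
      simp [u]
    · rw [mul_c]
      simp only [u]
      rw [pow_two]
  have hi2 : (((⟨i, hiC⟩ ^ 2 : C) : (ZMod p)ˣ) : ZMod p) = -1 := by
    push_cast
    exact hi
  have hi4 : ((⟨i, hiC⟩ : C) ^ 2) ^ 2 = 1 := by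
    apply Subtype.ext
    apply Units.ext
    have : ((((⟨i, hiC⟩ ^ 2 : C) ^ 2 : C) : (ZMod p)ˣ) : ZMod p) =
      ((((⟨i, hiC⟩ ^ 2 : C) : (ZMod p)ˣ) : ZMod p)) ^ 2 := by push_cast; rfl
    rw [this, hi2]
    simp
  have hi2' : (⟨i, hiC⟩ : C) ^ 2 ≠ 1 := by
    intro h
    rw [h] at hi2
    exact hne (by rw [← hi2]; rfl)
  apply lower (pr (p := p) (C := C)).ker hp.1 hodd card_ker u
  · -- u ^ 4 = 1
    have : u ^ 4 = u ^ 2 * u ^ 2 := by rw [← pow_add]
    rw [this, hu2]
    apply Gp.ext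
    · simp [mul_a, one_a]
    · rw [mul_c, one_c, ← pow_two]
      exact hi4
  · -- u ^ 2 ≠ 1
    rw [hu2]
    intro h
    exact hi2' (congrArg Gp.c h)
  · rintro ⟨b, y⟩ hy
    obtain rfl : y = 1 := hy
    change u ^ 2 * _ = _ * u ^ 2
    rw [hu2]
    apply Gp.ext
    · simp only [mul_a]
      rw [hi2]
      simp
    · simp only [mul_c]
      rw [mul_one, one_mul]
  · rintro ⟨x, c⟩ hg
    have h1 := hg ⟨1, 1⟩ rfl
    have h2 : ((c : (ZMod p)ˣ) : ZMod p) ^ 2 = 1 := by
      have h3 := congrArg Gp.a h1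
      have h4 : x + ((c : (ZMod p)ˣ) : ZMod p) ^ 2 * 1 = 1 + (((1 : C) : (ZMod p)ˣ) : ZMod p) ^ 2 * x := h3
      have h5 : (((1 : C) : (ZMod p)ˣ) : ZMod p) = 1 := rfl
      rw [h5] at h4
      linear_combination h4
    rw [MonoidHom.mem_ker, map_pow, pr_apply]
    apply Subtype.ext
    apply Units.ext
    push_cast
    exact h2
  · intro S hS hcard
    -- the image of S
    have hinj : Function.Injective (fun x : S => pr (x : Gp p C)) := by
      intro x y hxy
      have h1 : (x : Gp p C)⁻¹ * y ∈ S ⊓ (pr (p := p) (C := C)).ker := by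
        refine ⟨S.mul_mem (S.inv_mem x.2) y.2, ?_⟩
        change pr ((x : Gp p C)⁻¹ * (y : Gp p C)) = 1
        rw [map_mul, map_inv]
        change pr (x : Gp p C) = pr (y : Gp p C) at hxy
        rw [hxy, inv_mul_cancel]
      rw [hS, Subgroup.mem_bot, inv_mul_eq_one] at h1
      exact Subtype.ext h1
    let S' : Subgroup C := S.map pr
    have hS' : Nat.card S' = Nat.card S := by
      refine (Nat.card_congr (Equiv.ofBijective (fun x : S => (⟨pr (x : Gp p C),
        Subgroup.mem_map_of_mem _ x.2⟩ : S')) ⟨?_, ?_⟩)).symm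
      · intro x y hxy
        exact hinj (congrArg Subtype.val hxy)
      · rintro ⟨y, hy⟩
        obtain ⟨x, hx, rfl⟩ := hy
        exact ⟨⟨x, hx⟩, rfl⟩
    let S'' : Subgroup (ZMod p)ˣ := S'.map C.subtype
    have hS'' : Nat.card S'' = Nat.card S' :=
      (Nat.card_congr (S'.equivMapOfInjective C.subtype C.subtype_injective).toEquiv).symm
    have h4 : 4 ∣ Nat.card S'' := by
      rw [hS'']
      have h5 : Nat.card S' ∣ 2 ^ s := by
        rw [← hC]
        exact Subgroup.card_subgroup_dvd_card S'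
      obtain ⟨j, _, hj⟩ := (Nat.dvd_prime_pow Nat.prime_two).1 h5
      rw [hj]
      rw [← hS', hj] at hcard
      have h6 : 2 ≤ j := by
        by_contra h
        push Not at h
        have : j = 0 ∨ j = 1 := by omega
        rcases this with rfl | rfl <;> norm_num at hcard
      exact pow_dvd_pow 2 h6
    obtain ⟨t, ht, ht2⟩ := key S'' h4
    -- t = i or t = i⁻¹
    have h7 : t = i ∨ t⁻¹ = i := by
      have h8 : ((t : ZMod p) - i) * ((t : ZMod p) + i) = 0 := by
        have : ((t : ZMod p) - i) * ((t : ZMod p) + i) = (t : ZMod p) ^ 2 - (i : ZMod p) ^ 2 := by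
          ring
        rw [this, ht2, hi, sub_self]
      rcases mul_eq_zero.1 h8 with h9 | h9
      · left
        exact Units.ext (sub_eq_zero.1 h9)
      · right
        rw [inv_eq_iff_mul_eq_one]
        apply Units.ext
        push_cast
        have h10 : (t : ZMod p) = -i := eq_neg_of_add_eq_zero_left h9
        rw [h10]
        have : -(i : ZMod p) * i = -(i : ZMod p) ^ 2 := by ring
        rw [this, hi, neg_neg]
    have h11 : i ∈ S'' := by
      rcases h7 with rfl | rfl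
      · exact ht
      · exact S''.inv_mem ht
    obtain ⟨c, ⟨g, hg, rfl⟩, hc⟩ := h11
    refine ⟨g, hg, ?_⟩
    rw [MonoidHom.mem_ker, map_mul, map_inv, inv_mul_eq_one]
    apply Subtype.ext
    exact hc
  · exact e

/-- the groups used in the counterexample -/
theorem exists_group (s : ℕ) (hs : 2 ≤ s) : ∃ (G : Type) (_ : Group G) (_ : Fintype G),
    s ≤ Fintype.card G ∧
    (∀ g : G, IsPrimePow (orderOf g) → orderOf g * 2 ^ s ≤ Fintype.card G) ∧
    ∀ (k : ℕ) (Γ : SimpleGraph (Fin k)), Nonempty ((Γ ≃g Γ) ≃* G) → Fintype.card G ≤ 2 * k := by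
  obtain ⟨p, hp, hlt, hmod⟩ := Nat.exists_prime_gt_modEq_one (k := 2 ^ s) (2 ^ s)
    (by positivity)
  have : Fact p.Prime := ⟨hp⟩
  have h4 : 4 ≤ 2 ^ s := by
    calc 4 = 2 ^ 2 := by norm_num
      _ ≤ 2 ^ s := Nat.pow_le_pow_right (by norm_num) hs
  have hodd : p ≠ 2 := by omega
  have hdvd : 2 ^ s ∣ p - 1 := (Nat.modEq_iff_dvd' hp.one_le).1 hmod.symm
  obtain ⟨g, hg⟩ := IsCyclic.exists_generator (α := (ZMod p)ˣ)
  have hog : orderOf g = p - 1 := by
    rw [orderOf_eq_card_of_forall_mem_zpowers hg, Nat.card_eq_fintype_card,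
      ZMod.card_units_eq_totient, Nat.totient_prime hp]
  obtain ⟨m, hm⟩ := hdvd
  have hm0 : m ≠ 0 := by
    rintro rfl
    have := hp.two_le
    omega
  have hov : orderOf (g ^ m) = 2 ^ s := by
    rw [orderOf_pow_of_dvd hm0 (by rw [hog, hm]; exact Dvd.intro_left _ rfl), hog, hm]
    exact Nat.mul_div_cancel _ (Nat.pos_of_ne_zero hm0)
  let C : Subgroup (ZMod p)ˣ := Subgroup.zpowers (g ^ m)
  have hC : Nat.card C = 2 ^ s := by rw [Nat.card_zpowers, hov]
  have hfin : Finite (Gp p C) := Finite.of_equiv _ eqv.symm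
  let ft : Fintype (Gp p C) := Fintype.ofFinite _
  have hcard : Fintype.card (Gp p C) = p * 2 ^ s := by
    rw [← Nat.card_eq_fintype_card, card_Gp, hC]
  refine ⟨Gp p C, inferInstance, ft, ?_, ?_, ?_⟩
  · rw [hcard]
    have h1 : s < 2 ^ s := Nat.lt_two_pow_self
    have h2 : 2 ^ s ≤ p * 2 ^ s := Nat.le_mul_of_pos_left _ hp.pos
    omega
  · intro x hx
    rw [hcard]
    obtain ⟨r, n, hr, hn, he⟩ := hx
    have hr' := hr.nat_prime
    have hdv : orderOf x ∣ p * 2 ^ s := by
      rw [← hcard]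
      exact orderOf_dvd_card
    rw [← he] at hdv ⊢
    by_cases h2 : r = 2
    · have h3 : Nat.Coprime (r ^ n) p := by
        rw [h2]
        exact Nat.Coprime.pow_left _ ((Nat.coprime_primes Nat.prime_two hp).2 (Ne.symm hodd))
      have h5 := Nat.le_of_dvd (by positivity) (h3.dvd_of_dvd_mul_left hdv)
      exact Nat.mul_le_mul_right _ (h5.trans hlt.le)
    · have h3 : Nat.Coprime (r ^ n) (2 ^ s) :=
        Nat.Coprime.pow _ _ ((Nat.coprime_primes hr' Nat.prime_two).2 h2)
      have h5 := Nat.le_of_dvd hp.pos (h3.dvd_of_dvd_mul_right hdv)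
      exact Nat.mul_le_mul_right _ h5
  · rintro k Γ ⟨e⟩
    exact lower2 hodd hC hs Γ e

end Pool.Agent.Helper835.Counter
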