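import Mathlib

set_option autoImplicit false

namespace Pool.Agent.Helper835.Grp

open Finset

section Nilp

variable {F : Type} [Field F] {N : ℕ}

theorem pow_zero_entries (y : Matrix (Fin N) (Fin N) F)
    (hy : ∀ i j : Fin N, (j : ℕ) ≤ i → y i j = 0) (r : ℕ) :
    ∀ i j : Fin N, (j : ℕ) < i + r → (y ^ r) i j = 0 := by
  induction r with
  | zero =>
    intro i j hij
    rw [pow_zero, Matrix.one_apply_ne]
    intro h
    rw [h] at hij
    omega
  | succ r ih =>
    intro i j hij
    rw [pow_succ, Matrix.mul_apply]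
    apply Finset.sum_eq_zero
    intro k _
    by_cases hk : (k : ℕ) < i + r
    · rw [ih i k hk, zero_mul]
    · rw [hy k j (by omega), mul_zero]

theorem pow_diag_entries (y : Matrix (Fin N) (Fin N) F)
    (hy : ∀ i j : Fin N, (j : ℕ) ≤ i → y i j = 0) (a : F)
    (hya : ∀ i j : Fin N, (j : ℕ) = i + 1 → y i j = a ^ 2 ^ (i : ℕ)) (r : ℕ) :
    ∀ i j : Fin N, (j : ℕ) = i + r → (y ^ r) i j = ∏ t ∈ range r, a ^ 2 ^ ((i : ℕ) + t) := by
  induction r with
  | zero =>
    intro i j hij
    have : i = j := by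
      apply Fin.ext
      omega
    rw [pow_zero, this, Matrix.one_apply_eq, Finset.prod_range_zero]
  | succ r ih =>
    intro i j hij
    have hk : (i : ℕ) + r < N := by
      have := j.2
      omega
    rw [pow_succ, Matrix.mul_apply, Finset.sum_eq_single (⟨(i : ℕ) + r, hk⟩ : Fin N)]
    · rw [ih i ⟨(i : ℕ) + r, hk⟩ rfl, hya ⟨(i : ℕ) + r, hk⟩ j (by simp; omega),
        Finset.prod_range_succ]
    · intro k _ hkne
      by_cases hk' : (k : ℕ) < i + r
      · rw [pow_zero_entries y hy r i k hk', zero_mul]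
      · have : (k : ℕ) ≠ i + r := by
          intro h
          apply hkne
          apply Fin.ext
          exact h
        rw [hy k j (by omega), mul_zero]
    · intro h
      exact absurd (Finset.mem_univ _) h

theorem sum_two_pow (n : ℕ) : ∑ t ∈ range n, 2 ^ t = 2 ^ n - 1 := by
  induction n with
  | zero => simp
  | succ n ih =>
    rw [Finset.sum_range_succ, ih, pow_succ]
    have : 1 ≤ 2 ^ n := Nat.one_le_two_pow
    omega

end Nilp

section Group

variable (F : Type) [Field F] [CharP F 2] (k : ℕ)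

/-- the matrices used: upper unitriangular with superdiagonal `a, a^2, a^4, ...` -/
def T (m : ℕ) : Submonoid (Matrix (Fin (m + 2)) (Fin (m + 2)) F) where
  carrier := {M | (∀ i j, j < i → M i j = 0) ∧ (∀ i, M i i = 1) ∧
    ∀ i j : Fin (m + 2), (j : ℕ) = i + 1 → M i j = (M 0 1) ^ 2 ^ (i : ℕ)}
  one_mem' := by
    refine ⟨fun i j h => Matrix.one_apply_ne h.ne', fun i => Matrix.one_apply_eq i, ?_⟩
    intro i j h
    rw [Matrix.one_apply_ne, Matrix.one_apply_ne, zero_pow]
    · positivity
    · intro h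
      have := congrArg Fin.val h
      simp at this
    · intro h'
      rw [h'] at h
      omega
  mul_mem' := by
    rintro M M' ⟨h1, h2, h3⟩ ⟨h1', h2', h3'⟩
    have key : ∀ i j : Fin (m + 2), (j : ℕ) = i + 1 → (M * M') i j = M i j + M' i j := by
      intro i j hij
      have hne : i ≠ j := by
        intro h
        rw [h] at hij
        omega
      rw [Matrix.mul_apply, Finset.sum_eq_add i j hne]
      · rw [h2, h2', one_mul, mul_one, add_comm]
      · rintro c - ⟨hc, hc'⟩
        rcases lt_or_gt_of_ne hc with h | h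
        · rw [h1 i c h, zero_mul]
        · have h1'' : j < c := by
            rw [Fin.lt_def] at h ⊢
            have : (c : ℕ) ≠ j := fun h => hc' (Fin.ext h)
            omega
          rw [h1' c j h1'', mul_zero]
      · intro h; exact absurd (Finset.mem_univ _) h
      · intro h; exact absurd (Finset.mem_univ _) h
    refine ⟨?_, ?_, ?_⟩
    · intro i j hij
      rw [Matrix.mul_apply]
      apply Finset.sum_eq_zero
      intro c _
      by_cases hc : c < i
      · rw [h1 i c hc, zero_mul]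
      · rw [h1' c j (lt_of_lt_of_le hij (not_lt.1 hc)), mul_zero]
    · intro i
      rw [Matrix.mul_apply, Finset.sum_eq_single i]
      · rw [h2, h2', mul_one]
      · intro c _ hc
        rcases lt_or_gt_of_ne hc with h | h
        · rw [h1 i c h, zero_mul]
        · rw [h1' c i h, mul_zero]
      · intro h; exact absurd (Finset.mem_univ _) h
    · intro i j hij
      rw [key i j hij, key 0 1 (by simp), h3 i j hij, h3' i j hij, add_pow_char_pow]

variable {F} {k}

theorem T_pow {m : ℕ} (hm : m + 1 = 2 ^ k) (M : Matrix (Fin (m + 2)) (Fin (m + 2)) F) :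
    M ^ (m + 1) = 1 + (M - 1) ^ (m + 1) := by
  have h := add_pow_char_pow_of_commute (p := 2) (n := k) (Commute.one_left (M - 1))
  rw [← hm, one_pow, add_sub_cancel] at h
  exact h

theorem T_sub_one {m : ℕ} (M : Matrix (Fin (m + 2)) (Fin (m + 2)) F) (hM : M ∈ T F m) :
    ∀ i j : Fin (m + 2), (j : ℕ) ≤ i → (M - 1) i j = 0 := by
  intro i j hij
  rw [Matrix.sub_apply]
  rcases eq_or_lt_of_le hij with h | h
  · have : j = i := Fin.ext h
    rw [this, hM.2.1, Matrix.one_apply_eq, sub_self]
  · rw [hM.1 i j h, Matrix.one_apply_ne (by rintro rfl; exact lt_irrefl _ h), sub_self]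

theorem T_pow_two {m : ℕ} (hm : m + 1 = 2 ^ k) (M : Matrix (Fin (m + 2)) (Fin (m + 2)) F)
    (hM : M ∈ T F m) :
    M ^ (2 * m + 2) = 1 := by
  have h := add_pow_char_pow_of_commute (p := 2) (n := k + 1) (Commute.one_left (M - 1))
  rw [pow_succ 2 k, ← hm, one_pow, add_sub_cancel] at h
  have e : (m + 1) * 2 = 2 * m + 2 := by ring
  rw [e] at h
  rw [h]
  have : (M - 1) ^ (2 * m + 2) = 0 := by
    ext i j
    rw [pow_zero_entries (M - 1) (T_sub_one M hM)]
    · rfl
    · have := j.2
      omega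
  rw [this, add_zero]

/-- the finite group of these matrices -/
@[reducible] def grp {m : ℕ} (hm : m + 1 = 2 ^ k) : Group (T F m) :=
  { (inferInstance : Monoid (T F m)) with
    inv := fun M => M ^ (2 * m + 1)
    inv_mul_cancel := by
      intro M
      change M ^ (2 * m + 1) * M = 1
      rw [← pow_succ]
      apply Subtype.ext
      rw [SubmonoidClass.coe_pow]
      exact T_pow_two hm M.1 M.2 }

/-- the central involution -/
def zmat (m : ℕ) : Matrix (Fin (m + 2)) (Fin (m + 2)) F :=
  1 + Matrix.single 0 (Fin.last (m + 1)) 1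

theorem zmat_mem {m : ℕ} (hm : 1 ≤ m) : zmat m ∈ T F m := by
  have h0 : ∀ i j : Fin (m + 2), ¬ (i = 0 ∧ j = Fin.last (m + 1)) →
      zmat m i j = (1 : Matrix (Fin (m + 2)) (Fin (m + 2)) F) i j := by
    intro i j h
    rw [zmat, Matrix.add_apply, Matrix.single_apply_of_ne, add_zero]
    tauto
  refine ⟨?_, ?_, ?_⟩
  · intro i j hij
    rw [h0, Matrix.one_apply_ne hij.ne']
    rintro ⟨rfl, rfl⟩
    exact absurd hij (Fin.not_lt_zero _)
  · intro i
    rw [h0, Matrix.one_apply_eq]
    rintro ⟨rfl, h⟩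
    have := congrArg Fin.val h
    simp at this
  · have h1 : ∀ i j : Fin (m + 2), (j : ℕ) = i + 1 → zmat (F := F) m i j = 0 := by
      intro i j hij
      rw [h0, Matrix.one_apply_ne]
      · rintro rfl; omega
      · rintro ⟨rfl, rfl⟩
        simp at hij
        omega
    intro i j hij
    rw [h1 i j hij, h1 0 1 (by simp), zero_pow (by positivity)]

theorem zmat_mul {m : ℕ} (M : Matrix (Fin (m + 2)) (Fin (m + 2)) F) (hM : M ∈ T F m) :
    zmat m * M = M + Matrix.single 0 (Fin.last (m + 1)) 1 := by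
  rw [zmat, add_mul, one_mul]
  congr 1
  ext i j
  by_cases hi : i = 0
  · rw [hi, Matrix.single_mul_apply_same, one_mul]
    by_cases hj : j = Fin.last (m + 1)
    · rw [hj, hM.2.1, Matrix.single_apply_same]
    · rw [hM.1, Matrix.single_apply_of_ne]
      · tauto
      · exact lt_of_le_of_ne (Fin.le_last j) hj
  · rw [Matrix.single_mul_apply_of_ne, Matrix.single_apply_of_ne]
    · tauto
    · tauto

theorem mul_zmat {m : ℕ} (M : Matrix (Fin (m + 2)) (Fin (m + 2)) F) (hM : M ∈ T F m) :
    M * zmat m = M + Matrix.single 0 (Fin.last (m + 1)) 1 := by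
  rw [zmat, mul_add, mul_one]
  congr 1
  ext i j
  by_cases hj : j = Fin.last (m + 1)
  · rw [hj, Matrix.mul_single_apply_same, mul_one]
    by_cases hi : i = 0
    · rw [hi, hM.2.1, Matrix.single_apply_same]
    · rw [hM.1, Matrix.single_apply_of_ne]
      · tauto
      · exact Fin.pos_of_ne_zero hi
  · rw [Matrix.mul_single_apply_of_ne, Matrix.single_apply_of_ne]
    · tauto
    · tauto

theorem T_pow_eq_zmat [Fintype F] {m : ℕ} (hm : m + 1 = 2 ^ k)
    (hF : Fintype.card F = 2 ^ (m + 1))
    (M : Matrix (Fin (m + 2)) (Fin (m + 2)) F) (hM : M ∈ T F m) (ha : M 0 1 ≠ 0) :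
    M ^ (m + 1) = zmat m := by
  rw [T_pow hm M, zmat]
  congr 1
  ext i j
  have hsup : ∀ i j : Fin (m + 2), (j : ℕ) = i + 1 → (M - 1) i j = (M 0 1) ^ 2 ^ (i : ℕ) := by
    intro i j hij
    rw [Matrix.sub_apply, hM.2.2 i j hij, Matrix.one_apply_ne, sub_zero]
    rintro rfl; omega
  by_cases h : i = 0 ∧ j = Fin.last (m + 1)
  · obtain ⟨rfl, rfl⟩ := h
    rw [pow_diag_entries (M - 1) (T_sub_one M hM) (M 0 1) hsup (m + 1) 0 (Fin.last (m + 1))
      (by simp), Matrix.single_apply_same, Finset.prod_pow_eq_pow_sum]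
    simp only [Fin.val_zero, zero_add]
    rw [sum_two_pow, ← hF]
    exact FiniteField.pow_card_sub_one_eq_one _ ha
  · rw [pow_zero_entries (M - 1) (T_sub_one M hM), Matrix.single_apply_of_ne]
    · tauto
    · have h1 := i.2
      have h2 := j.2
      by_contra hcon
      apply h
      have h0 : ((0 : Fin (m + 2)) : ℕ) = 0 := rfl
      have h3 : ((Fin.last (m + 1) : Fin (m + 2)) : ℕ) = m + 1 := rfl
      constructor
      · apply Fin.ext
        omega
      · apply Fin.ext
        omega

/-- a matrix with prescribed superdiagonal -/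
def smat (m : ℕ) (a : F) : Matrix (Fin (m + 2)) (Fin (m + 2)) F :=
  fun i j => if i = j then 1 else if (j : ℕ) = i + 1 then a ^ 2 ^ (i : ℕ) else 0

theorem smat_mem (m : ℕ) (a : F) : smat m a ∈ T F m := by
  refine ⟨?_, ?_, ?_⟩
  · intro i j hij
    rw [smat, if_neg hij.ne', if_neg]
    rw [Fin.lt_def] at hij
    omega
  · intro i
    rw [smat, if_pos rfl]
  · intro i j hij
    have h1 : ∀ i j : Fin (m + 2), (j : ℕ) = i + 1 → smat m a i j = a ^ 2 ^ (i : ℕ) := by
      intro i j hij
      rw [smat, if_neg, if_pos hij]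
      rintro rfl; omega
    rw [h1 i j hij, h1 0 1 (by simp)]
    simp

omit [CharP F 2] in
theorem smat_apply (m : ℕ) (a : F) : smat m a 0 1 = a := by
  rw [smat, if_neg, if_pos (by simp)]
  · simp
  · intro h
    have := congrArg Fin.val h
    simp at this

theorem mul_apply_01 {m : ℕ} (M M' : Matrix (Fin (m + 2)) (Fin (m + 2)) F)
    (hM : M ∈ T F m) (hM' : M' ∈ T F m) : (M * M') 0 1 = M 0 1 + M' 0 1 := by
  rw [Matrix.mul_apply, Finset.sum_eq_add (0 : Fin (m + 2)) 1 (by simp)]
  · rw [hM.2.1, hM'.2.1, one_mul, mul_one, add_comm]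
  · rintro c - ⟨hc, hc'⟩
    rw [hM'.1 c 1, mul_zero]
    rw [Fin.lt_def]
    have h1 : (c : ℕ) ≠ 0 := fun h => hc (Fin.ext (by simpa using h))
    have h2 : (c : ℕ) ≠ 1 := fun h => hc' (Fin.ext (by simpa using h))
    simp
    omega
  · intro h; exact absurd (Finset.mem_univ _) h
  · intro h; exact absurd (Finset.mem_univ _) h

end Group

/-- The family of groups: for every `k`, with `n = 2 ^ (k+1)`, a finite group with a central
involution `z` and a surjection `ψ` onto an elementary abelian group of order `2 ^ n` such that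
every element outside the kernel has `z` as a power, and whose order is not too large. -/
theorem exists_group (k : ℕ) :
    ∃ (G : Type) (_ : Group G) (_ : Finite G) (F : Type) (_ : AddCommGroup F)
      (_ : Module (ZMod 2) F) (_ : Finite F) (ψ : G → F) (z : G),
      (∀ g h, ψ (g * h) = ψ g + ψ h) ∧ z ≠ 1 ∧ z * z = 1 ∧ (∀ g : G, z * g = g * z) ∧
      ψ z = 0 ∧ Function.Surjective ψ ∧ (∀ g, ψ g ≠ 0 → ∃ m : ℕ, g ^ m = z) ∧
      Nat.card F = 2 ^ 2 ^ (k + 1) ∧
      Nat.card G ≤ 2 ^ (2 ^ (k + 1) * ((2 ^ (k + 1) + 1) * (2 ^ (k + 1) + 1))) := by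
  classical
  let n := 2 ^ (k + 1)
  have hn2 : 2 ≤ n := by
    change 2 ≤ 2 ^ (k + 1)
    rw [pow_succ]
    have : 1 ≤ 2 ^ k := Nat.one_le_two_pow
    omega
  obtain ⟨m, hm⟩ : ∃ m, m + 1 = n := ⟨n - 1, by omega⟩
  have hm1 : 1 ≤ m := by omega
  let F := GaloisField 2 n
  have hFc : Nat.card F = 2 ^ n := GaloisField.card 2 n (by omega)
  have : Fintype F := Fintype.ofFinite F
  have hFc' : Fintype.card F = 2 ^ (m + 1) := by
    rw [← Nat.card_eq_fintype_card, hFc, hm]
  have hmk : m + 1 = 2 ^ (k + 1) := hm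
  let inst : Group (T F m) := grp hmk
  refine ⟨T F m, inst, inferInstance, F, inferInstance, inferInstance, inferInstance,
    fun M => M.1 0 1, ⟨zmat m, zmat_mem hm1⟩, ?_, ?_, ?_, ?_, ?_, ?_, ?_, ?_, ?_⟩
  · intro g h
    exact mul_apply_01 g.1 h.1 g.2 h.2
  · intro h
    have h1 : zmat m = (1 : Matrix (Fin (m + 2)) (Fin (m + 2)) F) := congrArg Subtype.val h
    have h2 := congrFun (congrFun h1 0) (Fin.last (m + 1))
    rw [zmat, Matrix.add_apply, Matrix.single_apply_same] at h2
    simp at h2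
  · apply Subtype.ext
    change zmat m * zmat m = 1
    rw [zmat_mul _ (zmat_mem hm1), zmat, add_assoc]
    have : (Matrix.single 0 (Fin.last (m + 1)) 1 : Matrix (Fin (m + 2)) (Fin (m + 2)) F) +
      Matrix.single 0 (Fin.last (m + 1)) 1 = 0 := CharTwo.add_self_eq_zero _
    rw [this, add_zero]
  · intro g
    apply Subtype.ext
    change zmat m * g.1 = g.1 * zmat m
    rw [zmat_mul _ g.2, mul_zmat _ g.2]
  · change zmat m 0 1 = (0 : F)
    have hz := zmat_mem (F := F) hm1
    rw [zmat, Matrix.add_apply, Matrix.single_apply_of_ne, Matrix.one_apply_ne, add_zero]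
    · intro h
      have := congrArg Fin.val h
      simp at this
    · rintro ⟨-, h⟩
      have := congrArg Fin.val h
      simp at this
      omega
  · intro a
    exact ⟨⟨smat m a, smat_mem m a⟩, smat_apply m a⟩
  · intro g hg
    refine ⟨m + 1, ?_⟩
    apply Subtype.ext
    exact (SubmonoidClass.coe_pow g (m + 1)).trans (T_pow_eq_zmat hmk hFc' g.1 g.2 hg)
  · exact hFc
  · have h1 : Nat.card (T F m) ≤ Nat.card (Matrix (Fin (m + 2)) (Fin (m + 2)) F) :=
      Nat.card_le_card_of_injective _ Subtype.val_injective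
    refine h1.trans (le_of_eq ?_)
    change Nat.card (Fin (m + 2) → Fin (m + 2) → F) = _
    rw [Nat.card_fun, Nat.card_fun, hFc, Nat.card_fin, ← pow_mul, ← pow_mul]
    congr 1
    change n * ((m + 2) * (m + 2)) = n * ((n + 1) * (n + 1))
    rw [← hm]

end Pool.Agent.Helper835.Grp
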