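import Mathlib

set_option autoImplicit false

namespace Pool.Agent.Helper835.Key

open Relation

section Abstract

variable {V Γ F : Type} [Group Γ] [AddCommGroup F]

/-- the step relation: adjacency between two points moved by `z` -/
def Step (E : V → V → Prop) (φ : Γ →* Equiv.Perm V) (z : Γ) (x y : V) : Prop :=
  (E x y ∨ E y x) ∧ φ z x ≠ x ∧ φ z y ≠ y

/-- reachability -/
def Reach (E : V → V → Prop) (φ : Γ →* Equiv.Perm V) (z : Γ) : V → V → Prop :=
  ReflTransGen (Step E φ z)

variable {E : V → V → Prop} {φ : Γ →* Equiv.Perm V} {z : Γ}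

theorem zmul_apply (hz2 : z * z = 1) (x : V) : φ z (φ z x) = x := by
  rw [← Equiv.Perm.mul_apply, ← map_mul, hz2, map_one, Equiv.Perm.one_apply]

theorem comm_apply (hzc : ∀ g : Γ, z * g = g * z) (g : Γ) (x : V) :
    φ z (φ g x) = φ g (φ z x) := by
  rw [← Equiv.Perm.mul_apply, ← map_mul, hzc, map_mul, Equiv.Perm.mul_apply]

theorem moved_apply (hzc : ∀ g : Γ, z * g = g * z) (g : Γ) (x : V) :
    φ z (φ g x) ≠ φ g x ↔ φ z x ≠ x := by
  rw [comm_apply hzc]
  simp

theorem Step.symm {x y : V} (h : Step E φ z x y) : Step E φ z y x :=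
  ⟨h.1.symm, h.2.2, h.2.1⟩

theorem Step.map (hE : ∀ (g : Γ) x y, E (φ g x) (φ g y) ↔ E x y)
    (hzc : ∀ g : Γ, z * g = g * z) (g : Γ) {x y : V} (h : Step E φ z x y) :
    Step E φ z (φ g x) (φ g y) := by
  obtain ⟨h1, h2, h3⟩ := h
  refine ⟨?_, (moved_apply hzc g x).2 h2, (moved_apply hzc g y).2 h3⟩
  rw [hE, hE]
  exact h1

theorem Reach.symm {x y : V} (h : Reach E φ z x y) : Reach E φ z y x := by
  induction h with
  | refl => exact ReflTransGen.refl
  | tail _ h2 ih => exact ReflTransGen.head h2.symm ih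

theorem Reach.map (hE : ∀ (g : Γ) x y, E (φ g x) (φ g y) ↔ E x y)
    (hzc : ∀ g : Γ, z * g = g * z) (g : Γ) {x y : V} (h : Reach E φ z x y) :
    Reach E φ z (φ g x) (φ g y) := by
  induction h with
  | refl => exact ReflTransGen.refl
  | tail _ h2 ih => exact ReflTransGen.tail ih (Step.map hE hzc g h2)

theorem Reach.moved {x y : V} (h : Reach E φ z x y) (hx : φ z x ≠ x) : φ z y ≠ y := by
  induction h with
  | refl => exact hx
  | tail _ h2 _ => exact h2.2.2

/-- the equivalence relation whose classes are unions of a component and its `z`-image -/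
def comp (hE : ∀ (g : Γ) x y, E (φ g x) (φ g y) ↔ E x y)
    (hzc : ∀ g : Γ, z * g = g * z) (hz2 : z * z = 1) : Setoid V where
  r x y := Reach E φ z x y ∨ Reach E φ z x (φ z y)
  iseqv := by
    refine ⟨fun x => Or.inl ReflTransGen.refl, ?_, ?_⟩
    · rintro x y (h | h)
      · exact Or.inl h.symm
      · right
        have := (Reach.map hE hzc z h).symm
        rwa [zmul_apply hz2] at this
    · rintro x y w (h | h) (h' | h')
      · exact Or.inl (h.trans h')
      · exact Or.inr (h.trans h')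
      · exact Or.inr (h.trans (Reach.map hE hzc z h'))
      · left
        have := Reach.map hE hzc z h'
        rw [zmul_apply hz2] at this
        exact h.trans this

theorem comp_moved (hE : ∀ (g : Γ) x y, E (φ g x) (φ g y) ↔ E x y)
    (hzc : ∀ g : Γ, z * g = g * z) (hz2 : z * z = 1) {x y : V}
    (h : (comp hE hzc hz2).r x y) (hx : φ z x ≠ x) : φ z y ≠ y := by
  rcases h with h | h
  · exact h.moved hx
  · have := h.moved hx
    exact (moved_apply hzc z y).1 this

/-- a set closed under steps and `z`, all of whose points are moved by `z`, gives an automorphism -/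
theorem exists_partial (hz2 : z * z = 1) (hzc : ∀ g : Γ, z * g = g * z)
    (hE : ∀ (g : Γ) x y, E (φ g x) (φ g y) ↔ E x y)
    (hfull : ∀ σ : Equiv.Perm V, (∀ x y, E (σ x) (σ y) ↔ E x y) → ∃ t : Γ, φ t = σ)
    (W : Set V) (h1 : ∀ v ∈ W, φ z v ≠ v) (h2 : ∀ v ∈ W, φ z v ∈ W)
    (h3 : ∀ v w, v ∈ W → Step E φ z v w → w ∈ W) :
    ∃ t : Γ, (∀ v ∈ W, φ t v = φ z v) ∧ (∀ v, v ∉ W → φ t v = v) := by
  classical
  let f : V → V := fun v => if v ∈ W then φ z v else v
  have hfW : ∀ v, v ∈ W → f v = φ z v := fun v hv => if_pos hv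
  have hfN : ∀ v, v ∉ W → f v = v := fun v hv => if_neg hv
  have hinv : Function.Involutive f := by
    intro v
    by_cases hv : v ∈ W
    · rw [hfW v hv, hfW _ (h2 v hv), zmul_apply hz2]
    · rw [hfN v hv, hfN v hv]
  have hmain : ∀ x y, x ∈ W → y ∉ W → ((E (φ z x) y ↔ E x y) ∧ (E y (φ z x) ↔ E y x)) := by
    intro x y hx hy
    by_cases hzy : φ z y = y
    · have a1 := hE z x y
      have a2 := hE z y x
      rw [hzy] at a1 a2
      exact ⟨a1, a2⟩
    · have b1 : ¬ E x y := fun h => hy (h3 x y hx ⟨Or.inl h, h1 x hx, hzy⟩)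
      have b2 : ¬ E y x := fun h => hy (h3 x y hx ⟨Or.inr h, h1 x hx, hzy⟩)
      have hx' := h2 x hx
      have b3 : ¬ E (φ z x) y := fun h => hy (h3 _ y hx' ⟨Or.inl h, h1 _ hx', hzy⟩)
      have b4 : ¬ E y (φ z x) := fun h => hy (h3 _ y hx' ⟨Or.inr h, h1 _ hx', hzy⟩)
      exact ⟨⟨fun h => absurd h b3, fun h => absurd h b1⟩,
        ⟨fun h => absurd h b4, fun h => absurd h b2⟩⟩
  obtain ⟨t, ht⟩ := hfull hinv.toPerm (by
    intro x y
    change E (f x) (f y) ↔ E x y
    by_cases hx : x ∈ W <;> by_cases hy : y ∈ W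
    · rw [hfW x hx, hfW y hy, hE]
    · rw [hfW x hx, hfN y hy]
      exact (hmain x y hx hy).1
    · rw [hfN x hx, hfW y hy]
      exact (hmain y x hy hx).2
    · rw [hfN x hx, hfN y hy])
  refine ⟨t, fun v hv => ?_, fun v hv => ?_⟩
  · rw [ht]; exact hfW v hv
  · rw [ht]; exact hfN v hv

/-- existence of a potential -/
theorem exists_potential (hzc : ∀ g : Γ, z * g = g * z) (ψ : Γ → F)
    (hψ : ∀ g h, ψ (g * h) = ψ g + ψ h)
    (hpow : ∀ g, ψ g ≠ 0 → ∃ m : ℕ, g ^ m = z) :
    ∃ ρ : V → F, ∀ (g : Γ) (v : V), φ z v ≠ v → ρ (φ g v) = ψ g + ρ v := by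
  classical
  have hψ1 : ψ 1 = 0 := by
    have := hψ 1 1
    rw [mul_one] at this
    exact left_eq_add.1 this
  have hψinv : ∀ g, ψ g⁻¹ = - ψ g := by
    intro g
    have := hψ g⁻¹ g
    rw [inv_mul_cancel, hψ1] at this
    exact eq_neg_of_add_eq_zero_left this.symm
  let r : Setoid V :=
    { r := fun u v => ∃ g : Γ, φ g u = v
      iseqv := by
        refine ⟨fun u => ⟨1, by simp⟩, ?_, ?_⟩
        · rintro u v ⟨g, rfl⟩
          exact ⟨g⁻¹, by simp⟩
        · rintro u v w ⟨g, rfl⟩ ⟨h, rfl⟩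
          exact ⟨h * g, by simp⟩ }
  have hex : ∀ v : V, ∃ g : Γ, φ g (Quotient.out (Quotient.mk r v)) = v := by
    intro v
    exact Quotient.exact (Quotient.out_eq (Quotient.mk r v))
  choose γ hγ using hex
  refine ⟨fun v => ψ (γ v), ?_⟩
  intro g v hv
  have hq : Quotient.mk r (φ g v) = Quotient.mk r v := by
    apply Quotient.sound
    exact ⟨g⁻¹, by simp⟩
  set b := Quotient.out (Quotient.mk r v) with hb
  have e1 : φ (γ (φ g v)) b = φ g v := by
    have := hγ (φ g v)
    rw [hq] at this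
    exact this
  have e2 : φ (γ v) b = v := hγ v
  have hbm : φ z b ≠ b := by
    have : φ z (φ (γ v) b) ≠ φ (γ v) b := by rw [e2]; exact hv
    exact (moved_apply hzc (γ v) b).1 this
  have hstab : ∀ s : Γ, φ s b = b → ψ s = 0 := by
    intro s hs
    by_contra hne
    obtain ⟨m, hm⟩ := hpow s hne
    apply hbm
    rw [← hm, map_pow]
    have : ∀ m : ℕ, ((φ s) ^ m) b = b := by
      intro m
      induction m with
      | zero => simp
      | succ k ih => rw [pow_succ, Equiv.Perm.mul_apply, hs, ih]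
    exact this m
  have hs : φ ((γ v)⁻¹ * (g⁻¹ * γ (φ g v))) b = b := by
    have hi : ∀ (h : Γ) (x : V), φ h⁻¹ (φ h x) = x := by
      intro h x
      rw [← Equiv.Perm.mul_apply, ← map_mul, inv_mul_cancel, map_one, Equiv.Perm.one_apply]
    simp only [map_mul, Equiv.Perm.mul_apply, e1]
    rw [hi g v]
    have h3 := hi (γ v) b
    rw [e2] at h3
    exact h3
  have h0 := hstab _ hs
  rw [hψ, hψ, hψinv, hψinv] at h0
  have : ψ (γ (φ g v)) = ψ g + ψ (γ v) := by
    have h00 : ψ (γ (φ g v)) - (ψ g + ψ (γ v)) = 0 := by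
      rw [← h0]; abel
    exact sub_eq_zero.1 h00
  exact this

theorem main_bound [Finite V] [Finite Γ] [Finite F] [Module (ZMod 2) F]
    (hz1 : z ≠ 1) (hz2 : z * z = 1) (hzc : ∀ g : Γ, z * g = g * z)
    (hinj : Function.Injective φ)
    (hE : ∀ (g : Γ) x y, E (φ g x) (φ g y) ↔ E x y)
    (hfull : ∀ σ : Equiv.Perm V, (∀ x y, E (σ x) (σ y) ↔ E x y) → ∃ t : Γ, φ t = σ)
    (ψ : Γ → F) (hψ : ∀ g h, ψ (g * h) = ψ g + ψ h)
    (hψz : ψ z = 0) (hsurj : Function.Surjective ψ)
    (hpow : ∀ g, ψ g ≠ 0 → ∃ m : ℕ, g ^ m = z)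
    (S : Finset (V × V))
    (hS : ∀ x y, E x y → ∃ g : Γ, ∃ p ∈ S,
      (φ g p.1 = x ∧ φ g p.2 = y) ∨ (φ g p.1 = y ∧ φ g p.2 = x)) :
    ∃ m : ℕ, 2 ^ m ≤ Nat.card Γ ∧ Nat.card F ≤ 2 ^ S.card * m := by
  classical
  have := Fintype.ofFinite V
  have := Fintype.ofFinite Γ
  have := Fintype.ofFinite F
  -- a moved point
  obtain ⟨v₀, hv₀⟩ : ∃ v₀, φ z v₀ ≠ v₀ := by
    by_contra hcon
    push Not at hcon
    apply hz1
    apply hinj
    rw [map_one]
    ext v
    simp [hcon v]
  obtain ⟨ρ, hρ⟩ := exists_potential (V := V) (φ := φ) hzc ψ hψ hpow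
  let E₀ : Submodule (ZMod 2) F :=
    Submodule.span (ZMod 2) ((S.image fun p => ρ p.1 - ρ p.2 : Finset F) : Set F)
  have hE₀ : Nat.card E₀ ≤ 2 ^ S.card := by
    have h1 : Module.finrank (ZMod 2) E₀ ≤ (S.image fun p => ρ p.1 - ρ p.2).card :=
      finrank_span_finset_le_card _
    have h2 : (S.image fun p => ρ p.1 - ρ p.2).card ≤ S.card := Finset.card_image_le
    have h3 : Nat.card E₀ = Nat.card (ZMod 2) ^ Module.finrank (ZMod 2) E₀ :=
      Module.natCard_eq_pow_finrank
    rw [h3, Nat.card_zmod]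
    exact Nat.pow_le_pow_right (by norm_num) (h1.trans h2)
  have hstep : ∀ x y, Step E φ z x y → ρ x - ρ y ∈ E₀ := by
    intro x y hxy
    have key : ∀ x y, E x y → φ z x ≠ x → φ z y ≠ y → ρ x - ρ y ∈ E₀ := by
      intro x y hxy hx hy
      obtain ⟨g, p, hp, h⟩ := hS x y hxy
      have hmem : ρ p.1 - ρ p.2 ∈ E₀ := by
        apply Submodule.subset_span
        simp only [Finset.coe_image, Set.mem_image, Finset.mem_coe]
        exact ⟨p, hp, rfl⟩
      rcases h with ⟨h1, h2⟩ | ⟨h1, h2⟩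
      · rw [← h1] at hx
        rw [← h2] at hy
        have m1 := (moved_apply hzc g p.1).1 hx
        have m2 := (moved_apply hzc g p.2).1 hy
        rw [← h1, ← h2, hρ g _ m1, hρ g _ m2, add_sub_add_left_eq_sub]
        exact hmem
      · rw [← h1] at hy
        rw [← h2] at hx
        have m1 := (moved_apply hzc g p.1).1 hy
        have m2 := (moved_apply hzc g p.2).1 hx
        rw [← h1, ← h2, hρ g _ m1, hρ g _ m2, add_sub_add_left_eq_sub, ← neg_sub]
        exact E₀.neg_mem hmem
    obtain ⟨h1 | h1, h2, h3⟩ := hxy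
    · exact key x y h1 h2 h3
    · rw [← neg_sub]
      exact E₀.neg_mem (key y x h1 h3 h2)
  have hreach : ∀ x y, Reach E φ z x y → ρ x - ρ y ∈ E₀ := by
    intro x y h
    induction h with
    | refl => simp
    | tail _ h2 ih =>
      have := E₀.add_mem ih (hstep _ _ h2)
      rwa [sub_add_sub_cancel] at this
  let cs := comp hE hzc hz2
  choose s hs using hsurj
  let c : F → Quotient cs := fun a => Quotient.mk cs (φ (s a) v₀)
  have hcmoved : ∀ a, φ z (φ (s a) v₀) ≠ φ (s a) v₀ := fun a => (moved_apply hzc _ _).2 hv₀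
  have hfib : ∀ a b, c a = c b → a - b ∈ E₀ := by
    intro a b hab
    have hab' : cs.r (φ (s a) v₀) (φ (s b) v₀) := Quotient.exact hab
    have e1 : ρ (φ (s a) v₀) = a + ρ v₀ := by rw [hρ _ _ hv₀, hs]
    have e2 : ρ (φ (s b) v₀) = b + ρ v₀ := by rw [hρ _ _ hv₀, hs]
    rcases hab' with h | h
    · have := hreach _ _ h
      rwa [e1, e2, add_sub_add_right_eq_sub] at this
    · have := hreach _ _ h
      rwa [hρ _ _ (hcmoved b), hψz, zero_add, e1, e2, add_sub_add_right_eq_sub] at this
  let 𝒟 : Finset (Quotient cs) := Finset.univ.image c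
  refine ⟨𝒟.card, ?_, ?_⟩
  · -- 2^m ≤ |Γ|
    have hex : ∀ T : Finset (Quotient cs), T ⊆ 𝒟 → ∃ t : Γ,
        (∀ v, Quotient.mk cs v ∈ T → φ t v = φ z v) ∧
        (∀ v, Quotient.mk cs v ∉ T → φ t v = v) := by
      intro T hT
      have hmov : ∀ v, Quotient.mk cs v ∈ T → φ z v ≠ v := by
        intro v hv
        have := hT hv
        simp only [𝒟, Finset.mem_image, Finset.mem_univ, true_and] at this
        obtain ⟨a, ha⟩ := this
        exact comp_moved hE hzc hz2 (Quotient.exact ha) (hcmoved a)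
      obtain ⟨t, ht1, ht2⟩ := exists_partial hz2 hzc hE hfull {v | Quotient.mk cs v ∈ T}
        (fun v hv => hmov v hv)
        (by
          intro v hv
          have : Quotient.mk cs (φ z v) = Quotient.mk cs v := by
            apply Quotient.sound
            exact Or.inr ReflTransGen.refl
          change Quotient.mk cs (φ z v) ∈ T
          rw [this]; exact hv)
        (by
          intro v w hv hvw
          have : Quotient.mk cs w = Quotient.mk cs v := by
            apply Quotient.sound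
            exact Or.inl (ReflTransGen.single hvw.symm)
          change Quotient.mk cs w ∈ T
          rw [this]; exact hv)
      exact ⟨t, ht1, ht2⟩
    choose! f hf1 hf2 using hex
    have hcard : (𝒟.powerset).card ≤ (Finset.univ : Finset Γ).card := by
      apply Finset.card_le_card_of_injOn f (fun _ _ => Finset.mem_univ _)
      have hsub : ∀ T T' : Finset (Quotient cs), T ⊆ 𝒟 → T' ⊆ 𝒟 → f T = f T' → T ⊆ T' := by
        intro T T' hT hT' hTT q hq
        have := hT hq
        simp only [𝒟, Finset.mem_image, Finset.mem_univ, true_and] at this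
        obtain ⟨a, ha⟩ := this
        by_contra hcon
        rw [← ha] at hq hcon
        have e1 := hf1 T hT (φ (s a) v₀) hq
        have e2 := hf2 T' hT' (φ (s a) v₀) hcon
        rw [hTT] at e1
        exact hcmoved a (e1.symm.trans e2)
      intro T hT T' hT' hTT
      simp only [Finset.coe_powerset, Set.mem_preimage, Set.mem_powerset_iff,
        Finset.coe_subset] at hT hT'
      exact Finset.Subset.antisymm (hsub T T' hT hT' hTT) (hsub T' T hT' hT hTT.symm)
    rw [Finset.card_powerset, Finset.card_univ] at hcard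
    rw [Nat.card_eq_fintype_card]
    exact hcard
  · -- |F| ≤ |E₀| * m
    have hfc : ∀ q ∈ 𝒟, (Finset.univ.filter fun a => c a = q).card ≤ 2 ^ S.card := by
      intro q hq
      simp only [𝒟, Finset.mem_image, Finset.mem_univ, true_and] at hq
      obtain ⟨b, hb⟩ := hq
      refine le_trans ?_ hE₀
      rw [Nat.card_eq_fintype_card, ← Finset.card_univ (α := E₀)]
      apply Finset.card_le_card_of_injOn
        (fun a => if h : a - b ∈ E₀ then (⟨a - b, h⟩ : E₀) else 0)
        (fun _ _ => Finset.mem_univ _)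
      intro a ha a' ha' haa
      simp only [Finset.coe_filter, Finset.mem_univ, true_and, Set.mem_ofPred_eq] at ha ha'
      have h1 : a - b ∈ E₀ := hfib a b (by rw [ha, hb])
      have h2 : a' - b ∈ E₀ := hfib a' b (by rw [ha', hb])
      simp only [h1, h2, dif_pos, Subtype.mk.injEq, sub_left_inj] at haa
      exact haa
    have := Finset.card_le_mul_card_image (f := c) (Finset.univ : Finset F) (2 ^ S.card) hfc
    rw [Finset.card_univ] at this
    rw [Nat.card_eq_fintype_card]
    exact this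

end Abstract

end Pool.Agent.Helper835.Key
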