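import Mathlib
import Pool.Agent.Helper835.Key
import Pool.Agent.Helper835.Grp

set_option autoImplicit false

namespace Pool.Agent.Helper835.EdgeOrbit

theorem arith (C : ℕ) : ∃ k : ℕ, ∀ s m : ℕ, s ≤ C →
    m ≤ 2 ^ (k + 1) * ((2 ^ (k + 1) + 1) * (2 ^ (k + 1) + 1)) →
    ¬ (2 ^ 2 ^ (k + 1) ≤ 2 ^ s * m) := by
  refine ⟨C + 6, ?_⟩
  intro s m hs hm hcon
  set n := 2 ^ (C + 6 + 1) with hn
  have hn1 : 1 ≤ n := Nat.one_le_two_pow
  have h1 : m ≤ n * ((2 * n) * (2 * n)) := by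
    refine hm.trans ?_
    apply Nat.mul_le_mul_left
    apply Nat.mul_le_mul <;> omega
  have h2 : n * ((2 * n) * (2 * n)) = 2 ^ (3 * (C + 6 + 1) + 2) := by
    have e : 2 ^ (3 * (C + 6 + 1) + 2) = (2 ^ (C + 6 + 1)) ^ 3 * 4 := by
      rw [pow_add, mul_comm 3, pow_mul]
      norm_num
    rw [e, ← hn]
    ring
  have h3 : 2 ^ s * m ≤ 2 ^ (C + (3 * (C + 6 + 1) + 2)) := by
    rw [pow_add]
    apply Nat.mul_le_mul
    · exact Nat.pow_le_pow_right (by norm_num) hs
    · rw [← h2]; exact h1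
  have h4 : C + (3 * (C + 6 + 1) + 2) < n := by
    have : C + 1 ≤ 2 ^ C := Nat.lt_two_pow_self
    rw [hn, pow_add, pow_add]
    norm_num
    omega
  have h5 : 2 ^ (C + (3 * (C + 6 + 1) + 2)) < 2 ^ n := Nat.pow_lt_pow_right (by norm_num) h4
  omega

/-- For every `C` there is a finite group `G` such that every faithful action of `G` on a finite
set `V` whose image is the full automorphism group of a binary relation `E` on `V` has the property
that every set `S` of pairs meeting every orbit of `E`-pairs (up to reversing the pair) has more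
than `C` elements. -/
theorem main (C : ℕ) : ∃ (G : Type) (_ : Group G) (_ : Finite G),
    ∀ (V : Type) [Finite V] (E : V → V → Prop) (φ : G →* Equiv.Perm V),
      Function.Injective φ →
      (∀ (g : G) x y, E (φ g x) (φ g y) ↔ E x y) →
      (∀ σ : Equiv.Perm V, (∀ x y, E (σ x) (σ y) ↔ E x y) → ∃ t : G, φ t = σ) →
      ∀ S : Finset (V × V),
        (∀ x y, E x y → ∃ g : G, ∃ p ∈ S,
          (φ g p.1 = x ∧ φ g p.2 = y) ∨ (φ g p.1 = y ∧ φ g p.2 = x)) →
        C < S.card := by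
  obtain ⟨k, hk⟩ := arith C
  obtain ⟨G, hG, hGf, F, hF, hFm, hFf, ψ, z, h1, h2, h3, h4, h5, h6, h7, h8, h9⟩ :=
    Grp.exists_group k
  refine ⟨G, hG, hGf, ?_⟩
  intro V _ E φ hinj hE hfull S hS
  by_contra hcon
  push Not at hcon
  obtain ⟨m, hm1, hm2⟩ := Key.main_bound (V := V) (E := E) (φ := φ) (z := z)
    h2 h3 h4 hinj hE hfull ψ h1 h5 h6 h7 S hS
  have hm3 : m ≤ 2 ^ (k + 1) * ((2 ^ (k + 1) + 1) * (2 ^ (k + 1) + 1)) := by
    have := hm1.trans h9
    exact (Nat.pow_le_pow_iff_right (by norm_num)).1 this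
  rw [h8] at hm2
  exact hk S.card m hcon hm3 hm2

end Pool.Agent.Helper835.EdgeOrbit
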