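import Mathlib
import Pool.Agent.Helper835.Chain

set_option autoImplicit false

namespace Pool.Agent.Helper835.Lv

open Pool.Agent.Helper835.Chain

variable {G : Type} [Group G]

/-- `Gen A B K w`: the subgroup `K` is generated by elements attached to a chain of pairs of
subgroups above `(A, B)`, of total weight `w`. -/
inductive Gen : Subgroup G → Subgroup G → Subgroup G → ℕ → Prop
  | nil (A B : Subgroup G) : Gen A B ⊥ 0
  | cons {A B A' B' K : Subgroup G} {w : ℕ} (y : G) (hA : A ≤ A') (hB : B ≤ B')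
      (hAB : A' ⊓ B' = ⊥) (h1 : ∀ h ∈ A', y * h = h * y) (h2 : ∀ h ∈ B', y * h = h * y)
      (hg : Gen A' B' K w) : Gen A B (K ⊔ Subgroup.zpowers y) (w + (A'.index + B'.index))

theorem Gen.mono {A B A₁ B₁ K : Subgroup G} {w : ℕ} (h : Gen A B K w) (hA : A₁ ≤ A)
    (hB : B₁ ≤ B) : Gen A₁ B₁ K w := by
  cases h with
  | nil => exact Gen.nil _ _
  | cons y hA' hB' hAB h1 h2 hg => exact Gen.cons y (hA.trans hA') (hB.trans hB') hAB h1 h2 hg

theorem Gen.symm {A B K : Subgroup G} {w : ℕ} (h : Gen A B K w) : Gen B A K w := by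
  induction h with
  | nil => exact Gen.nil _ _
  | @cons A B A' B' K w y hA' hB' hAB h1 h2 hg ih =>
    rw [add_comm A'.index]
    exact Gen.cons y hB' hA' (by rw [inf_comm]; exact hAB) h2 h1 ih

/-- prepending a pair of subgroups -/
def cH (A B : Subgroup G) (H : Fin 2 → ℕ → Subgroup G) : Fin 2 → ℕ → Subgroup G :=
  fun i t => match t with
    | 0 => ![A, B] i
    | t + 1 => H i t

/-- prepending an element -/
def cY (y : G) (Y : ℕ → G) : ℕ → G :=
  fun t => match t with
    | 0 => y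
    | t + 1 => Y t

/-- unpacked data -/
structure Pre (n : ℕ) (H : Fin 2 → ℕ → Subgroup G) (Y : ℕ → G) (K : Subgroup G) (w : ℕ) :
    Prop where
  mono : ∀ i t, t + 1 < n → H i t ≤ H i (t + 1)
  disj : ∀ t, t < n → H 0 t ⊓ H 1 t = ⊥
  comm : ∀ i t, t < n → ∀ h ∈ H i t, Y t * h = h * Y t
  gen : Subgroup.closure (Y '' {t | t < n}) = K
  wt : ∑ t ∈ Finset.range n, ((H 0 t).index + (H 1 t).index) = w

theorem Pre.cons {n : ℕ} {H : Fin 2 → ℕ → Subgroup G} {Y : ℕ → G} {K : Subgroup G} {w : ℕ}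
    (h : Pre n H Y K w) {A B : Subgroup G} {y : G} (hlow : 0 < n → A ≤ H 0 0 ∧ B ≤ H 1 0)
    (hAB : A ⊓ B = ⊥) (h1 : ∀ h ∈ A, y * h = h * y) (h2 : ∀ h ∈ B, y * h = h * y) :
    Pre (n + 1) (cH A B H) (cY y Y) (K ⊔ Subgroup.zpowers y) (w + (A.index + B.index)) := by
  refine ⟨?_, ?_, ?_, ?_, ?_⟩
  · intro i t ht
    rcases t with _ | t
    · have := hlow (by omega)
      fin_cases i
      · exact this.1
      · exact this.2
    · exact h.mono i t (by omega)
  · intro t ht
    rcases t with _ | t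
    · exact hAB
    · exact h.disj t (by omega)
  · intro i t ht
    rcases t with _ | t
    · fin_cases i
      · exact h1
      · exact h2
    · exact h.comm i t (by omega)
  · have himg : cY y Y '' {t | t < n + 1} = (Y '' {t | t < n}) ∪ {y} := by
      ext g
      constructor
      · rintro ⟨t, ht, rfl⟩
        rcases t with _ | t
        · exact Or.inr rfl
        · exact Or.inl ⟨t, Nat.lt_of_succ_lt_succ ht, rfl⟩
      · rintro (⟨t, ht, rfl⟩ | h)
        · exact ⟨t + 1, Nat.succ_lt_succ ht, rfl⟩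
        · exact ⟨0, Nat.succ_pos n, h.symm⟩
    rw [himg, Subgroup.closure_union, h.gen, Subgroup.zpowers_eq_closure]
  · rw [Finset.sum_range_succ']
    have : ∑ k ∈ Finset.range n, ((cH A B H 0 (k + 1)).index + (cH A B H 1 (k + 1)).index) = w :=
      h.wt
    rw [this]
    rfl

theorem Gen.toPre {A B K : Subgroup G} {w : ℕ} (h : Gen A B K w) :
    ∃ n H Y, Pre n H Y K w ∧ (0 < n → A ≤ H 0 0 ∧ B ≤ H 1 0) := by
  induction h with
  | nil A B =>
    refine ⟨0, fun _ _ => ⊥, fun _ => 1, ⟨?_, ?_, ?_, ?_, ?_⟩, ?_⟩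
    · intro i t ht; omega
    · intro t ht; omega
    · intro i t ht; omega
    · have : {t : ℕ | t < 0} = ∅ := by ext t; simp
      rw [this, Set.image_empty, Subgroup.closure_empty]
    · simp
    · intro h; omega
  | @cons A B A' B' K w y hA' hB' hAB h1 h2 hg ih =>
    obtain ⟨n, H, Y, hp, hlow⟩ := ih
    exact ⟨n + 1, cH A' B' H, cY y Y, hp.cons hlow hAB h1 h2, fun _ => ⟨hA', hB'⟩⟩

theorem Gen.toData [Finite G] {K : Subgroup G} {w : ℕ} (h : Gen ⊥ ⊥ K w) :
    ∃ (T : ℕ) (H : Fin 2 → ℕ → Subgroup G) (Y : ℕ → G), Data T H Y ∧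
      Subgroup.closure (Y '' {t | t ≤ T}) = K ∧
      ∑ t ∈ Finset.range (T + 1), ((H 0 t).index + (H 1 t).index) = w + 2 * Nat.card G := by
  obtain ⟨n, H, Y, hp, hlow⟩ := h.toPre
  have hc := hp.cons (A := ⊥) (B := ⊥) (y := 1) (fun _ => ⟨bot_le, bot_le⟩) (by simp)
    (by simp) (by simp)
  refine ⟨n, cH ⊥ ⊥ H, cY 1 Y, ⟨?_, ?_, ?_, ?_⟩, ?_, ?_⟩
  · intro i
    fin_cases i
    · rfl
    · rfl
  · intro i t ht
    exact hc.mono i t (by omega)
  · intro t ht
    exact hc.disj t (by omega)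
  · intro i t ht
    exact hc.comm i t (by omega)
  · have : {t | t ≤ n} = {t | t < n + 1} := by
      ext t
      exact Nat.lt_succ_iff.symm
    rw [this, hc.gen, Subgroup.zpowers_one_eq_bot, sup_bot_eq]
  · rw [hc.wt, Subgroup.index_bot]
    ring

/-- adding generators above a subgroup -/
theorem Gen.extend [Finite G] {A B C : Subgroup G} (hAB : A ⊓ B = ⊥)
    (h1 : ∀ c ∈ C, ∀ h ∈ A, c * h = h * c) (h2 : ∀ c ∈ C, ∀ h ∈ B, c * h = h * c) (m : ℕ)
    {A' B' K : Subgroup G} {w : ℕ} (hA : A ≤ A') (hB : B ≤ B') (hK : K ≤ C)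
    (hm : K.relIndex C ≤ 2 ^ m) (h : Gen A' B' K w) :
    ∃ w', w' ≤ w + m * (A.index + B.index) ∧ Gen A B C w' := by
  induction m generalizing A' B' K w with
  | zero =>
    refine ⟨w, by omega, ?_⟩
    have h3 : K.relIndex C ≠ 0 :=
      (Subgroup.index_ne_zero_of_finite : (K.subgroupOf C).index ≠ 0)
    have h4 : K.relIndex C = 1 := by rw [pow_zero] at hm; omega
    rw [Subgroup.relIndex_eq_one] at h4
    rw [le_antisymm h4 hK]
    exact h.mono hA hB
  | succ m ih =>
    by_cases hKC : K = C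
    · refine ⟨w, Nat.le_add_right _ _, ?_⟩
      rw [← hKC]
      exact h.mono hA hB
    · obtain ⟨y, hyC, hyK⟩ : ∃ y ∈ C, y ∉ K := by
        by_contra hcon
        push Not at hcon
        exact hKC (le_antisymm hK hcon)
      have hle : K ⊔ Subgroup.zpowers y ≤ C :=
        sup_le hK ((Subgroup.zpowers_le).2 hyC)
      have hg : Gen A B (K ⊔ Subgroup.zpowers y) (w + (A.index + B.index)) :=
        Gen.cons y le_rfl le_rfl hAB (h1 y hyC) (h2 y hyC) (h.mono hA hB)
      have hrel := Subgroup.relIndex_mul_relIndex K (K ⊔ Subgroup.zpowers y) C le_sup_left hle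
      have h5 : K.relIndex (K ⊔ Subgroup.zpowers y) ≠ 1 := by
        rw [Ne, Subgroup.relIndex_eq_one]
        intro h6
        exact hyK (h6 ((le_sup_right : _ ≤ K ⊔ Subgroup.zpowers y)
          (Subgroup.mem_zpowers y)))
      have h6 : K.relIndex (K ⊔ Subgroup.zpowers y) ≠ 0 :=
        (Subgroup.index_ne_zero_of_finite : (K.subgroupOf (K ⊔ Subgroup.zpowers y)).index ≠ 0)
      have h7 : 2 * (K ⊔ Subgroup.zpowers y).relIndex C ≤ 2 ^ (m + 1) := by
        refine le_trans ?_ hm
        rw [← hrel]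
        exact Nat.mul_le_mul_right _ (by omega)
      have h8 : (K ⊔ Subgroup.zpowers y).relIndex C ≤ 2 ^ m := by
        rw [pow_succ] at h7
        omega
      obtain ⟨w', hw', hg'⟩ := ih le_rfl le_rfl hle h8 hg
      refine ⟨w', ?_, hg'⟩
      refine hw'.trans (le_of_eq ?_)
      ring

/-- generating a subgroup by a finite set -/
theorem Gen.ofFinset [Finite G] {A B : Subgroup G} (hAB : A ⊓ B = ⊥) (X : Finset G)
    (h1 : ∀ c ∈ X, ∀ h ∈ A, c * h = h * c) (h2 : ∀ c ∈ X, ∀ h ∈ B, c * h = h * c) :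
    Gen A B (Subgroup.closure (X : Set G)) (X.card * (A.index + B.index)) := by
  classical
  induction X using Finset.induction_on with
  | empty =>
    rw [Finset.coe_empty, Subgroup.closure_empty, Finset.card_empty, zero_mul]
    exact Gen.nil _ _
  | insert x X hx ih =>
    have := ih (fun c hc => h1 c (Finset.mem_insert_of_mem hc))
      (fun c hc => h2 c (Finset.mem_insert_of_mem hc))
    have h3 := Gen.cons x le_rfl le_rfl hAB (h1 x (Finset.mem_insert_self _ _))
      (h2 x (Finset.mem_insert_self _ _)) this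
    have e1 : Subgroup.closure (X : Set G) ⊔ Subgroup.zpowers x =
        Subgroup.closure ((insert x X : Finset G) : Set G) := by
      rw [Finset.coe_insert, Set.insert_eq, Subgroup.closure_union, sup_comm,
        Subgroup.zpowers_eq_closure]
    have e2 : X.card * (A.index + B.index) + (A.index + B.index) =
        (insert x X).card * (A.index + B.index) := by
      rw [Finset.card_insert_of_notMem hx]
      ring
    rw [← e1, ← e2]
    exact h3

end Pool.Agent.Helper835.Lv
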