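import Mathlib
import Pool.Agent.Helper835.Key

set_option autoImplicit false

namespace Pool.Agent.Helper835.InfGraph

open Relation Cardinal
open Pool.Agent.Helper835.Key

variable {V Γ : Type} [Group Γ] {E : V → V → Prop} {φ : Γ →* Equiv.Perm V} {z : Γ}

theorem inv_apply' (g : Γ) (x : V) : φ g⁻¹ (φ g x) = x := by
  rw [← Equiv.Perm.mul_apply, ← map_mul, inv_mul_cancel, map_one, Equiv.Perm.one_apply]

theorem apply_inv' (g : Γ) (x : V) : φ g (φ g⁻¹ x) = x := by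
  rw [← Equiv.Perm.mul_apply, ← map_mul, mul_inv_cancel, map_one, Equiv.Perm.one_apply]

/-- If the pairs of a relation with full automorphism group `Γ` are covered by the translates of
the pairs in `S`, then `Γ` is generated by few commutative subsets. -/
theorem generated (θ : Cardinal.{0}) (hθ : ℵ₀ ≤ θ)
    (hz1 : z ≠ 1) (hz2 : z * z = 1) (hzc : ∀ g : Γ, z * g = g * z)
    (hcomm : ∀ g h : Γ, g * h = h * g ∨ g * h = z * (h * g))
    (hinj : Function.Injective φ)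
    (hE : ∀ (g : Γ) x y, E (φ g x) (φ g y) ↔ E x y)
    (hfull : ∀ σ : Equiv.Perm V, (∀ x y, E (σ x) (σ y) ↔ E x y) → ∃ t : Γ, φ t = σ)
    (S : Set (V × V)) (hScard : #S ≤ θ)
    (hS : ∀ x y, E x y → ∃ g : Γ, ∃ p ∈ S,
      (φ g p.1 = x ∧ φ g p.2 = y) ∨ (φ g p.1 = y ∧ φ g p.2 = x)) :
    ∃ (J : Type) (P : J → Set Γ), #J ≤ θ ∧ (∀ j, ∀ g ∈ P j, ∀ h ∈ P j, g * h = h * g) ∧
      Subgroup.closure (⋃ j, P j) = ⊤ := by
  classical
  -- a moved point
  obtain ⟨v₀, hv₀⟩ : ∃ v₀, φ z v₀ ≠ v₀ := by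
    by_contra hcon
    push Not at hcon
    apply hz1
    apply hinj
    rw [map_one]
    ext v
    simp [hcon v]
  let D : V → Prop := fun v => Reach E φ z v₀ v
  have hDmoved : ∀ v, D v → φ z v ≠ v := fun v hv => Reach.moved hv hv₀
  -- the partial automorphism
  obtain ⟨t₀, ht1, ht2⟩ := exists_partial hz2 hzc hE hfull {v | (comp hE hzc hz2).r v₀ v}
    (fun v hv => comp_moved hE hzc hz2 hv hv₀)
    (by
      intro v hv
      exact (comp hE hzc hz2).iseqv.trans hv ((comp hE hzc hz2).iseqv.symm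
        (Or.inr ReflTransGen.refl : (comp hE hzc hz2).r (φ z v) v)))
    (by
      intro v w hv hvw
      exact (comp hE hzc hz2).iseqv.trans hv
        (Or.inl (ReflTransGen.single hvw) : (comp hE hzc hz2).r v _))
  have hv₀D : v₀ ∈ {v | (comp hE hzc hz2).r v₀ v} := Or.inl ReflTransGen.refl
  have hK : ∀ g : Γ, g * t₀ = t₀ * g → D (φ g v₀) ∨ D (φ (z * g) v₀) := by
    intro g hg
    have h1 : φ t₀ (φ g v₀) = φ z (φ g v₀) := by
      rw [← Equiv.Perm.mul_apply, ← map_mul, ← hg, map_mul, Equiv.Perm.mul_apply,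
        ht1 v₀ hv₀D, comm_apply hzc]
    by_cases hmem : φ g v₀ ∈ {v | (comp hE hzc hz2).r v₀ v}
    · rcases hmem with h | h
      · exact Or.inl h
      · right
        rw [map_mul, Equiv.Perm.mul_apply]
        exact h
    · exfalso
      rw [ht2 _ hmem] at h1
      exact (moved_apply hzc g v₀).2 hv₀ h1.symm
  obtain ⟨a, ha⟩ : ∃ a : Γ, ∀ g : Γ, g * t₀ = t₀ * g ∨ (a⁻¹ * g) * t₀ = t₀ * (a⁻¹ * g) := by
    by_cases hall : ∀ g : Γ, g * t₀ = t₀ * g
    · exact ⟨1, fun g => Or.inl (hall g)⟩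
    · push Not at hall
      obtain ⟨a, ha⟩ := hall
      refine ⟨a, fun g => ?_⟩
      by_cases hg : g * t₀ = t₀ * g
      · exact Or.inl hg
      · right
        have ha' : a * t₀ = z * (t₀ * a) := (hcomm a t₀).resolve_left ha
        have hg' : g * t₀ = z * (t₀ * g) := (hcomm g t₀).resolve_left hg
        have e1 : t₀ * a⁻¹ = z * (a⁻¹ * t₀) := by
          have e2 : a⁻¹ * (a * t₀) * a⁻¹ = a⁻¹ * (z * (t₀ * a)) * a⁻¹ := by rw [ha']
          rw [← mul_assoc a⁻¹ a t₀, inv_mul_cancel, one_mul] at e2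
          rw [e2, ← mul_assoc a⁻¹ z, ← hzc a⁻¹]
          simp only [mul_assoc, mul_inv_cancel, mul_one]
        calc a⁻¹ * g * t₀ = a⁻¹ * (g * t₀) := mul_assoc _ _ _
          _ = a⁻¹ * (z * (t₀ * g)) := by rw [hg']
          _ = (z * (a⁻¹ * t₀)) * g := by
              rw [← mul_assoc a⁻¹ z, ← hzc a⁻¹]
              simp only [mul_assoc]
          _ = t₀ * a⁻¹ * g := by rw [e1]
          _ = t₀ * (a⁻¹ * g) := mul_assoc _ _ _
  -- the finite or small set of base points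
  have hk : ∀ p : V × V, ∃ k : Γ, (∃ k' : Γ, D (φ k' p.1) ∧ D (φ k' p.2)) →
      D (φ k p.1) ∧ D (φ k p.2) := by
    intro p
    by_cases h : ∃ k' : Γ, D (φ k' p.1) ∧ D (φ k' p.2)
    · obtain ⟨k, hk⟩ := h
      exact ⟨k, fun _ => hk⟩
    · exact ⟨1, fun h' => absurd h' h⟩
  choose k hk using hk
  let ι := Option (S ⊕ S)
  let τ : ι → V := fun i => match i with
    | none => v₀
    | some (Sum.inl p) => if D (φ (k p.1) p.1.1) then φ (k p.1) p.1.1 else v₀
    | some (Sum.inr p) => if D (φ (k p.1) p.1.2) then φ (k p.1) p.1.2 else v₀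
  have hτ : ∀ i, D (τ i) := by
    intro i
    rcases i with _ | (p | p)
    · exact ReflTransGen.refl
    · change D (if D (φ (k p.1) p.1.1) then φ (k p.1) p.1.1 else v₀)
      split_ifs with h
      · exact h
      · exact ReflTransGen.refl
    · change D (if D (φ (k p.1) p.1.2) then φ (k p.1) p.1.2 else v₀)
      split_ifs with h
      · exact h
      · exact ReflTransGen.refl
  have hγ : ∀ i i' : ι, ∃ γ : Γ, (∃ γ' : Γ, φ γ' (τ i) = τ i') → φ γ (τ i) = τ i' := by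
    intro i i'
    by_cases h : ∃ γ' : Γ, φ γ' (τ i) = τ i'
    · obtain ⟨γ, hγ⟩ := h
      exact ⟨γ, fun _ => hγ⟩
    · exact ⟨1, fun h' => absurd h' h⟩
  choose γ hγ using hγ
  let J := (ι ⊕ (ι × ι)) ⊕ (Unit ⊕ Unit)
  let P : J → Set Γ := fun j => match j with
    | Sum.inl (Sum.inl i) => {g | φ g (τ i) = τ i}
    | Sum.inl (Sum.inr q) => {γ q.1 q.2}
    | Sum.inr (Sum.inl _) => {a}
    | Sum.inr (Sum.inr _) => {z}
  let M := Subgroup.closure (⋃ j, P j)
  have hM : ∀ j, ∀ g ∈ P j, g ∈ M := fun j g hg =>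
    Subgroup.subset_closure (Set.mem_iUnion.2 ⟨j, hg⟩)
  have hMstab : ∀ i g, φ g (τ i) = τ i → g ∈ M := fun i g hg => hM (Sum.inl (Sum.inl i)) g hg
  have hMγ : ∀ i i', γ i i' ∈ M := fun i i' => hM (Sum.inl (Sum.inr (i, i'))) _ rfl
  have hMa : a ∈ M := hM (Sum.inr (Sum.inl ())) _ rfl
  have hMz : z ∈ M := hM (Sum.inr (Sum.inr ())) _ rfl
  have hmove : ∀ i i' n, φ n (τ i) = τ i' → n ∈ M := by
    intro i i' n hn
    have h1 := hγ i i' ⟨n, hn⟩
    have h2 : (γ i i')⁻¹ * n ∈ M := by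
      apply hMstab i
      rw [map_mul, Equiv.Perm.mul_apply, hn, ← h1, inv_apply']
    have := M.mul_mem (hMγ i i') h2
    rwa [mul_inv_cancel_left] at this
  have hcase : ∀ x y : V, E x y → D x → D y →
      ∃ (n : Γ) (ia ib : ι), φ n (τ ia) = x ∧ φ n (τ ib) = y := by
    intro x y hxy hx hy
    obtain ⟨g, p, hp, h⟩ := hS x y hxy
    have hDg : D (φ g p.1) ∧ D (φ g p.2) := by
      rcases h with ⟨h1, h2⟩ | ⟨h1, h2⟩
      · rw [h1, h2]; exact ⟨hx, hy⟩
      · rw [h1, h2]; exact ⟨hy, hx⟩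
    obtain ⟨d1, d2⟩ := hk p ⟨g, hDg⟩
    have e1 : τ (some (Sum.inl ⟨p, hp⟩)) = φ (k p) p.1 := if_pos d1
    have e2 : τ (some (Sum.inr ⟨p, hp⟩)) = φ (k p) p.2 := if_pos d2
    have f1 : φ (g * (k p)⁻¹) (τ (some (Sum.inl ⟨p, hp⟩))) = φ g p.1 := by
      rw [e1, map_mul, Equiv.Perm.mul_apply, inv_apply']
    have f2 : φ (g * (k p)⁻¹) (τ (some (Sum.inr ⟨p, hp⟩))) = φ g p.2 := by
      rw [e2, map_mul, Equiv.Perm.mul_apply, inv_apply']
    rcases h with ⟨h1, h2⟩ | ⟨h1, h2⟩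
    · exact ⟨g * (k p)⁻¹, some (Sum.inl ⟨p, hp⟩), some (Sum.inr ⟨p, hp⟩),
        f1.trans h1, f2.trans h2⟩
    · exact ⟨g * (k p)⁻¹, some (Sum.inr ⟨p, hp⟩), some (Sum.inl ⟨p, hp⟩),
        f2.trans h2, f1.trans h1⟩
  have hreach : ∀ w, D w → ∃ m ∈ M, ∃ i, w = φ m (τ i) := by
    intro w hw
    induction hw with
    | refl => exact ⟨1, M.one_mem, none, by simp [τ]⟩
    | @tail w' w'' h1 h2 ih =>
      obtain ⟨m, hm, i, hi⟩ := ih
      set u := φ m⁻¹ w'' with hu
      have hstep : Step E φ z (τ i) u := by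
        have := Step.map hE hzc m⁻¹ h2
        rwa [hi, inv_apply'] at this
      have hDu : D u := (hτ i).tail hstep
      obtain ⟨n, ia, ib, hn1, hn2⟩ : ∃ (n : Γ) (ia ib : ι), φ n (τ ia) = τ i ∧ φ n (τ ib) = u := by
        rcases hstep.1 with h | h
        · exact hcase _ _ h (hτ i) hDu
        · obtain ⟨n, ia, ib, h1, h2⟩ := hcase _ _ h hDu (hτ i)
          exact ⟨n, ib, ia, h2, h1⟩
      refine ⟨m * n, M.mul_mem hm (hmove ia i n hn1), ib, ?_⟩
      rw [map_mul, Equiv.Perm.mul_apply, hn2, hu, apply_inv']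
  have hDM : ∀ g : Γ, D (φ g v₀) → g ∈ M := by
    intro g hg
    obtain ⟨m, hm, i, hi⟩ := hreach _ hg
    have h1 : φ (m⁻¹ * g) (τ none) = τ i := by
      change φ (m⁻¹ * g) v₀ = τ i
      rw [map_mul, Equiv.Perm.mul_apply, hi, inv_apply']
    have := M.mul_mem hm (hmove none i _ h1)
    rwa [mul_inv_cancel_left] at this
  have hKM : ∀ g : Γ, g * t₀ = t₀ * g → g ∈ M := by
    intro g hg
    rcases hK g hg with h | h
    · exact hDM g h
    · have h1 := M.mul_mem hMz (hDM _ h)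
      rwa [← mul_assoc, hz2, one_mul] at h1
  refine ⟨J, P, ?_, ?_, ?_⟩
  · have hι : #ι ≤ θ := by
      change #(Option (S ⊕ S)) ≤ θ
      rw [mk_option, mk_sum, lift_id]
      exact add_le_of_le hθ (add_le_of_le hθ hScard hScard) (one_le_aleph0.trans hθ)
    have hιι : #(ι × ι) ≤ θ := by
      rw [mk_prod, lift_id]
      exact (mul_le_mul' hι hι).trans (mul_eq_self hθ).le
    have hu : #(Unit ⊕ Unit) ≤ θ := (lt_aleph0_of_finite _).le.trans hθ
    change #((ι ⊕ (ι × ι)) ⊕ (Unit ⊕ Unit)) ≤ θ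
    rw [mk_sum, lift_id, lift_id]
    refine add_le_of_le hθ ?_ hu
    rw [mk_sum, lift_id, lift_id]
    exact add_le_of_le hθ hι hιι
  · rintro ((i | q) | (_ | _)) g hg h hh
    · rcases hcomm g h with h1 | h1
      · exact h1
      · exfalso
        have hg' : φ g (τ i) = τ i := hg
        have hh' : φ h (τ i) = τ i := hh
        have h2 : φ (g * h) (τ i) = φ (z * (h * g)) (τ i) := by rw [h1]
        rw [map_mul, map_mul, map_mul, Equiv.Perm.mul_apply, Equiv.Perm.mul_apply,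
          Equiv.Perm.mul_apply, hh', hg', hh'] at h2
        exact hDmoved _ (hτ i) h2.symm
    · rw [Set.mem_singleton_iff.1 hg, Set.mem_singleton_iff.1 hh]
    · rw [Set.mem_singleton_iff.1 hg, Set.mem_singleton_iff.1 hh]
    · rw [Set.mem_singleton_iff.1 hg, Set.mem_singleton_iff.1 hh]
  · rw [eq_top_iff]
    intro g _
    rcases ha g with h | h
    · exact hKM g h
    · have := M.mul_mem hMa (hKM _ h)
      rwa [mul_inv_cancel_left] at this

end Pool.Agent.Helper835.InfGraph
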