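import Mathlib
import Pool.Agent.Helper835.Comb

set_option autoImplicit false

namespace Pool.Agent.Helper835.InfGroup

open Cardinal
open Pool.Agent.Helper835.Comb

section Ext

variable {V : Type} [AddCommGroup V] [Module (ZMod 2) V]

/-- central extension of `V` by `ZMod 2` with cocycle `B` -/
@[ext]
structure Ext (B : V →ₗ[ZMod 2] V →ₗ[ZMod 2] ZMod 2) where
  v : V
  s : ZMod 2

variable {B : V →ₗ[ZMod 2] V →ₗ[ZMod 2] ZMod 2}

instance : Mul (Ext B) := ⟨fun x y => ⟨x.v + y.v, x.s + y.s + B x.v y.v⟩⟩
instance : One (Ext B) := ⟨⟨0, 0⟩⟩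
instance : Inv (Ext B) := ⟨fun x => ⟨-x.v, -x.s + B x.v x.v⟩⟩

theorem mul_v (x y : Ext B) : (x * y).v = x.v + y.v := rfl
theorem mul_s (x y : Ext B) : (x * y).s = x.s + y.s + B x.v y.v := rfl
theorem one_v : (1 : Ext B).v = 0 := rfl
theorem one_s : (1 : Ext B).s = 0 := rfl
theorem inv_v (x : Ext B) : (x⁻¹).v = -x.v := rfl
theorem inv_s (x : Ext B) : (x⁻¹).s = -x.s + B x.v x.v := rfl

instance : Group (Ext B) :=
  Group.ofLeftAxioms
    (by
      intro x y w
      ext
      · simp only [mul_v]; abel
      · simp only [mul_s, mul_v, map_add, LinearMap.add_apply]; ring)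
    (by
      intro x
      ext
      · simp only [mul_v, one_v, zero_add]
      · simp only [mul_s, one_v, one_s, map_zero, LinearMap.zero_apply]; ring)
    (by
      intro x
      ext
      · simp only [mul_v, inv_v, one_v]; abel
      · simp only [mul_s, inv_v, inv_s, one_s, map_neg, LinearMap.neg_apply]; ring)

/-- the central involution -/
def zel : Ext B := ⟨0, 1⟩

theorem zel_ne : (zel : Ext B) ≠ 1 := by
  intro h
  have := congrArg Ext.s h
  exact one_ne_zero this

theorem zel_sq : (zel : Ext B) * zel = 1 := by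
  ext
  · simp only [mul_v, zel, one_v, add_zero]
  · simp only [mul_s, zel, one_s, map_zero, LinearMap.zero_apply]
    decide

theorem zel_central (g : Ext B) : zel * g = g * zel := by
  ext
  · simp only [mul_v, zel, add_zero, zero_add]
  · simp only [mul_s, zel, map_zero, LinearMap.zero_apply]
    ring

theorem comm_cases (g h : Ext B) : g * h = h * g ∨ g * h = zel * (h * g) := by
  have key : ∀ a b : ZMod 2, a = b ∨ a = 1 + b := by decide
  rcases key (B g.v h.v) (B h.v g.v) with e | e
  · left
    ext
    · simp only [mul_v]; abel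
    · simp only [mul_s, e]; ring
  · right
    ext
    · simp only [mul_v, zel]; abel
    · simp only [mul_s, mul_v, zel, e, map_zero, LinearMap.zero_apply]; ring

theorem comm_iff (g h : Ext B) : g * h = h * g → B g.v h.v = B h.v g.v := by
  intro e
  have := congrArg Ext.s e
  simp only [mul_s] at this
  have h2 : g.s + h.s = h.s + g.s := add_comm _ _
  rw [h2] at this
  exact add_left_cancel this

end Ext

variable {I A J : Type} [LinearOrder I] [LinearOrder A] {θ : Cardinal.{0}}

/-- the bilinear form -/
noncomputable def form (emb : I → A → Bool) :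
    (I →₀ ZMod 2) →ₗ[ZMod 2] (I →₀ ZMod 2) →ₗ[ZMod 2] ZMod 2 :=
  Finsupp.linearCombination (ZMod 2)
    (fun a => Finsupp.linearCombination (ZMod 2) (fun b => χ emb a b))

theorem coeff_one (v : I →₀ ZMod 2) (a : I) (ha : a ∈ v.support) : v a = 1 := by
  have key : ∀ x : ZMod 2, x ≠ 0 → x = 1 := by decide
  exact key _ (Finsupp.mem_support_iff.1 ha)

theorem lc_eq {M : Type} [AddCommMonoid M] [Module (ZMod 2) M] (v : I →₀ ZMod 2) (h : I → M) :
    Finsupp.linearCombination (ZMod 2) h v = ∑ a ∈ v.support, h a := by
  rw [Finsupp.linearCombination_apply, Finsupp.sum]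
  apply Finset.sum_congr rfl
  intro a ha
  rw [coeff_one v a ha, one_smul]

theorem form_eq (emb : I → A → Bool) (v w : I →₀ ZMod 2) :
    form emb v w = ∑ a ∈ v.support, ∑ b ∈ w.support, χ emb a b := by
  rw [form, lc_eq, LinearMap.sum_apply]
  apply Finset.sum_congr rfl
  intro a _
  rw [lc_eq]

theorem not_generated [Nonempty A] (hθ : ℵ₀ ≤ θ) (emb : I → A → Bool)
    (hemb : Function.Injective emb) [WellFoundedLT A]
    (hI : ¬ #(Set.univ : Set I) ≤ θ) (hIic : ∀ x : I, #(Set.Iic x) ≤ θ)
    (hA : #A ≤ θ) (hA2 : ∀ a : A, #(Set.Iic a → Bool) ≤ θ) (hJ : #J ≤ θ)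
    (P : J → Set (Ext (form emb)))
    (hP : ∀ j, ∀ g ∈ P j, ∀ h ∈ P j, g * h = h * g)
    (htop : Subgroup.closure (⋃ j, P j) = ⊤) : False := by
  classical
  let U : J → Submodule (ZMod 2) (I →₀ ZMod 2) :=
    fun j => Submodule.span (ZMod 2) ((fun g : Ext (form emb) => g.v) '' P j)
  have hU : ∀ j, ∀ v ∈ U j, ∀ w ∈ U j, form emb v w = form emb w v := by
    intro j v hv
    induction hv using Submodule.span_induction with
    | mem v hv =>
      obtain ⟨g, hg, rfl⟩ := hv
      intro w hw
      induction hw using Submodule.span_induction with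
      | mem w hw =>
        obtain ⟨h, hh, rfl⟩ := hw
        exact comm_iff g h (hP j g hg h hh)
      | zero => simp
      | add x y _ _ hx hy => simp only [map_add, LinearMap.add_apply, hx, hy]
      | smul c x _ hx => simp only [map_smul, LinearMap.smul_apply, hx]
    | zero => intro w _; simp
    | add x y _ _ hx hy =>
      intro w hw
      simp only [map_add, LinearMap.add_apply, hx w hw, hy w hw]
    | smul c x _ hx =>
      intro w hw
      simp only [map_smul, LinearMap.smul_apply, hx w hw]
  have hall : ∀ g : Ext (form emb), g.v ∈ ⨆ j, U j := by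
    intro g
    have hg : g ∈ Subgroup.closure (⋃ j, P j) := by rw [htop]; trivial
    induction hg using Subgroup.closure_induction with
    | mem x hx =>
      obtain ⟨j, hj⟩ := Set.mem_iUnion.1 hx
      exact Submodule.mem_iSup_of_mem j (Submodule.subset_span ⟨x, hj, rfl⟩)
    | one => rw [one_v]; exact Submodule.zero_mem _
    | mul x y _ _ hx hy => rw [mul_v]; exact Submodule.add_mem _ hx hy
    | inv x _ hx => rw [inv_v]; exact Submodule.neg_mem _ hx
  have hdec : ∀ x : I, ∃ u : J →₀ (I →₀ ZMod 2), (∀ j, u j ∈ U j) ∧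
      ∑ j ∈ u.support, u j = Finsupp.single x 1 := by
    intro x
    have h1 := hall ⟨Finsupp.single x 1, 0⟩
    rw [Submodule.mem_iSup_iff_exists_finsupp] at h1
    obtain ⟨f, hf, hsum⟩ := h1
    exact ⟨f, hf, hsum⟩
  choose u hu hsum using hdec
  let E : I → Finset (J × I) := fun x =>
    (u x).support.biUnion fun j => (u x j).support.image fun a => (j, a)
  have hEmem : ∀ x (p : J × I), p ∈ E x ↔ p.1 ∈ (u x).support ∧ p.2 ∈ (u x p.1).support := by
    intro x p
    simp only [E, Finset.mem_biUnion, Finset.mem_image]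
    constructor
    · rintro ⟨j, hj, a, ha, rfl⟩
      exact ⟨hj, ha⟩
    · rintro ⟨h1, h2⟩
      exact ⟨p.1, h1, p.2, h2, rfl⟩
  have hEsum : ∀ x (g : J × I → ZMod 2),
      ∑ p ∈ E x, g p = ∑ j ∈ (u x).support, ∑ a ∈ (u x j).support, g (j, a) :=
    fun x g => Finset.sum_finset_product (E x) (u x).support (fun j => (u x j).support) (hEmem x)
  apply comb_main hθ emb hemb hI hIic hA hA2 hJ E
  · intro x h
    rw [hEsum]
    have h1 : ∀ j, ∑ a ∈ (u x j).support, h a = Finsupp.linearCombination (ZMod 2) h (u x j) :=
      fun j => (lc_eq (u x j) h).symm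
    simp only [h1]
    rw [← map_sum, hsum, Finsupp.linearCombination_single, one_smul]
  · intro x y
    rw [hEsum]
    apply Finset.sum_eq_zero
    intro j _
    have h1 : ∀ a, ∑ p' ∈ E y, (if (j, a).1 = p'.1 then χ emb (j, a).2 p'.2 +
        χ emb p'.2 (j, a).2 else 0) =
        ∑ b ∈ (u y j).support, (χ emb a b + χ emb b a) := by
      intro a
      rw [hEsum]
      by_cases hj : j ∈ (u y).support
      · rw [Finset.sum_eq_single j]
        · simp only [if_true]
        · intro j' _ hne
          apply Finset.sum_eq_zero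
          intro b _
          exact if_neg hne.symm
        · intro h; exact absurd hj h
      · rw [Finset.sum_eq_zero]
        · rw [Finsupp.notMem_support_iff.1 hj]
          simp
        · intro j' hj'
          apply Finset.sum_eq_zero
          intro b _
          refine if_neg ?_
          rintro (rfl : j = j')
          exact hj hj'
    simp only [h1]
    have h2 : form emb (u x j) (u y j) + form emb (u y j) (u x j) = 0 := by
      rw [hU j _ (hu x j) _ (hu y j)]
      exact CharTwo.add_self_eq_zero _
    rw [form_eq, form_eq, Finset.sum_comm (s := (u y j).support), ← Finset.sum_add_distrib] at h2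
    rw [← h2]
    apply Finset.sum_congr rfl
    intro a _
    rw [Finset.sum_add_distrib]

end Pool.Agent.Helper835.InfGroup
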