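import Mathlib
import Pool.Agent.Helper835.Select2

set_option autoImplicit false

namespace Pool.Agent.Helper835.Primes

open Pool.Agent.Helper835.Flags Pool.Agent.Helper835.Select

variable {G : Type} [Group G] {H : Fin 2 → Subgroup G}

theorem mem_both (hH : H 0 ⊓ H 1 = ⊥) {g : G} (h0 : g ∈ H 0) (h1 : g ∈ H 1) : g = 1 := by
  have : g ∈ H 0 ⊓ H 1 := ⟨h0, h1⟩
  rwa [hH, Subgroup.mem_bot] at this

theorem pow_eq_one_of_mem {K : Subgroup G} {g : G} (hg : g ∈ K) : g ^ Nat.card K = 1 := by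
  have := pow_card_eq_one' (x := (⟨g, hg⟩ : K))
  exact congrArg Subtype.val this

theorem eq_one_of_coprime {g : G} {p q : ℕ} (hpq : Nat.Coprime p q) (hp : g ^ p = 1)
    (hq : g ^ q = 1) : g = 1 := by
  have h1 := orderOf_dvd_of_pow_eq_one hp
  have h2 := orderOf_dvd_of_pow_eq_one hq
  have h3 := Nat.dvd_gcd h1 h2
  rw [hpq] at h3
  exact orderOf_eq_one_iff.1 (Nat.dvd_one.1 h3)

/-- commuting subgroups of coprime orders: everything is good -/
theorem good_of_commute (hH : H 0 ⊓ H 1 = ⊥)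
    (hpq : Nat.Coprime (Nat.card (H 0)) (Nat.card (H 1)))
    (hcomm : ∀ a ∈ H 0, ∀ b ∈ H 1, a * b = b * a) (t : G) : Good H t := by
  intro x hx
  obtain ⟨a, ha, b, hb, e1⟩ := hx 0 0
  obtain ⟨a', ha', b', hb', e2⟩ := hx 0 1
  obtain ⟨c, hc, d, hd, e3⟩ := hx 1 0
  obtain ⟨c', hc', d', hd', e4⟩ := hx 1 1
  have hb1 : b' = 1 := by
    have h1 : a'⁻¹ * a = t * (b' * b⁻¹) * t⁻¹ := by
      have : a'⁻¹ * a = a'⁻¹ * (a * t * b) * b⁻¹ * t⁻¹ := by group
      rw [this, ← e1, e2]; group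
    have h2 : (a'⁻¹ * a) ^ Nat.card (H 0) = 1 :=
      pow_eq_one_of_mem ((H 0).mul_mem ((H 0).inv_mem ha') ha)
    rw [h1, conj_pow] at h2
    have h3 : (b' * b⁻¹) ^ Nat.card (H 0) = 1 := by
      rwa [conj_eq_one_iff] at h2
    have h4 : Commute b' b⁻¹ := (hcomm b⁻¹ ((H 0).inv_mem hb) b' hb').symm
    rw [h4.mul_pow, pow_eq_one_of_mem ((H 0).inv_mem hb), mul_one] at h3
    exact eq_one_of_coprime hpq h3 (pow_eq_one_of_mem hb')
  have hd1 : d = 1 := by
    have h1 : c'⁻¹ * c = t * (d' * d⁻¹) * t⁻¹ := by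
      have : c'⁻¹ * c = c'⁻¹ * (c * t * d) * d⁻¹ * t⁻¹ := by group
      rw [this, ← e3, e4]; group
    have h2 : (c'⁻¹ * c) ^ Nat.card (H 1) = 1 :=
      pow_eq_one_of_mem ((H 1).mul_mem ((H 1).inv_mem hc') hc)
    rw [h1, conj_pow] at h2
    have h3 : (d' * d⁻¹) ^ Nat.card (H 1) = 1 := by
      rwa [conj_eq_one_iff] at h2
    have h4 : Commute d' d⁻¹ := (hcomm d⁻¹ ((H 0).inv_mem hd) d' hd').symm
    rw [h4.mul_pow, pow_eq_one_of_mem hd', one_mul, inv_pow, inv_eq_one] at h3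
    exact eq_one_of_coprime hpq (pow_eq_one_of_mem hd) h3
  rw [hb1, mul_one] at e2
  rw [hd1, mul_one] at e3
  have h5 : a' = c := mul_right_cancel (e2.symm.trans e3)
  have h6 : a' = 1 := mem_both hH ha' (h5 ▸ hc)
  rw [e2, h6, one_mul]

/-- elements conjugating no nontrivial element into the product set are good -/
theorem good_of_conj (hH : H 0 ⊓ H 1 = ⊥) (t : G)
    (ht : ∀ i : Fin 2, ∀ u ∈ H i, u ≠ 1 → ∀ a ∈ H 0, ∀ b ∈ H 1, t⁻¹ * u * t ≠ b * a) :
    Good H t := by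
  intro x hx
  obtain ⟨a, ha, b, hb, e1⟩ := hx 0 0
  obtain ⟨a', ha', b', hb', e2⟩ := hx 0 1
  obtain ⟨c, hc, d, hd, e3⟩ := hx 1 0
  obtain ⟨c', hc', d', hd', e4⟩ := hx 1 1
  have hb1 : b' = 1 := by
    have h1 : t⁻¹ * (a'⁻¹ * a) * t = b' * b⁻¹ := by
      have : t⁻¹ * (a'⁻¹ * a) * t = t⁻¹ * (a'⁻¹ * (a * t * b)) * b⁻¹ := by group
      rw [this, ← e1, e2]; group
    have h2 : a'⁻¹ * a = 1 := by
      by_contra hne
      exact ht 0 _ ((H 0).mul_mem ((H 0).inv_mem ha') ha) hne _ ((H 0).inv_mem hb) _ hb' h1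
    rw [h2, mul_one, inv_mul_cancel] at h1
    have h3 : b' = b := (mul_inv_eq_one.1 h1.symm)
    exact mem_both hH (h3 ▸ hb) hb'
  have hd1 : d = 1 := by
    have h1 : t⁻¹ * (c'⁻¹ * c) * t = d' * d⁻¹ := by
      have : t⁻¹ * (c'⁻¹ * c) * t = t⁻¹ * (c'⁻¹ * (c * t * d)) * d⁻¹ := by group
      rw [this, ← e3, e4]; group
    have h2 : c'⁻¹ * c = 1 := by
      by_contra hne
      exact ht 1 _ ((H 1).mul_mem ((H 1).inv_mem hc') hc) hne _ ((H 0).inv_mem hd) _ hd' h1
    rw [h2, mul_one, inv_mul_cancel] at h1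
    have h3 : d' = d := (mul_inv_eq_one.1 h1.symm)
    exact mem_both hH hd (h3 ▸ hd')
  rw [hb1, mul_one] at e2
  rw [hd1, mul_one] at e3
  have h5 : a' = c := mul_right_cancel (e2.symm.trans e3)
  have h6 : a' = 1 := mem_both hH ha' (h5 ▸ hc)
  rw [e2, h6, one_mul]

variable [Fintype G]

open Classical in
theorem card_conj_le (u w : G) :
    (Finset.univ.filter fun t : G => t⁻¹ * u * t = w).card ≤
      Nat.card (Subgroup.centralizer ({u} : Set G)) := by
  rcases Finset.eq_empty_or_nonempty (Finset.univ.filter fun t : G => t⁻¹ * u * t = w) with h | h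
  · rw [h]; exact Nat.zero_le _
  · obtain ⟨t₀, ht₀⟩ := h
    simp only [Finset.mem_filter, Finset.mem_univ, true_and] at ht₀
    have e : Nat.card (Subgroup.centralizer ({u} : Set G)) =
        (Finset.univ.filter fun g : G => g ∈ Subgroup.centralizer ({u} : Set G)).card := by
      rw [Nat.card_eq_fintype_card, Fintype.card_subtype]
    rw [e]
    apply Finset.card_le_card_of_injOn (fun t => t * t₀⁻¹)
    · intro t ht
      simp only [Finset.coe_filter, Finset.mem_univ, true_and, Set.mem_ofPred_eq] at ht ⊢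
      rw [Subgroup.mem_centralizer_singleton_iff]
      have h1 : t⁻¹ * u * t = t₀⁻¹ * u * t₀ := ht.trans ht₀.symm
      have h2 : u * (t * t₀⁻¹) = t * (t⁻¹ * u * t) * t₀⁻¹ := by group
      rw [h2, h1]
      group
    · intro t _ t' _ h
      exact mul_right_cancel h

open Classical in
theorem card_HF_le : (HF H).card ≤ Nat.card (H 0) + Nat.card (H 1) := by
  unfold HF
  rw [Finset.filter_or]
  refine (Finset.card_union_le _ _).trans (le_of_eq ?_)
  congr 1
  · rw [Nat.card_eq_fintype_card, Fintype.card_subtype]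
  · rw [Nat.card_eq_fintype_card, Fintype.card_subtype]

open Classical in
theorem card_bad_le (hH : H 0 ⊓ H 1 = ⊥) (M : ℕ)
    (hM : ∀ i : Fin 2, ∀ u ∈ H i, u ≠ 1 →
      Nat.card (Subgroup.centralizer ({u} : Set G)) ≤ M) :
    (Finset.univ.filter fun t : G => ¬ Good H t).card ≤
      (Nat.card (H 0) + Nat.card (H 1)) * (Nat.card (H 0) * Nat.card (H 1)) * M := by
  let F0 : Finset G := Finset.univ.filter fun g => g ∈ H 0
  let F1 : Finset G := Finset.univ.filter fun g => g ∈ H 1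
  have c0 : F0.card = Nat.card (H 0) := by
    rw [Nat.card_eq_fintype_card, Fintype.card_subtype]
  have c1 : F1.card = Nat.card (H 1) := by
    rw [Nat.card_eq_fintype_card, Fintype.card_subtype]
  let I : Finset (G × (G × G)) := ((HF H).erase 1) ×ˢ (F0 ×ˢ F1)
  have hsub : (Finset.univ.filter fun t : G => ¬ Good H t) ⊆
      I.biUnion fun z => Finset.univ.filter fun t : G => t⁻¹ * z.1 * t = z.2.2 * z.2.1 := by
    intro t ht
    simp only [Finset.mem_filter, Finset.mem_univ, true_and] at ht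
    have h1 : ¬ ∀ i : Fin 2, ∀ u ∈ H i, u ≠ 1 → ∀ a ∈ H 0, ∀ b ∈ H 1,
        t⁻¹ * u * t ≠ b * a := fun h => ht (good_of_conj hH t h)
    push Not at h1
    obtain ⟨i, u, hu, hu1, a, ha, b, hb, he⟩ := h1
    rw [Finset.mem_biUnion]
    refine ⟨(u, (a, b)), ?_, ?_⟩
    · simp only [I, Finset.mem_product, Finset.mem_erase, F0, F1, Finset.mem_filter,
        Finset.mem_univ, true_and]
      exact ⟨⟨hu1, mem_HF hu⟩, ha, hb⟩
    · simp only [Finset.mem_filter, Finset.mem_univ, true_and]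
      exact he
  refine (Finset.card_le_card hsub).trans ?_
  refine (Finset.card_biUnion_le_card_mul I _ M ?_).trans ?_
  · rintro ⟨u, a, b⟩ hz
    simp only [I, Finset.mem_product, Finset.mem_erase] at hz
    have hu : u ∈ H 0 ∨ u ∈ H 1 := by
      have := hz.1.2
      simpa [HF] using this
    refine (card_conj_le u (b * a)).trans ?_
    rcases hu with hu | hu
    · exact hM 0 u hu hz.1.1
    · exact hM 1 u hu hz.1.1
  · apply Nat.mul_le_mul_right
    rw [Finset.card_product, Finset.card_product, c0, c1]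
    apply Nat.mul_le_mul_right
    exact (Finset.card_erase_le).trans card_HF_le

end Pool.Agent.Helper835.Primes
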