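import Mathlib
import Pool.Agent.Helper835.Primes

set_option autoImplicit false

namespace Pool.Agent.Helper835.Primes

open Pool.Agent.Helper835.Flags Pool.Agent.Helper835.Select

theorem arith_size {P m n : ℕ} (hP : 2 ≤ P) (hm : 2 ^ m ≤ n) (hPn : P ^ 14 ≤ n)
    (h : 2 ^ 20 * (4 * (m + 1)) ^ 14 ≤ 2 ^ m) : 8 * (2 * P + 4 * (m + 1)) ^ 7 ≤ n := by
  set c := 4 * (m + 1) with hc
  have hc2 : 4 ≤ c := by omega
  have h1 : 2 * P + c ≤ 2 * P * c := by nlinarith
  have h2 : (2 * P + c) ^ 7 ≤ (2 * P * c) ^ 7 := Nat.pow_le_pow_left h1 7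
  have h3 : (8 * (2 * P * c) ^ 7) ^ 2 ≤ n ^ 2 := by
    calc (8 * (2 * P * c) ^ 7) ^ 2 = P ^ 14 * (2 ^ 20 * c ^ 14) := by ring
      _ ≤ n * 2 ^ m := Nat.mul_le_mul hPn h
      _ ≤ n * n := Nat.mul_le_mul_left _ hm
      _ = n ^ 2 := by ring
  have h4 : 8 * (2 * P * c) ^ 7 ≤ n := (Nat.pow_le_pow_iff_left (by norm_num)).1 h3
  omega

theorem exists_m0 : ∃ m₀ : ℕ, ∀ m ≥ m₀, 2 ^ 20 * (4 * (m + 1)) ^ 14 ≤ 2 ^ m := by
  have h1 := tendsto_pow_const_mul_const_pow_of_abs_lt_one 14 (r := (1 / 2 : ℝ))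
    (by rw [abs_of_pos (by norm_num)]; norm_num)
  have h2 : ∀ᶠ n : ℕ in Filter.atTop, (n : ℝ) ^ 14 * (1 / 2 : ℝ) ^ n < 1 / (2 ^ 21 * 4 ^ 14) :=
    (tendsto_order.1 h1).2 _ (by positivity)
  obtain ⟨m₀, hm₀⟩ := Filter.eventually_atTop.1 h2
  refine ⟨m₀, fun m hm => ?_⟩
  have h3 := hm₀ (m + 1) (by omega)
  have h4 : ((m + 1 : ℕ) : ℝ) ^ 14 * (1 / 2 : ℝ) ^ (m + 1) * (2 ^ 21 * 4 ^ 14) < 1 := by
    rwa [lt_div_iff₀ (by positivity)] at h3
  have h5 : (2 : ℝ) ^ 20 * (4 * ((m + 1 : ℕ) : ℝ)) ^ 14 ≤ 2 ^ m := by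
    have h6 : (1 / 2 : ℝ) ^ (m + 1) = 1 / (2 * 2 ^ m) := by
      rw [one_div, inv_pow, pow_succ, one_div]; ring
    rw [h6] at h4
    have h7 : (0 : ℝ) < 2 ^ m := by positivity
    have h8 : ((m + 1 : ℕ) : ℝ) ^ 14 * (1 / (2 * 2 ^ m)) * (2 ^ 21 * 4 ^ 14) =
        (2 ^ 20 * (4 * ((m + 1 : ℕ) : ℝ)) ^ 14) / 2 ^ m := by
      field_simp
    rw [h8, div_lt_one h7] at h4
    exact h4.le
  exact_mod_cast h5

theorem card_primes_large (n K : ℕ) :
    n.primeFactors.card ≤ (n.primeFactors.filter fun p => K < p).card + (K + 1) := by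
  classical
  have h1 := Finset.card_filter_add_card_filter_not (s := n.primeFactors) (fun p => K < p)
  have h2 : (n.primeFactors.filter fun p => ¬ K < p).card ≤ K + 1 := by
    refine (Finset.card_le_card (t := Finset.range (K + 1)) ?_).trans (by rw [Finset.card_range])
    intro p hp
    rw [Finset.mem_filter] at hp
    rw [Finset.mem_range]
    omega
  omega

/-- The main group-theoretic statement. -/
theorem core (K : ℕ) (hK : 5 ≤ K) (m₀ : ℕ)
    (hm₀ : ∀ m ≥ m₀, 2 ^ 20 * (4 * (m + 1)) ^ 14 ≤ 2 ^ m)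
    (G : Type) [Group G] [Finite G] (hω : K + 23 + m₀ ≤ (Nat.card G).primeFactors.card) :
    ∃ (a b : ℕ), a * K ≤ Nat.card G ∧ b * K ≤ Nat.card G ∧
    ∃ (W : Type) (_ : Finite W) (X : SimpleGraph W), Nonempty ((X ≃g X) ≃* G) ∧
      Nat.card W = 5 * (a + b) + 5 := by
  classical
  have : Fintype G := Fintype.ofFinite G
  set n := Nat.card G with hn
  have hnf : Fintype.card G = n := by rw [hn, Nat.card_eq_fintype_card]
  have hnpos : 0 < n := Nat.card_pos
  set PS := n.primeFactors.filter fun p => K < p with hPS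
  have hcard : 22 ≤ PS.card := by
    have := card_primes_large n K
    rw [← hPS] at this
    omega
  let f := PS.orderEmbOfFin rfl
  let pr : ℕ → ℕ := fun i => if h : i < PS.card then f ⟨i, h⟩ else 0
  have hpr : ∀ i, i < 22 → ∃ h : i < PS.card, pr i = f ⟨i, h⟩ := by
    intro i hi
    have h : i < PS.card := by omega
    exact ⟨h, dif_pos h⟩
  have hmem : ∀ i, i < 22 → pr i ∈ PS := by
    intro i hi
    obtain ⟨h, e⟩ := hpr i hi
    rw [e]
    exact Finset.orderEmbOfFin_mem _ _ _
  have hprime : ∀ i, i < 22 → (pr i).Prime := fun i hi =>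
    Nat.prime_of_mem_primeFactors (Finset.mem_filter.1 (hmem i hi)).1
  have hdvd : ∀ i, i < 22 → pr i ∣ n := fun i hi =>
    Nat.dvd_of_mem_primeFactors (Finset.mem_filter.1 (hmem i hi)).1
  have hgtK : ∀ i, i < 22 → K < pr i := fun i hi => (Finset.mem_filter.1 (hmem i hi)).2
  have hmono : ∀ i j, i < j → j < 22 → pr i < pr j := by
    intro i j hij hj
    obtain ⟨hi', ei⟩ := hpr i (by omega)
    obtain ⟨hj', ej⟩ := hpr j hj
    rw [ei, ej]
    exact f.strictMono (by simpa using hij)
  have hinj : ∀ i j, i < 22 → j < 22 → pr i = pr j → i = j := by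
    intro i j hi hj h
    rcases lt_trichotomy i j with h' | h' | h'
    · exact absurd h (hmono i j h' hj).ne
    · exact h'
    · exact absurd h (hmono j i h' hi).ne'
  -- products of these primes
  have hprod : ∀ (a b c N : ℕ), b ≤ 22 → 0 < N → (∀ i, a ≤ i → i < b → c ≤ pr i) →
      (∀ i, a ≤ i → i < b → pr i ∣ N) → c ^ (b - a) ≤ N := by
    intro a b c N hb hN hc hd
    have h1 : ∏ p ∈ (Finset.Ico a b).image pr, p ∣ N := by
      apply Finset.prod_primes_dvd
      · intro p hp
        obtain ⟨i, hi, rfl⟩ := Finset.mem_image.1 hp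
        rw [Finset.mem_Ico] at hi
        exact (hprime i (by omega)).prime
      · intro p hp
        obtain ⟨i, hi, rfl⟩ := Finset.mem_image.1 hp
        rw [Finset.mem_Ico] at hi
        exact hd i hi.1 hi.2
    rw [Finset.prod_image (by
      intro i hi j hj h
      rw [Finset.mem_coe, Finset.mem_Ico] at hi hj
      exact hinj i j (by omega) (by omega) h)] at h1
    have h2 : c ^ (b - a) ≤ ∏ i ∈ Finset.Ico a b, pr i := by
      have := Finset.pow_card_le_prod (Finset.Ico a b) pr c (fun i hi => by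
        rw [Finset.mem_Ico] at hi
        exact hc i hi.1 hi.2)
      rwa [Nat.card_Ico] at this
    exact h2.trans (Nat.le_of_dvd hN h1)
  set P := pr 7 with hPdef
  have hP14 : P ^ 14 ≤ n := by
    have := hprod 7 21 P n (by norm_num) hnpos (by
      intro i h1 h2
      rcases Nat.eq_or_lt_of_le h1 with h | h
      · rw [← h]
      · exact (hmono 7 i h (by omega)).le) (fun i _ h2 => hdvd i (by omega))
    exact this
  have hPle : ∀ i, i < 8 → pr i ≤ P := by
    intro i hi
    rcases Nat.eq_or_lt_of_le (Nat.le_of_lt_succ hi) with h | h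
    · rw [h]
    · exact (hmono i 7 h (by norm_num)).le
  have hP2 : 2 ≤ P := (hprime 7 (by norm_num)).two_le
  have hlog : m₀ ≤ Nat.log 2 n := by
    have h1 : 2 ^ n.primeFactors.card ≤ n := by
      have h2 : 2 ^ n.primeFactors.card ≤ ∏ p ∈ n.primeFactors, p :=
        Finset.pow_card_le_prod _ _ _ (fun p hp => (Nat.prime_of_mem_primeFactors hp).two_le)
      exact h2.trans (Nat.le_of_dvd hnpos (Nat.prod_primeFactors_dvd n))
    have h3 := Nat.le_log_of_pow_le (by norm_num) h1
    omega
  have hsz := arith_size hP2 (Nat.pow_log_le_self 2 hnpos.ne') hP14 (hm₀ _ hlog)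
  -- general conclusion from two subgroups
  have concl : ∀ (u v : G) (i j : ℕ), i < 8 → j < 8 → i ≠ j → orderOf u = pr i → orderOf v = pr j →
      ∀ b : ℕ, 16 * b ≤ n →
      (∀ H : Fin 2 → Subgroup G, H 0 = Subgroup.zpowers u → H 1 = Subgroup.zpowers v →
        H 0 ⊓ H 1 = ⊥ → (Finset.univ.filter fun t : G => ¬ Good H t).card ≤ b) →
      ∃ (a b : ℕ), a * K ≤ n ∧ b * K ≤ n ∧
      ∃ (W : Type) (_ : Finite W) (X : SimpleGraph W), Nonempty ((X ≃g X) ≃* G) ∧
        Nat.card W = 5 * (a + b) + 5 := by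
    intro u v i j hi hj hij hu hv b hb hbad
    let H : Fin 2 → Subgroup G := ![Subgroup.zpowers u, Subgroup.zpowers v]
    have h0 : H 0 = Subgroup.zpowers u := rfl
    have h1 : H 1 = Subgroup.zpowers v := rfl
    have c0 : Nat.card (H 0) = pr i := by rw [h0, Nat.card_zpowers, hu]
    have c1 : Nat.card (H 1) = pr j := by rw [h1, Nat.card_zpowers, hv]
    have hcop : Nat.Coprime (pr i) (pr j) :=
      (Nat.coprime_primes (hprime i (by omega)) (hprime j (by omega))).2
        (fun h => hij (hinj i j (by omega) (by omega) h))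
    have hH : H 0 ⊓ H 1 = ⊥ := by
      rw [eq_bot_iff]
      intro g hg
      rw [Subgroup.mem_bot]
      have e0 := pow_eq_one_of_mem (K := H 0) hg.1
      have e1 := pow_eq_one_of_mem (K := H 1) hg.2
      rw [c0] at e0
      rw [c1] at e1
      exact eq_one_of_coprime hcop e0 e1
    have i0 : (H 0).index * pr i = n := by rw [← c0, mul_comm]; exact (H 0).card_mul_index
    have i1 : (H 1).index * pr j = n := by rw [← c1, mul_comm]; exact (H 1).card_mul_index
    have hV : 5 < (H 0).index + (H 1).index := by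
      -- pr j divides index of H 0
      have hd : pr j ∣ (H 0).index := by
        have : pr j ∣ (H 0).index * pr i := by rw [i0]; exact hdvd j (by omega)
        exact hcop.symm.dvd_of_dvd_mul_right this
      have hpos : 0 < (H 0).index := Nat.pos_of_ne_zero Subgroup.index_ne_zero_of_finite
      have h2 := Nat.le_of_dvd hpos hd
      have h3 := hgtK j (by omega)
      omega
    refine ⟨(H 0).index, (H 1).index, ?_, ?_, ?_⟩
    · rw [← i0]
      exact Nat.mul_le_mul_left _ (hgtK i (by omega)).le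
    · rw [← i1]
      exact Nat.mul_le_mul_left _ (hgtK j (by omega)).le
    · apply exists_graph_of_good hH b (hbad H h0 h1 hH) _ hV
      have hHF : (HF H).card ≤ 2 * P := by
        have := card_HF_le (H := H)
        rw [c0, c1] at this
        have a1 := hPle i hi
        have a2 := hPle j hj
        omega
      have hle : ((HF H).card + 4 * (Nat.log 2 (Fintype.card G) + 1)) ^ 7 ≤
          (2 * P + 4 * (Nat.log 2 n + 1)) ^ 7 := by
        rw [hnf]
        exact Nat.pow_le_pow_left (by omega) 7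
      rw [hnf] at hle ⊢
      omega
  by_cases hA : ∃ i j : ℕ, i < 8 ∧ j < 8 ∧ i ≠ j ∧ ∃ u v : G, orderOf u = pr i ∧
      orderOf v = pr j ∧ Commute u v
  · obtain ⟨i, j, hi, hj, hij, u, v, hu, hv, huv⟩ := hA
    apply concl u v i j hi hj hij hu hv 0 (by omega)
    intro H h0 h1 hH
    rw [Nat.le_zero, Finset.card_eq_zero, Finset.filter_eq_empty_iff]
    intro t _
    rw [not_not]
    apply good_of_commute hH
    · rw [h0, h1, Nat.card_zpowers, Nat.card_zpowers, hu, hv]
      exact (Nat.coprime_primes (hprime i (by omega)) (hprime j (by omega))).2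
        (fun h => hij (hinj i j (by omega) (by omega) h))
    · intro a ha b hb
      rw [h0] at ha
      rw [h1] at hb
      obtain ⟨k, rfl⟩ := Subgroup.mem_zpowers_iff.1 ha
      obtain ⟨l, rfl⟩ := Subgroup.mem_zpowers_iff.1 hb
      exact (huv.zpow_zpow k l)
  · push Not at hA
    have hcauchy : ∀ i, i < 22 → ∃ u : G, orderOf u = pr i := by
      intro i hi
      have : Fact (pr i).Prime := ⟨hprime i hi⟩
      exact exists_prime_orderOf_dvd_card' (pr i) (hdvd i hi)
    obtain ⟨u, hu⟩ := hcauchy 0 (by norm_num)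
    obtain ⟨v, hv⟩ := hcauchy 1 (by norm_num)
    set p := pr 0 with hp
    set q := pr 1 with hq
    have hpq : p < q := hmono 0 1 (by norm_num) (by norm_num)
    have hq6 : 6 ≤ q := by
      have := hgtK 1 (by norm_num)
      omega
    -- centralizers are small
    have hcent : ∀ w : G, (orderOf w = pr 0 ∨ orderOf w = pr 1) →
        Nat.card (Subgroup.centralizer ({w} : Set G)) ≤ n / q ^ 6 := by
      intro w hw
      rw [Nat.le_div_iff_mul_le (by positivity)]
      set C := Subgroup.centralizer ({w} : Set G) with hC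
      have hCn : Nat.card C * C.index = n := C.card_mul_index
      rw [← hCn]
      apply Nat.mul_le_mul_left
      have hpos : 0 < C.index := Nat.pos_of_ne_zero Subgroup.index_ne_zero_of_finite
      apply hprod 2 8 q C.index (by norm_num) hpos
      · intro i h1 h2
        exact (hmono 1 i (by omega) (by omega)).le
      · intro i h1 h2
        have h3 : pr i ∣ Nat.card C * C.index := by rw [hCn]; exact hdvd i (by omega)
        rcases (hprime i (by omega)).dvd_mul.1 h3 with h4 | h4
        · exfalso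
          have : Fact (pr i).Prime := ⟨hprime i (by omega)⟩
          obtain ⟨x, hx⟩ := exists_prime_orderOf_dvd_card' (pr i) h4
          have hx' : orderOf (x : G) = pr i := by rw [Subgroup.orderOf_coe]; exact hx
          have hcomm : Commute w (x : G) := by
            have h5 : (x : G) ∈ Subgroup.centralizer ({w} : Set G) := x.2
            rw [Subgroup.mem_centralizer_singleton_iff] at h5
            first
              | exact h5
              | exact h5.symm
          rcases hw with hw | hw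
          · exact hA 0 i (by norm_num) h2 (by omega) w x hw hx' hcomm
          · exact hA 1 i (by norm_num) h2 (by omega) w x hw hx' hcomm
        · exact h4
    have hb : 16 * ((p + q) * (p * q) * (n / q ^ 6)) ≤ n := by
      have h1 : (p + q) * (p * q) ≤ 2 * q ^ 3 := by
        calc (p + q) * (p * q) ≤ (q + q) * (q * q) := by
              apply Nat.mul_le_mul
              · omega
              · exact Nat.mul_le_mul_right _ hpq.le
          _ = 2 * q ^ 3 := by ring
      have h2 : 32 ≤ q ^ 3 := by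
        calc 32 ≤ 6 ^ 3 := by norm_num
          _ ≤ q ^ 3 := Nat.pow_le_pow_left hq6 3
      calc 16 * ((p + q) * (p * q) * (n / q ^ 6)) ≤ 16 * (2 * q ^ 3 * (n / q ^ 6)) := by
            apply Nat.mul_le_mul_left
            exact Nat.mul_le_mul_right _ h1
        _ = 32 * (q ^ 3 * (n / q ^ 6)) := by ring
        _ ≤ q ^ 3 * (q ^ 3 * (n / q ^ 6)) := Nat.mul_le_mul_right _ h2
        _ = q ^ 6 * (n / q ^ 6) := by ring
        _ ≤ n := Nat.mul_div_le n (q ^ 6)
    apply concl u v 0 1 (by norm_num) (by norm_num) (by norm_num) hu hv _ hb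
    intro H h0 h1 hH
    have c0 : Nat.card (H 0) = p := by rw [h0, Nat.card_zpowers, hu]
    have c1 : Nat.card (H 1) = q := by rw [h1, Nat.card_zpowers, hv]
    have hbad := card_bad_le hH (n / q ^ 6) (by
      intro i w hw hw1
      apply hcent
      fin_cases i
      · left
        have h2 : w ^ Nat.card (H 0) = 1 := pow_eq_one_of_mem hw
        rw [c0] at h2
        have h3 := orderOf_dvd_of_pow_eq_one h2
        exact ((Nat.dvd_prime (hprime 0 (by norm_num))).1 h3).resolve_left
          (fun h => hw1 (orderOf_eq_one_iff.1 h))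
      · right
        have h2 : w ^ Nat.card (H 1) = 1 := pow_eq_one_of_mem hw
        rw [c1] at h2
        have h3 := orderOf_dvd_of_pow_eq_one h2
        exact ((Nat.dvd_prime (hprime 1 (by norm_num))).1 h3).resolve_left
          (fun h => hw1 (orderOf_eq_one_iff.1 h)))
    rw [c0, c1] at hbad
    exact hbad

/-- Final form. -/
theorem main (ε : ℝ) (hε : 0 < ε) : ∃ N : ℕ, ∀ (G : Type) [Group G] [Finite G],
    N ≤ (Nat.card G).primeFactors.card →
    ∃ (V : Type) (_ : Finite V) (X : SimpleGraph V), Nonempty ((X ≃g X) ≃* G) ∧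
      (Nat.card V : ℝ) < ε * Nat.card G := by
  obtain ⟨m₀, hm₀⟩ := exists_m0
  let K := max 5 ⌈20 / ε⌉₊
  refine ⟨K + 23 + m₀ + ⌈10 / ε⌉₊, ?_⟩
  intro G _ _ hω
  obtain ⟨a, b, ha, hb, W, hW, X, hX, hcard⟩ := core K (le_max_left _ _) m₀ hm₀ G (by omega)
  refine ⟨W, hW, X, hX, ?_⟩
  set n := Nat.card G with hn
  have hnpos : 0 < n := Nat.card_pos
  have hK : 20 / ε ≤ K := (Nat.le_ceil _).trans (by exact_mod_cast le_max_right _ _)
  have hK' : 20 ≤ K * ε := by rwa [div_le_iff₀ hε] at hK
  have h1 : n.primeFactors.card < n := by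
    have h2 : 2 ^ n.primeFactors.card ≤ n := by
      have h2 : 2 ^ n.primeFactors.card ≤ ∏ p ∈ n.primeFactors, p :=
        Finset.pow_card_le_prod _ _ _ (fun p hp => (Nat.prime_of_mem_primeFactors hp).two_le)
      exact h2.trans (Nat.le_of_dvd hnpos (Nat.prod_primeFactors_dvd n))
    exact Nat.lt_two_pow_self.trans_le h2
  have h3 : 10 / ε < n := by
    have h4 : (10 / ε) ≤ (⌈10 / ε⌉₊ : ℝ) := Nat.le_ceil _
    have h5 : (⌈10 / ε⌉₊ : ℝ) < n := by
      exact_mod_cast (show ⌈10 / ε⌉₊ < n by omega)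
    linarith
  have h3' : 10 < n * ε := by rwa [div_lt_iff₀ hε] at h3
  have ha' : (a : ℝ) * K ≤ n := by exact_mod_cast ha
  have hb' : (b : ℝ) * K ≤ n := by exact_mod_cast hb
  have ha2 : (a : ℝ) * 20 ≤ n * ε := by
    calc (a : ℝ) * 20 ≤ a * (K * ε) := by
          apply mul_le_mul_of_nonneg_left hK' (Nat.cast_nonneg a)
      _ = (a * K) * ε := by ring
      _ ≤ n * ε := mul_le_mul_of_nonneg_right ha' hε.le
  have hb2 : (b : ℝ) * 20 ≤ n * ε := by
    calc (b : ℝ) * 20 ≤ b * (K * ε) := by
          apply mul_le_mul_of_nonneg_left hK' (Nat.cast_nonneg b)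
      _ = (b * K) * ε := by ring
      _ ≤ n * ε := mul_le_mul_of_nonneg_right hb' hε.le
  rw [hcard]
  push_cast
  nlinarith

end Pool.Agent.Helper835.Primes
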